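import Pool.Agent.Helper124.SWDefs

namespace Pool.Agent.Helper124.SW.J1

open Finset Classical

noncomputable section

/-- product weight of a Boolean vector -/
def bw {n : ℕ} (x y : ℝ) (f : Fin n → Bool) : ℝ := ∏ i, (if f i = true then x else y)

lemma bw_cons {n : ℕ} (x y : ℝ) (b : Bool) (f : Fin n → Bool) :
    bw x y (Fin.cons b f : Fin (n + 1) → Bool) = (if b = true then x else y) * bw x y f := by
  simp [bw, Fin.prod_univ_succ]

lemma bw_nonneg {n : ℕ} {x y : ℝ} (hx : 0 ≤ x) (hy : 0 ≤ y) (f : Fin n → Bool) : 0 ≤ bw x y f := by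
  unfold bw
  refine Finset.prod_nonneg fun i _ => ?_
  split_ifs <;> assumption

lemma sum_cons' {n : ℕ} {α : Type*} [Fintype α] (F : (Fin (n + 1) → α) → ℝ) :
    ∑ f, F f = ∑ b : α, ∑ g : Fin n → α, F (Fin.cons b g) := by
  rw [← (Fin.consEquiv (fun _ => α)).sum_comp, Fintype.sum_prod_type]
  rfl

lemma sum_bw (n : ℕ) (x y : ℝ) : ∑ f : Fin n → Bool, bw x y f = (x + y) ^ n := by
  induction n with
  | zero => simp [bw]
  | succ n ih =>
    rw [sum_cons']
    simp only [bw_cons, ← Finset.mul_sum, ih]
    rw [Fintype.sum_bool]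
    simp only [if_true, Bool.false_eq_true, if_false]
    ring

/-- new horizontal increment -/
def sI (i j w : Bool) : Bool := !j && (i || w)
/-- new vertical increment -/
def sJ (i j w : Bool) : Bool := !i && (j || w)

/-- one row of the dynamics -/
def row : (n : ℕ) → (Fin n → Bool) → Bool → (Fin n → Bool) → (Fin n → Bool) × Bool
  | 0, I, J, _ => (I, J)
  | n + 1, I, J, r =>
    (Fin.cons (sI (I 0) J (r 0)) (row n (Fin.tail I) (sJ (I 0) J (r 0)) (Fin.tail r)).1,
      (row n (Fin.tail I) (sJ (I 0) J (r 0)) (Fin.tail r)).2)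

lemma row_cons {n : ℕ} (i : Bool) (I : Fin n → Bool) (J w : Bool) (r : Fin n → Bool) :
    row (n + 1) (Fin.cons i I) J (Fin.cons w r) =
      (Fin.cons (sI i J w) (row n I (sJ i J w) r).1, (row n I (sJ i J w) r).2) := by
  simp [row, Fin.tail_cons, Fin.cons_zero]

lemma site_sum {a b p : ℝ} (hab : a * b = p) (Ψ : Bool → Bool → ℝ) :
    ∑ i : Bool, ∑ J : Bool, ∑ w : Bool, (if i = true then a else 1) * (if J = true then b else 1) *
      (if w = true then p else 1 - p) * Ψ (sI i J w) (sJ i J w) =
    ∑ i : Bool, ∑ J : Bool, (if i = true then a else 1) * (if J = true then b else 1) * Ψ i J := by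
  simp only [Fintype.sum_bool, sI, sJ]
  simp
  subst hab
  ring

lemma row_sum {a b p : ℝ} (hab : a * b = p) (n : ℕ) (Φ : (Fin n → Bool) → Bool → ℝ) :
    ∑ I : Fin n → Bool, ∑ J : Bool, ∑ r : Fin n → Bool, bw a 1 I * (if J = true then b else 1) *
      bw p (1 - p) r * Φ (row n I J r).1 (row n I J r).2 =
    ∑ I : Fin n → Bool, ∑ J : Bool, bw a 1 I * (if J = true then b else 1) * Φ I J := by
  induction n with
  | zero => simp [bw, row]
  | succ n ih =>
    rw [sum_cons']
    conv_rhs => rw [sum_cons']
    -- the inner sums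
    set Ψ : Bool → Bool → ℝ := fun i' j' => ∑ I : Fin n → Bool, ∑ r : Fin n → Bool,
      bw a 1 I * bw p (1 - p) r * Φ (Fin.cons i' (row n I j' r).1) (row n I j' r).2 with hΨ
    have h1 : ∑ i : Bool, ∑ I : Fin n → Bool, ∑ J : Bool, ∑ r : Fin (n + 1) → Bool,
        bw a 1 (Fin.cons i I : Fin (n + 1) → Bool) * (if J = true then b else 1) *
        bw p (1 - p) r * Φ (row (n + 1) (Fin.cons i I) J r).1 (row (n + 1) (Fin.cons i I) J r).2 =
        ∑ i : Bool, ∑ J : Bool, ∑ w : Bool, (if i = true then a else 1) *
          (if J = true then b else 1) * (if w = true then p else 1 - p) *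
          Ψ (sI i J w) (sJ i J w) := by
      refine Finset.sum_congr rfl fun i _ => ?_
      rw [Finset.sum_comm]
      refine Finset.sum_congr rfl fun J _ => ?_
      have : ∀ I : Fin n → Bool, ∑ r : Fin (n + 1) → Bool,
          bw a 1 (Fin.cons i I : Fin (n + 1) → Bool) * (if J = true then b else 1) *
          bw p (1 - p) r * Φ (row (n + 1) (Fin.cons i I) J r).1
            (row (n + 1) (Fin.cons i I) J r).2 =
          ∑ w : Bool, ∑ r : Fin n → Bool, (if i = true then a else 1) *
          (if J = true then b else 1) * (if w = true then p else 1 - p) *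
          (bw a 1 I * bw p (1 - p) r * Φ (Fin.cons (sI i J w) (row n I (sJ i J w) r).1)
            (row n I (sJ i J w) r).2) := by
        intro I
        rw [sum_cons']
        refine Finset.sum_congr rfl fun w _ => Finset.sum_congr rfl fun r _ => ?_
        rw [row_cons, bw_cons, bw_cons]
        ring
      rw [Finset.sum_congr rfl fun I _ => this I, Finset.sum_comm]
      refine Finset.sum_congr rfl fun w _ => ?_
      rw [hΨ, Finset.mul_sum]
      refine Finset.sum_congr rfl fun I _ => ?_
      rw [Finset.mul_sum]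
    rw [h1, site_sum hab]
    refine Finset.sum_congr rfl fun i _ => ?_
    have h2 := ih (fun I J => Φ (Fin.cons i I) J)
    have h3 : ∑ J : Bool, (if i = true then a else 1) * (if J = true then b else 1) * Ψ i J =
        (if i = true then a else 1) * ∑ I : Fin n → Bool, ∑ J : Bool, ∑ r : Fin n → Bool,
          bw a 1 I * (if J = true then b else 1) *
          bw p (1 - p) r * Φ (Fin.cons i (row n I J r).1) (row n I J r).2 := by
      rw [Finset.sum_comm, Finset.mul_sum]
      refine Finset.sum_congr rfl fun J _ => ?_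
      rw [hΨ, mul_assoc, Finset.mul_sum]
      congr 1
      refine Finset.sum_congr rfl fun I _ => ?_
      rw [Finset.mul_sum]
      refine Finset.sum_congr rfl fun r _ => ?_
      ring
    rw [h3, h2, Finset.mul_sum]
    refine Finset.sum_congr rfl fun I _ => ?_
    rw [Finset.mul_sum]
    refine Finset.sum_congr rfl fun J _ => ?_
    rw [bw_cons]
    ring

/-- number of the vertical increments at the right boundary -/
def cnt : (m n : ℕ) → (Fin n → Bool) → (Fin m → Bool) → (Fin m → Fin n → Bool) → ℕ
  | 0, _, _, _, _ => 0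
  | m + 1, n, I, J, w => (if (row n I (J 0) (w 0)).2 = true then 1 else 0) +
      cnt m n (row n I (J 0) (w 0)).1 (Fin.tail J) (Fin.tail w)

lemma cnt_cons {m n : ℕ} (I : Fin n → Bool) (j : Bool) (J : Fin m → Bool) (r : Fin n → Bool)
    (w : Fin m → Fin n → Bool) :
    cnt (m + 1) n I (Fin.cons j J) (Fin.cons r w) =
      (if (row n I j r).2 = true then 1 else 0) + cnt m n (row n I j r).1 J w := by
  simp [cnt, Fin.tail_cons, Fin.cons_zero]

lemma total_sum {a b p γ : ℝ} (hab : a * b = p) (n m : ℕ) :
    ∑ I : Fin n → Bool, ∑ J : Fin m → Bool, ∑ w : Fin m → Fin n → Bool,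
      bw a 1 I * bw b 1 J * (∏ i, bw p (1 - p) (w i)) * γ ^ cnt m n I J w =
    (1 + a) ^ n * (1 + b * γ) ^ m := by
  induction m with
  | zero =>
    have := sum_bw n a 1
    simp [cnt, bw] at this ⊢
    rw [this, add_comm]
  | succ m ih =>
    have h1 : ∀ I : Fin n → Bool, ∑ J : Fin (m + 1) → Bool, ∑ w : Fin (m + 1) → Fin n → Bool,
        bw a 1 I * bw b 1 J * (∏ i, bw p (1 - p) (w i)) * γ ^ cnt (m + 1) n I J w =
        ∑ j : Bool, ∑ r : Fin n → Bool, bw a 1 I * (if j = true then b else 1) *
          bw p (1 - p) r * ((if (row n I j r).2 = true then γ else 1) *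
          ∑ J : Fin m → Bool, ∑ w : Fin m → Fin n → Bool, bw b 1 J *
            (∏ i, bw p (1 - p) (w i)) * γ ^ cnt m n (row n I j r).1 J w) := by
      intro I
      rw [sum_cons']
      refine Finset.sum_congr rfl fun j _ => ?_
      have h2 : ∀ J : Fin m → Bool, ∑ w : Fin (m + 1) → Fin n → Bool,
          bw a 1 I * bw b 1 (Fin.cons j J : Fin (m + 1) → Bool) * (∏ i, bw p (1 - p) (w i)) *
            γ ^ cnt (m + 1) n I (Fin.cons j J) w =
          ∑ r : Fin n → Bool, ∑ w : Fin m → Fin n → Bool, bw a 1 I * (if j = true then b else 1) *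
          bw p (1 - p) r * ((if (row n I j r).2 = true then γ else 1) *
           (bw b 1 J * (∏ i, bw p (1 - p) (w i)) * γ ^ cnt m n (row n I j r).1 J w)) := by
        intro J
        rw [sum_cons']
        refine Finset.sum_congr rfl fun r _ => Finset.sum_congr rfl fun w _ => ?_
        rw [bw_cons, cnt_cons, Fin.prod_univ_succ, pow_add]
        simp only [Fin.cons_zero, Fin.cons_succ]
        by_cases hr : (row n I j r).2 = true
        · simp only [hr, if_true, pow_one]; ring
        · rw [if_neg hr, if_neg hr, pow_zero]; ring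
      rw [Finset.sum_congr rfl fun J _ => h2 J, Finset.sum_comm]
      refine Finset.sum_congr rfl fun r _ => ?_
      rw [← mul_assoc, Finset.mul_sum]
      refine Finset.sum_congr rfl fun J _ => ?_
      rw [Finset.mul_sum]
      refine Finset.sum_congr rfl fun w _ => ?_
      ring
    rw [Finset.sum_congr rfl fun I _ => h1 I]
    have h3 := row_sum hab n (fun I j => (if j = true then γ else 1) *
          ∑ J : Fin m → Bool, ∑ w : Fin m → Fin n → Bool, bw b 1 J *
            (∏ i, bw p (1 - p) (w i)) * γ ^ cnt m n I J w)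
    rw [h3]
    have h4 : ∀ I : Fin n → Bool, ∑ j : Bool, bw a 1 I * (if j = true then b else 1) *
        ((if j = true then γ else 1) * ∑ J : Fin m → Bool, ∑ w : Fin m → Fin n → Bool, bw b 1 J *
            (∏ i, bw p (1 - p) (w i)) * γ ^ cnt m n I J w) =
        (1 + b * γ) * ∑ J : Fin m → Bool, ∑ w : Fin m → Fin n → Bool,
          bw a 1 I * bw b 1 J * (∏ i, bw p (1 - p) (w i)) * γ ^ cnt m n I J w := by
      intro I
      have h5 : ∑ J : Fin m → Bool, ∑ w : Fin m → Fin n → Bool,
          bw a 1 I * bw b 1 J * (∏ i, bw p (1 - p) (w i)) * γ ^ cnt m n I J w =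
          bw a 1 I * ∑ J : Fin m → Bool, ∑ w : Fin m → Fin n → Bool,
          bw b 1 J * (∏ i, bw p (1 - p) (w i)) * γ ^ cnt m n I J w := by
        rw [Finset.mul_sum]
        refine Finset.sum_congr rfl fun J _ => ?_
        rw [Finset.mul_sum]
        refine Finset.sum_congr rfl fun w _ => ?_
        ring
      rw [h5, Fintype.sum_bool]
      simp only [if_true, Bool.false_eq_true, if_false]
      ring
    rw [Finset.sum_congr rfl fun I _ => h4 I, ← Finset.mul_sum, ih, pow_succ]
    ring

/-- number of increments before column `j` -/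
def pre {n : ℕ} (I : Fin n → Bool) (j : ℕ) : ℕ := ∑ i : Fin n, if i.val < j ∧ I i = true then 1 else 0

lemma pre_zero {n : ℕ} (I : Fin n → Bool) : pre I 0 = 0 := by simp [pre]

lemma pre_mono {n : ℕ} (I : Fin n → Bool) {j k : ℕ} (h : j ≤ k) : pre I j ≤ pre I k := by
  unfold pre
  refine Finset.sum_le_sum fun i _ => ?_
  by_cases h1 : i.val < j ∧ I i = true
  · rw [if_pos h1, if_pos ⟨h1.1.trans_le h, h1.2⟩]
  · rw [if_neg h1]; exact Nat.zero_le _

lemma pre_cons {n : ℕ} (b : Bool) (I : Fin n → Bool) (j : ℕ) :
    pre (Fin.cons b I : Fin (n + 1) → Bool) (j + 1) = (if b = true then 1 else 0) + pre I j := by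
  unfold pre
  rw [Fin.sum_univ_succ]
  simp only [Fin.val_zero, Fin.cons_zero, Fin.val_succ, Fin.cons_succ, Nat.zero_lt_succ, true_and,
    Nat.add_lt_add_iff_right]

/-- conservation and growth along a row -/
lemma row_pre (n : ℕ) : ∀ (I : Fin n → Bool) (J : Bool) (r : Fin n → Bool),
    (pre (row n I J r).1 n + (if J = true then 1 else 0) =
      pre I n + (if (row n I J r).2 = true then 1 else 0)) ∧
    (∀ j, j ≤ n → pre I j ≤ pre (row n I J r).1 j + (if J = true then 1 else 0)) ∧
    (∀ j : Fin n, r j = true → pre I j.val + 1 ≤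
      pre (row n I J r).1 (j.val + 1) + (if J = true then 1 else 0)) := by
  induction n with
  | zero =>
    intro I J r
    refine ⟨by simp [row, pre], fun j _ => by simp [row], fun j => j.elim0⟩
  | succ n ih =>
    intro I J r
    obtain ⟨i, I, rfl⟩ : ∃ i I', I = Fin.cons i I' := ⟨I 0, Fin.tail I, (Fin.cons_self_tail I).symm⟩
    obtain ⟨w, r, rfl⟩ : ∃ w r', r = Fin.cons w r' := ⟨r 0, Fin.tail r, (Fin.cons_self_tail r).symm⟩
    rw [row_cons]
    obtain ⟨h1, h2, h3⟩ := ih I (sJ i J w) r
    refine ⟨?_, ?_, ?_⟩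
    · simp only [pre_cons]
      revert h1
      generalize pre (row n I (sJ i J w) r).1 n = A
      generalize pre I n = B
      generalize (if (row n I (sJ i J w) r).2 = true then 1 else 0) = D
      intro h1
      rcases i <;> rcases J <;> rcases w <;> simp_all [sI, sJ] <;> omega
    · intro j hj
      rcases j with _ | j
      · simp [pre_zero]
      · simp only [pre_cons]
        have h4 := h2 j (by omega)
        revert h4
        generalize pre (row n I (sJ i J w) r).1 j = A
        generalize pre I j = B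
        intro h4
        rcases i <;> rcases J <;> rcases w <;> simp_all [sI, sJ] <;> omega
    · intro j hj
      refine Fin.cases ?_ (fun j => ?_) j (motive := fun j => (Fin.cons w r : Fin (n + 1) → Bool) j = true →
        pre (Fin.cons i I : Fin (n + 1) → Bool) j.val + 1 ≤
        pre (Fin.cons (sI i J w) (row n I (sJ i J w) r).1 : Fin (n + 1) → Bool) (j.val + 1) +
          (if J = true then 1 else 0)) hj
      · intro hw
        simp only [Fin.cons_zero] at hw
        simp only [Fin.val_zero, pre_zero, pre_cons]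
        subst hw
        rcases i <;> rcases J <;> simp [sI]
      · intro hw
        simp only [Fin.cons_succ] at hw
        simp only [Fin.val_succ, pre_cons]
        have h4 := h3 j hw
        revert h4
        generalize pre (row n I (sJ i J w) r).1 (j.val + 1) = A
        generalize pre I j.val = B
        intro h4
        rcases i <;> rcases J <;> rcases w <;> simp_all [sI, sJ] <;> omega

lemma chain_cnt (n : ℕ) : ∀ (m : ℕ) (I : Fin n → Bool) (J : Fin m → Bool)
    (w : Fin m → Fin n → Bool) (c j : ℕ) (f : Fin c → Fin m) (g : Fin c → Fin n),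
    StrictMono f → StrictMono g → (∀ i, w (f i) (g i) = true) → (∀ i, j ≤ (g i).val) → j ≤ n →
    pre I j + c ≤ pre I n + cnt m n I J w := by
  intro m
  induction m with
  | zero =>
    intro I J w c j f g _ _ _ _ hj
    have hc : c = 0 := by
      rcases c with _ | c
      · rfl
      · exact (f 0).elim0
    subst hc
    simp only [cnt, add_zero]
    exact pre_mono I hj
  | succ m ih =>
    intro I J w c j f g hf hg hw hgj hj
    obtain ⟨b, J, rfl⟩ : ∃ b J', J = Fin.cons b J' := ⟨J 0, Fin.tail J, (Fin.cons_self_tail J).symm⟩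
    obtain ⟨r, w, rfl⟩ : ∃ r w', w = Fin.cons r w' := ⟨w 0, Fin.tail w, (Fin.cons_self_tail w).symm⟩
    rw [cnt_cons]
    obtain ⟨h1, h2, h3⟩ := row_pre n I b r
    rcases c with _ | c
    · have h4 := ih (row n I b r).1 J w 0 j (fun i => i.elim0) (fun i => i.elim0)
        (fun i => i.elim0) (fun i => i.elim0) (fun i => i.elim0) (fun i => i.elim0) hj
      have h5 := h2 j hj
      omega
    · by_cases hf0 : f 0 = 0
      · -- the chain uses the first row
        have hpos : ∀ i : Fin c, f i.succ ≠ 0 := by
          intro i h0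
          have := hf (Fin.succ_pos i)
          rw [h0, hf0] at this
          exact lt_irrefl _ this
        have hr : r (g 0) = true := by
          have := hw 0
          rw [hf0] at this
          simpa using this
        have h4 := ih (row n I b r).1 J w c ((g 0).val + 1) (fun i => (f i.succ).pred (hpos i))
          (fun i => g i.succ) ?_ ?_ ?_ ?_ ?_
        · have h5 := h3 (g 0) hr
          have h6 := pre_mono I (hgj 0)
          omega
        · intro i k hik
          simp only [Fin.pred_lt_pred_iff]
          exact hf (Fin.succ_lt_succ_iff.2 hik)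
        · intro i k hik
          exact hg (Fin.succ_lt_succ_iff.2 hik)
        · intro i
          have h8 : (Fin.cons r w : Fin (m + 1) → Fin n → Bool)
              ((f i.succ).pred (hpos i)).succ (g i.succ) = true := by
            rw [Fin.succ_pred]; exact hw i.succ
          rwa [Fin.cons_succ] at h8
        · intro i
          have := hg (Fin.succ_pos i)
          exact this
        · exact (g 0).2
      · have hpos : ∀ i : Fin (c + 1), f i ≠ 0 := by
          intro i h0
          have h7 : f 0 ≤ f i := hf.monotone (Fin.zero_le i)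
          rw [h0] at h7
          exact hf0 (le_antisymm h7 (Fin.zero_le _))
        have h4 := ih (row n I b r).1 J w (c + 1) j (fun i => (f i).pred (hpos i)) g ?_ hg ?_ hgj hj
        · have h5 := h2 j hj
          omega
        · intro i k hik
          simp only [Fin.pred_lt_pred_iff]
          exact hf hik
        · intro i
          have h8 : (Fin.cons r w : Fin (m + 1) → Fin n → Bool)
              ((f i).pred (hpos i)).succ (g i) = true := by
            rw [Fin.succ_pred]; exact hw i
          rwa [Fin.cons_succ] at h8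

lemma bw_gamma {n : ℕ} (γ o : ℝ) (I : Fin n → Bool) : bw (γ * o) 1 I = γ ^ pre I n * bw o 1 I := by
  unfold bw pre
  have : ∀ i : Fin n, (i.val < n ∧ I i = true) ↔ I i = true := fun i => ⟨fun h => h.2, fun h => ⟨i.2, h⟩⟩
  simp only [this]
  rw [← Finset.prod_pow_eq_pow_sum, ← Finset.prod_mul_distrib]
  refine Finset.prod_congr rfl fun i _ => ?_
  by_cases h : I i = true <;> simp [h]

/-- the set of a Boolean matrix -/
def setOf' {N : ℕ} (w : Fin N → Fin N → Bool) : Finset (Fin N × Fin N) :=
  univ.filter fun s => w s.1 s.2 = true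

lemma setOf'_bij (N : ℕ) : Function.Bijective (setOf' (N := N)) := by
  constructor
  · intro w w' h
    funext i j
    have : (i, j) ∈ setOf' w ↔ (i, j) ∈ setOf' w' := by rw [h]
    simp only [setOf', mem_filter, mem_univ, true_and] at this
    rcases hw : w i j <;> rcases hw' : w' i j <;> simp_all
  · intro ω
    refine ⟨fun i j => decide ((i, j) ∈ ω), ?_⟩
    ext ⟨i, j⟩
    simp [setOf']

lemma wt_setOf' {N : ℕ} (p : ℝ) (w : Fin N → Fin N → Bool) :
    wt p (setOf' w) = ∏ i, bw p (1 - p) (w i) := by
  unfold wt bw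
  rw [← Fintype.prod_prod_type' (f := fun i j => if w i j = true then p else 1 - p)]
  rw [Finset.prod_ite, Finset.prod_const, Finset.prod_const]
  congr 2
  have h1 := Finset.card_filter_add_card_filter_not (s := (univ : Finset (Fin N × Fin N)))
    (p := fun s => w s.1 s.2 = true)
  have h2 : Fintype.card (Fin N × Fin N) = (univ : Finset (Fin N × Fin N)).card := rfl
  rw [h2]
  unfold setOf'
  omega

/-- upper tail of the longest increasing chain in a Bernoulli(`p`) subset of the `N × N` grid -/
theorem lis_tail (N a : ℕ) (p γ o : ℝ) (hp0 : 0 ≤ p) (hp1 : p ≤ 1) (hγ : 1 ≤ γ) (ho : 0 ≤ o)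
    (h : γ * o ^ 2 = p) :
    (∑ ω : Finset (Fin N × Fin N), if HasChain a ω then wt p ω else 0) * γ ^ a *
      (1 + o) ^ (2 * N) ≤ (1 + γ * o) ^ (2 * N) := by
  have hab : (γ * o) * o = p := by rw [← h]; ring
  have ht := total_sum (γ := γ) hab N N
  have hR : (1 + γ * o) ^ (2 * N) = (1 + γ * o) ^ N * (1 + o * γ) ^ N := by
    rw [two_mul, pow_add, mul_comm o γ]
  rw [hR, ← ht]
  have hS : (∑ ω : Finset (Fin N × Fin N), if HasChain a ω then wt p ω else 0) =
      ∑ w : Fin N → Fin N → Bool, if HasChain a (setOf' w) then ∏ i, bw p (1 - p) (w i) else 0 := by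
    rw [← (setOf'_bij N).sum_comp]
    refine Finset.sum_congr rfl fun w _ => ?_
    rw [wt_setOf']
  have hL : (∑ ω : Finset (Fin N × Fin N), if HasChain a ω then wt p ω else 0) * γ ^ a *
      (1 + o) ^ (2 * N) = ∑ I : Fin N → Bool, ∑ J : Fin N → Bool, ∑ w : Fin N → Fin N → Bool,
        bw o 1 I * bw o 1 J * (if HasChain a (setOf' w) then ∏ i, bw p (1 - p) (w i) else 0) *
          γ ^ a := by
    have e1 : ∀ I J : Fin N → Bool, ∑ w : Fin N → Fin N → Bool,
        bw o 1 I * bw o 1 J * (if HasChain a (setOf' w) then ∏ i, bw p (1 - p) (w i) else 0) *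
          γ ^ a = bw o 1 I * (bw o 1 J * ((∑ w : Fin N → Fin N → Bool,
            if HasChain a (setOf' w) then ∏ i, bw p (1 - p) (w i) else 0) * γ ^ a)) := by
      intro I J
      rw [Finset.sum_mul, Finset.mul_sum, Finset.mul_sum]
      refine Finset.sum_congr rfl fun w _ => ?_
      ring
    simp only [e1, ← Finset.mul_sum, ← Finset.sum_mul, sum_bw]
    rw [hS, two_mul, pow_add, add_comm o 1]
    ring
  rw [hL]
  refine Finset.sum_le_sum fun I _ => Finset.sum_le_sum fun J _ => Finset.sum_le_sum fun w _ => ?_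
  have hI := bw_nonneg ho zero_le_one I
  have hJ := bw_nonneg ho zero_le_one J
  have hP : 0 ≤ ∏ i, bw p (1 - p) (w i) :=
    Finset.prod_nonneg fun i _ => bw_nonneg hp0 (by linarith) _
  have hγ0 : (0 : ℝ) ≤ γ := by linarith
  rw [bw_gamma]
  by_cases hc : HasChain a (setOf' w)
  · rw [if_pos hc]
    obtain ⟨f, g, hf, hg, hfg⟩ := hc
    have := chain_cnt N N I J w a 0 f g hf hg (fun i => by simpa [setOf'] using hfg i)
      (fun i => Nat.zero_le _) (Nat.zero_le _)
    rw [pre_zero, zero_add] at this
    have h2 : γ ^ a ≤ γ ^ (pre I N + cnt N N I J w) := pow_le_pow_right₀ hγ this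
    calc bw o 1 I * bw o 1 J * (∏ i, bw p (1 - p) (w i)) * γ ^ a
        ≤ bw o 1 I * bw o 1 J * (∏ i, bw p (1 - p) (w i)) * γ ^ (pre I N + cnt N N I J w) :=
          mul_le_mul_of_nonneg_left h2 (by positivity)
      _ = _ := by rw [pow_add]; ring
  · rw [if_neg hc]
    have : 0 ≤ γ ^ pre I N * bw o 1 I * bw o 1 J * (∏ i, bw p (1 - p) (w i)) *
      γ ^ cnt N N I J w := by positivity
    simpa using this

end

end Pool.Agent.Helper124.SW.J1
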