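import Pool.Agent.Helper124.SWDefs

namespace Pool.Agent.Helper124.SW.J10

open Finset Classical

noncomputable section

/-- rank of `x` in `T` -/
def sc_rk {W : ℕ} (T : Finset (Fin W)) (x : Fin W) : ℕ := (T.filter (fun y => y < x)).card

theorem sc_rk_lt {W : ℕ} {T : Finset (Fin W)} {x y : Fin W} (hx : x ∈ T) (h : x < y) :
    sc_rk T x < sc_rk T y := by
  apply Finset.card_lt_card
  rw [Finset.ssubset_iff_of_subset]
  · exact ⟨x, by simp [hx, h], by simp⟩
  · intro z hz
    rw [Finset.mem_filter] at hz ⊢
    exact ⟨hz.1, hz.2.trans h⟩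

theorem sc_rk_inj {W : ℕ} {T : Finset (Fin W)} {x y : Fin W} (hx : x ∈ T) (hy : y ∈ T)
    (h : sc_rk T x = sc_rk T y) : x = y := by
  rcases lt_trichotomy x y with h1 | h1 | h1
  · exact absurd h (sc_rk_lt hx h1).ne
  · exact h1
  · exact absurd h (sc_rk_lt hy h1).ne'

theorem sc_rk_card {W : ℕ} {T : Finset (Fin W)} {x : Fin W} (hx : x ∈ T) :
    sc_rk T x < T.card := by
  apply Finset.card_lt_card
  rw [Finset.ssubset_iff_of_subset (Finset.filter_subset _ _)]
  exact ⟨x, hx, by simp⟩

/-- the determined ranks -/
def sc_K {m : ℕ} (R : Finset (Fin m)) : Finset ℕ :=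
  (univ \ R).image (fun i : Fin m => i.val + (R.filter (fun j => j < i)).card)

theorem sc_K_card {m : ℕ} (R : Finset (Fin m)) : (sc_K R).card = m - R.card := by
  unfold sc_K
  rw [Finset.card_image_of_injective, Finset.card_sdiff_of_subset (Finset.subset_univ R),
    Finset.card_univ, Fintype.card_fin]
  have hmono : StrictMono (fun i : Fin m => i.val + (R.filter (fun j => j < i)).card) := by
    intro a b hab
    have h1 : (R.filter (fun j => j < a)).card ≤ (R.filter (fun j => j < b)).card := by
      apply Finset.card_le_card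
      intro z hz
      rw [Finset.mem_filter] at hz ⊢
      exact ⟨hz.1, hz.2.trans hab⟩
    have h2 : a.val < b.val := hab
    simp only
    omega
  exact hmono.injective

theorem sc_K_sub {m : ℕ} (R : Finset (Fin m)) : sc_K R ⊆ Finset.range (m + R.card) := by
  intro k hk
  unfold sc_K at hk
  rw [Finset.mem_image] at hk
  obtain ⟨i, _, rfl⟩ := hk
  rw [Finset.mem_range]
  have h1 : (R.filter (fun j => j < i)).card ≤ R.card := Finset.card_filter_le _ _
  have := i.2
  omega

theorem sc_free {m W : ℕ} (R : Finset (Fin m)) (T : Finset (Fin W)) (hT : T.card = m + R.card) :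
    (T.filter (fun x => sc_rk T x ∉ sc_K R)).card ≤ 2 * R.card := by
  have h1 : (T.filter (fun x => sc_rk T x ∉ sc_K R)).card ≤
      (Finset.range (m + R.card) \ sc_K R).card := by
    apply Finset.card_le_card_of_injOn (sc_rk T)
    · intro x hx
      rw [Finset.mem_coe, Finset.mem_filter] at hx
      rw [Finset.mem_coe, Finset.mem_sdiff, Finset.mem_range, ← hT]
      exact ⟨sc_rk_card hx.1, hx.2⟩
    · intro x hx y hy h
      rw [Finset.mem_coe, Finset.mem_filter] at hx hy
      exact sc_rk_inj hx.1 hy.1 h
  rw [Finset.card_sdiff_of_subset (sc_K_sub R), Finset.card_range, sc_K_card] at h1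
  have h2 : R.card ≤ m := by
    have := Finset.card_le_univ R
    rwa [Fintype.card_fin] at this
  omega

/-- two increasing maps which agree outside `R` and such that the second one takes new values
on `R` -/
theorem strip_count (m W : ℕ) (R : Finset (Fin m)) :
    ((SM m W ×ˢ SM m W).filter fun p => (∀ i, i ∉ R → p.2 i = p.1 i) ∧
      ∀ i ∈ R, ∀ j, p.2 i ≠ p.1 j).card ≤ 4 ^ R.card * W.choose (m + R.card) := by
  set S : Finset (Σ _ : Finset (Fin W), Finset (Fin W)) :=
    (powersetCard (m + R.card) (univ : Finset (Fin W))).sigma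
      (fun T => (T.filter (fun x => sc_rk T x ∉ sc_K R)).powerset) with hS
  have hScard : S.card ≤ 4 ^ R.card * W.choose (m + R.card) := by
    rw [hS, Finset.card_sigma]
    calc ∑ T ∈ powersetCard (m + R.card) (univ : Finset (Fin W)),
          ((T.filter (fun x => sc_rk T x ∉ sc_K R)).powerset).card
        ≤ ∑ T ∈ powersetCard (m + R.card) (univ : Finset (Fin W)), 4 ^ R.card := by
          apply Finset.sum_le_sum
          intro T hT
          rw [Finset.card_powerset]
          have h1 := sc_free R T (Finset.mem_powersetCard.1 hT).2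
          calc 2 ^ (T.filter (fun x => sc_rk T x ∉ sc_K R)).card ≤ 2 ^ (2 * R.card) :=
                Nat.pow_le_pow_right (by norm_num) h1
            _ = 4 ^ R.card := by rw [pow_mul]; norm_num
      _ = 4 ^ R.card * W.choose (m + R.card) := by
          rw [Finset.sum_const, Finset.card_powersetCard, Finset.card_univ, Fintype.card_fin,
            smul_eq_mul, mul_comm]
  refine le_trans ?_ hScard
  have hN : ∀ p : (Fin m → Fin W) × (Fin m → Fin W), (∀ i, i ∉ R → p.2 i = p.1 i) →
      (∀ i ∈ R, ∀ j, p.2 i ≠ p.1 j) → univ.image p.2 \ univ.image p.1 = R.image p.2 := by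
    intro p h1 h2
    ext x
    simp only [Finset.mem_sdiff, Finset.mem_image, Finset.mem_univ, true_and]
    constructor
    · rintro ⟨⟨i, rfl⟩, hx⟩
      refine ⟨i, ?_, rfl⟩
      by_contra hi
      exact hx ⟨i, (h1 i hi).symm⟩
    · rintro ⟨i, hi, rfl⟩
      refine ⟨⟨i, rfl⟩, ?_⟩
      rintro ⟨j, hj⟩
      exact h2 i hi j hj.symm
  apply Finset.card_le_card_of_injOn (fun p =>
    (⟨univ.image p.1 ∪ univ.image p.2, univ.image p.2 \ univ.image p.1⟩ :
      Σ _ : Finset (Fin W), Finset (Fin W)))
  · intro p hp
    rw [Finset.mem_coe, Finset.mem_filter, Finset.mem_product] at hp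
    obtain ⟨⟨hf, hf'⟩, h1, h2⟩ := hp
    have hf : StrictMono p.1 := (Finset.mem_filter.1 hf).2
    have hf' : StrictMono p.2 := (Finset.mem_filter.1 hf').2
    have hNp := hN p h1 h2
    have hTN : univ.image p.1 ∪ univ.image p.2 = univ.image p.1 ∪ R.image p.2 := by
      rw [← hNp, Finset.union_sdiff_self_eq_union]
    have hdisj : Disjoint (univ.image p.1) (R.image p.2) := by
      rw [← hNp]
      exact Finset.disjoint_sdiff
    rw [Finset.mem_coe, hS, Finset.mem_sigma]
    simp only
    rw [hNp, hTN]
    set T := univ.image p.1 ∪ R.image p.2 with hT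
    have hrank : ∀ i, i ∉ R → sc_rk T (p.1 i) = i.val + (R.filter (fun j => j < i)).card := by
      intro i hi
      unfold sc_rk
      rw [hT, Finset.filter_union, Finset.card_union_of_disjoint
        (Finset.disjoint_filter_filter hdisj)]
      congr 1
      · rw [Finset.filter_image, Finset.card_image_of_injective _ hf.injective]
        have : (univ.filter fun a => p.1 a < p.1 i) = Finset.Iio i := by
          ext a
          simp [hf.lt_iff_lt]
        rw [this, Fin.card_Iio]
      · rw [Finset.filter_image, Finset.card_image_of_injective _ hf'.injective]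
        congr 1
        apply Finset.filter_congr
        intro a _
        rw [← h1 i hi, hf'.lt_iff_lt]
    refine ⟨?_, ?_⟩
    · rw [Finset.mem_powersetCard]
      refine ⟨Finset.subset_univ _, ?_⟩
      rw [hT, Finset.card_union_of_disjoint hdisj, Finset.card_image_of_injective _ hf.injective,
        Finset.card_image_of_injective _ hf'.injective, Finset.card_univ, Fintype.card_fin]
    · rw [Finset.mem_powerset]
      intro x hx
      have hxT : x ∈ T := Finset.mem_union_right _ hx
      rw [Finset.mem_filter]
      refine ⟨hxT, ?_⟩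
      intro hK
      unfold sc_K at hK
      rw [Finset.mem_image] at hK
      obtain ⟨i, hi, hrk⟩ := hK
      have hiR : i ∉ R := (Finset.mem_sdiff.1 hi).2
      rw [← hrank i hiR] at hrk
      have hxi := sc_rk_inj (Finset.mem_union_left _ (Finset.mem_image_of_mem _
        (Finset.mem_univ i))) hxT hrk
      rw [← hxi] at hx
      exact (Finset.disjoint_left.1 hdisj) (Finset.mem_image_of_mem _ (Finset.mem_univ i)) hx
  · intro p hp q hq hpq
    rw [Finset.mem_coe, Finset.mem_filter, Finset.mem_product] at hp hq
    obtain ⟨⟨hf, hf'⟩, h1, h2⟩ := hp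
    obtain ⟨⟨hg, hg'⟩, k1, k2⟩ := hq
    have hf : StrictMono p.1 := (Finset.mem_filter.1 hf).2
    have hf' : StrictMono p.2 := (Finset.mem_filter.1 hf').2
    have hg : StrictMono q.1 := (Finset.mem_filter.1 hg).2
    have hg' : StrictMono q.2 := (Finset.mem_filter.1 hg').2
    simp only [Sigma.mk.injEq, heq_eq_eq] at hpq
    obtain ⟨e1, e2⟩ := hpq
    have r1 : ∀ p : (Fin m → Fin W) × (Fin m → Fin W),
        (univ.image p.1 ∪ univ.image p.2) \ (univ.image p.2 \ univ.image p.1) =
          univ.image p.1 := by
      intro p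
      ext x
      simp only [Finset.mem_sdiff, Finset.mem_union]
      tauto
    have e3 : univ.image p.1 = univ.image q.1 := by
      rw [← r1 p, ← r1 q, e1, e2]
    have e4 : p.1 = q.1 := by
      apply (StrictMono.range_inj hf hg).1
      have := congrArg (fun s : Finset (Fin W) => (s : Set (Fin W))) e3
      simpa using this
    have r2 : ∀ p : (Fin m → Fin W) × (Fin m → Fin W), (∀ i, i ∉ R → p.2 i = p.1 i) →
        (∀ i ∈ R, ∀ j, p.2 i ≠ p.1 j) →
        univ.image p.2 = (univ.image p.2 \ univ.image p.1) ∪ (univ \ R).image p.1 := by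
      intro p h1 h2
      rw [hN p h1 h2]
      ext x
      simp only [Finset.mem_union, Finset.mem_image, Finset.mem_univ, true_and, Finset.mem_sdiff]
      constructor
      · rintro ⟨i, rfl⟩
        by_cases hi : i ∈ R
        · exact Or.inl ⟨i, hi, rfl⟩
        · exact Or.inr ⟨i, hi, (h1 i hi).symm⟩
      · rintro (⟨i, _, rfl⟩ | ⟨i, hi, rfl⟩)
        · exact ⟨i, rfl⟩
        · exact ⟨i, h1 i hi⟩
    have e5 : univ.image p.2 = univ.image q.2 := by
      rw [r2 p h1 h2, r2 q k1 k2, e2, e4]
    have e6 : p.2 = q.2 := by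
      apply (StrictMono.range_inj hf' hg').1
      have := congrArg (fun s : Finset (Fin W) => (s : Set (Fin W))) e5
      simpa using this
    exact Prod.ext e4 e6

end

end Pool.Agent.Helper124.SW.J10
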