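import Pool.Agent.Helper124.SWDefs

namespace Pool.Agent.Helper124.SW.J11

open Finset Classical

noncomputable section

/-- slices of a set of cells -/
def rowS {m : ℕ} (R : Finset (Fin m × Fin m)) (s : Fin m) : Finset (Fin m) :=
  univ.filter fun t => (s, t) ∈ R

/-- slices of a set of cells -/
def colS {m : ℕ} (R : Finset (Fin m × Fin m)) (t : Fin m) : Finset (Fin m) :=
  univ.filter fun s => (s, t) ∈ R

theorem sum_rowS {m : ℕ} (R : Finset (Fin m × Fin m)) : ∑ s, (rowS R s).card = R.card := by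
  have h1 : ∀ s, (rowS R s).card = ∑ t, if (s, t) ∈ R then 1 else 0 := fun s => by
    rw [rowS, Finset.card_filter]
  simp only [h1]
  rw [← Fintype.sum_prod_type' (fun s t => if (s, t) ∈ R then 1 else 0)]
  simp

theorem sum_colS {m : ℕ} (R : Finset (Fin m × Fin m)) : ∑ t, (colS R t).card = R.card := by
  have h1 : ∀ t, (colS R t).card = ∑ s, if (s, t) ∈ R then 1 else 0 := fun s => by
    rw [colS, Finset.card_filter]
  simp only [h1]
  rw [Finset.sum_comm, ← Fintype.sum_prod_type' (fun s t => if (s, t) ∈ R then 1 else 0)]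
  simp

theorem choose_le_SM (m W : ℕ) : W.choose m ≤ (SM m W).card := by
  have h : ((univ : Finset (Fin W)).powersetCard m).card ≤ (SM m W).card := by
    refine Finset.card_le_card_of_surjOn (fun g => univ.image g) ?_
    intro S hS
    rw [Finset.mem_coe, Finset.mem_powersetCard] at hS
    refine ⟨S.orderEmbOfFin hS.2, ?_, ?_⟩
    · rw [Finset.mem_coe, SM, Finset.mem_filter]
      exact ⟨Finset.mem_univ _, (S.orderEmbOfFin hS.2).strictMono⟩
    · simp
  rwa [Finset.card_powersetCard, Finset.card_univ, Fintype.card_fin] at h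

theorem choose_step (m W j : ℕ) (hm : 1 ≤ m) :
    (W.choose (m + j) : ℝ) ≤ (W.choose m : ℝ) * ((W : ℝ) / m) ^ j := by
  have hm0 : (0 : ℝ) < m := by exact_mod_cast hm
  induction j with
  | zero => simp
  | succ j ih =>
    have h := Nat.choose_succ_right_eq W (m + j)
    have h2 : (W.choose (m + (j + 1)) : ℝ) * m ≤ (W.choose (m + j) : ℝ) * W := by
      have h3 : W.choose (m + (j + 1)) * m ≤ W.choose (m + j) * W := by
        calc W.choose (m + (j + 1)) * m ≤ W.choose (m + j + 1) * (m + j + 1) :=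
              Nat.mul_le_mul_left _ (by omega)
          _ = W.choose (m + j) * (W - (m + j)) := h
          _ ≤ W.choose (m + j) * W := Nat.mul_le_mul_left _ (by omega)
      exact_mod_cast h3
    rw [← le_div_iff₀ hm0] at h2
    calc (W.choose (m + (j + 1)) : ℝ) ≤ (W.choose (m + j) : ℝ) * W / m := h2
      _ = (W.choose (m + j) : ℝ) * (W / m) := by ring
      _ ≤ ((W.choose m : ℝ) * ((W : ℝ) / m) ^ j) * (W / m) :=
        mul_le_mul_of_nonneg_right ih (by positivity)
      _ = _ := by ring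

/-- the strip pairs -/
def SP (m W : ℕ) (R : Finset (Fin m)) : Finset ((Fin m → Fin W) × (Fin m → Fin W)) :=
  (SM m W ×ˢ SM m W).filter fun p => (∀ i, i ∉ R → p.2 i = p.1 i) ∧
      ∀ i ∈ R, ∀ j, p.2 i ≠ p.1 j

/-- all the pairs with moved set `R` -/
def NP (m W : ℕ) (R : Finset (Fin m × Fin m)) :=
  ((ZZ m W) ×ˢ (univ : Finset ((Fin m → Fin m → Fin W) × (Fin m → Fin m → Fin W)))).filter
    fun zz => AltZ zz.1 zz.2 ∧ mvz zz.1.1 zz.2.1 = R

theorem NP_card (m W : ℕ) (R : Finset (Fin m × Fin m)) :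
    (NP m W R).card ≤ (∏ s, (SP m W (rowS R s)).card) * ∏ t, (SP m W (colS R t)).card := by
  rw [← Fintype.card_piFinset, ← Fintype.card_piFinset, ← Finset.card_product]
  refine Finset.card_le_card_of_injOn
    (fun zz => ((fun s => (zz.1.1 s, zz.2.1 s)), (fun t => (zz.1.2 t, zz.2.2 t)))) ?_ ?_
  · intro zz hzz
    rw [Finset.mem_coe, NP, Finset.mem_filter, Finset.mem_product, ZZ, Finset.mem_product,
      Fintype.mem_piFinset, Fintype.mem_piFinset] at hzz
    obtain ⟨⟨⟨hU, hV⟩, -⟩, ⟨hU', hV', hA⟩, hR⟩ := hzz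
    have hRm : ∀ s t, (s, t) ∈ R ↔ zz.2.1 s t ≠ zz.1.1 s t := by
      intro s t
      rw [← hR, mvz, Finset.mem_filter]
      simp
    rw [Finset.mem_coe, Finset.mem_product, Fintype.mem_piFinset, Fintype.mem_piFinset]
    constructor
    · intro s
      rw [SP, Finset.mem_filter, Finset.mem_product]
      refine ⟨⟨hU s, ?_⟩, ?_, ?_⟩
      · rw [SM, Finset.mem_filter]; exact ⟨Finset.mem_univ _, hU' s⟩
      · intro t ht
        rw [rowS, Finset.mem_filter] at ht
        by_contra hcon
        exact ht ⟨Finset.mem_univ _, (hRm s t).2 hcon⟩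
      · intro t ht t'
        rw [rowS, Finset.mem_filter, hRm] at ht
        have := hA s t
        rw [if_neg ht.2] at this
        exact this.1 t'
    · intro t
      rw [SP, Finset.mem_filter, Finset.mem_product]
      refine ⟨⟨hV t, ?_⟩, ?_, ?_⟩
      · rw [SM, Finset.mem_filter]; exact ⟨Finset.mem_univ _, hV' t⟩
      · intro s hs
        rw [colS, Finset.mem_filter, hRm] at hs
        have h1 : zz.2.1 s t = zz.1.1 s t := by
          by_contra hcon
          exact hs ⟨Finset.mem_univ _, hcon⟩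
        have := hA s t
        rw [if_pos h1] at this
        exact this
      · intro s hs s'
        rw [colS, Finset.mem_filter, hRm] at hs
        have := hA s t
        rw [if_neg hs.2] at this
        exact this.2 s'
  · intro z _ w _ h
    simp only [Prod.mk.injEq] at h
    obtain ⟨h1, h2⟩ := h
    have a1 : z.1.1 = w.1.1 := by
      funext s; exact (Prod.mk.injEq _ _ _ _ ▸ congrFun h1 s).1
    have a2 : z.2.1 = w.2.1 := by
      funext s; exact (Prod.mk.injEq _ _ _ _ ▸ congrFun h1 s).2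
    have a3 : z.1.2 = w.1.2 := by
      funext s; exact (Prod.mk.injEq _ _ _ _ ▸ congrFun h2 s).1
    have a4 : z.2.2 = w.2.2 := by
      funext s; exact (Prod.mk.injEq _ _ _ _ ▸ congrFun h2 s).2
    exact Prod.ext (Prod.ext a1 a3) (Prod.ext a2 a4)

theorem prod_bound (m W : ℕ) (hm : 1 ≤ m) (F : Fin m → Finset (Fin m)) (r : ℕ)
    (hr : ∑ s, (F s).card = r)
    (hstrip : ∀ R : Finset (Fin m), (SP m W R).card ≤ 4 ^ R.card * W.choose (m + R.card)) :
    ((∏ s, (SP m W (F s)).card : ℕ) : ℝ) ≤ ((SM m W).card : ℝ) ^ m * (4 * ((W : ℝ) / m)) ^ r := by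
  rw [Nat.cast_prod]
  calc ∏ s, ((SP m W (F s)).card : ℝ)
      ≤ ∏ s : Fin m, (((SM m W).card : ℝ) * (4 * ((W : ℝ) / m)) ^ (F s).card) := by
        refine Finset.prod_le_prod (fun s _ => by positivity) fun s _ => ?_
        have h1 : ((SP m W (F s)).card : ℝ) ≤ 4 ^ (F s).card * (W.choose (m + (F s).card) : ℝ) := by
          exact_mod_cast hstrip (F s)
        have h2 := choose_step m W (F s).card hm
        have h3 : (W.choose m : ℝ) ≤ ((SM m W).card : ℝ) := by
          exact_mod_cast choose_le_SM m W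
        calc ((SP m W (F s)).card : ℝ) ≤ 4 ^ (F s).card * (W.choose (m + (F s).card) : ℝ) := h1
          _ ≤ 4 ^ (F s).card * ((W.choose m : ℝ) * ((W : ℝ) / m) ^ (F s).card) :=
            mul_le_mul_of_nonneg_left h2 (by positivity)
          _ ≤ 4 ^ (F s).card * (((SM m W).card : ℝ) * ((W : ℝ) / m) ^ (F s).card) := by
            apply mul_le_mul_of_nonneg_left _ (by positivity)
            exact mul_le_mul_of_nonneg_right h3 (by positivity)
          _ = _ := by rw [mul_pow]; ring
    _ = _ := by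
      rw [Finset.prod_mul_distrib, Finset.prod_const, Finset.card_univ, Fintype.card_fin,
        Finset.prod_pow_eq_pow_sum, hr]

theorem NP_bound (m W : ℕ) (hm : 1 ≤ m) (R : Finset (Fin m × Fin m))
    (hstrip : ∀ R : Finset (Fin m), (SP m W R).card ≤ 4 ^ R.card * W.choose (m + R.card)) :
    ((NP m W R).card : ℝ) ≤ ((ZZ m W).card : ℝ) * (16 * ((W : ℝ) / m) ^ 2) ^ R.card := by
  have h1 : ((NP m W R).card : ℝ) ≤ ((∏ s, (SP m W (rowS R s)).card : ℕ) : ℝ) *
      ((∏ t, (SP m W (colS R t)).card : ℕ) : ℝ) := by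
    exact_mod_cast NP_card m W R
  refine h1.trans ?_
  have hz : ((ZZ m W).card : ℝ) = ((SM m W).card : ℝ) ^ m * ((SM m W).card : ℝ) ^ m := by
    rw [ZZ, Finset.card_product, Fintype.card_piFinset]
    simp
  calc _ ≤ (((SM m W).card : ℝ) ^ m * (4 * ((W : ℝ) / m)) ^ R.card) *
        (((SM m W).card : ℝ) ^ m * (4 * ((W : ℝ) / m)) ^ R.card) :=
        mul_le_mul (prod_bound m W hm _ _ (sum_rowS R) hstrip)
          (prod_bound m W hm _ _ (sum_colS R) hstrip) (by positivity) (by positivity)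
    _ = _ := by
      rw [hz]
      have : (16 * ((W : ℝ) / m) ^ 2) = (4 * ((W : ℝ) / m)) * (4 * ((W : ℝ) / m)) := by ring
      rw [this, mul_pow (4 * ((W : ℝ) / m))]
      ring

theorem geo_bound (y : ℝ) (h0 : 0 ≤ y) (h1 : y ≤ 1 / 2) (n : ℕ) :
    ∑ j ∈ Finset.Ico 3 n, y ^ j ≤ 2 * y ^ 3 := by
  rw [Finset.sum_Ico_eq_sum_range]
  calc ∑ k ∈ Finset.range (n - 3), y ^ (3 + k) = y ^ 3 * ∑ k ∈ Finset.range (n - 3), y ^ k := by
        rw [Finset.mul_sum]
        exact Finset.sum_congr rfl fun k _ => pow_add _ _ _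
    _ ≤ y ^ 3 * ∑ k ∈ Finset.range (n - 3), (1 / 2 : ℝ) ^ k := by
        apply mul_le_mul_of_nonneg_left _ (by positivity)
        exact Finset.sum_le_sum fun k _ => pow_le_pow_left₀ h0 h1 k
    _ ≤ y ^ 3 * 2 := mul_le_mul_of_nonneg_left (sum_geometric_two_le _) (by positivity)
    _ = _ := by ring

theorem conn_count (m : ℕ) (hconn : ∀ (j : ℕ) (c₀ : Fin m × Fin m),
      (univ.filter fun R : Finset (Fin m × Fin m) => Conn R ∧ c₀ ∈ R ∧ R.card = j).card ≤ 32 ^ j)
    (j : ℕ) (hj : 3 ≤ j) :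
    (univ.filter fun R : Finset (Fin m × Fin m) => Conn R ∧ R.card = j).card
      ≤ m * m * 32 ^ j := by
  have hsub : (univ.filter fun R : Finset (Fin m × Fin m) => Conn R ∧ R.card = j) ⊆
      (univ : Finset (Fin m × Fin m)).biUnion fun c₀ =>
        univ.filter fun R : Finset (Fin m × Fin m) => Conn R ∧ c₀ ∈ R ∧ R.card = j := by
    intro R hR
    rw [Finset.mem_filter] at hR
    have hne : R.Nonempty := by
      rw [← Finset.card_pos]; omega
    obtain ⟨c, hc⟩ := hne
    rw [Finset.mem_biUnion]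
    refine ⟨c, Finset.mem_univ _, ?_⟩
    rw [Finset.mem_filter]
    exact ⟨Finset.mem_univ _, hR.2.1, hc, hR.2.2⟩
  refine (Finset.card_le_card hsub).trans ?_
  refine Finset.card_biUnion_le.trans ?_
  calc _ ≤ ∑ _c : Fin m × Fin m, 32 ^ j := Finset.sum_le_sum fun c _ => hconn j c
    _ = _ := by simp

/-- average number of large connected alternatives -/
theorem T3_avg (m W : ℕ) (hm : 1 ≤ m) (hW : m ≤ W) (p : ℝ) (hp : 0 ≤ p)
    (hx : 512 * (p * ((W : ℝ) / m) ^ 2) ≤ 1 / 2)
    (hconn : ∀ (j : ℕ) (c₀ : Fin m × Fin m),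
      (univ.filter fun R : Finset (Fin m × Fin m) => Conn R ∧ c₀ ∈ R ∧ R.card = j).card ≤ 32 ^ j)
    (hstrip : ∀ R : Finset (Fin m), ((SM m W ×ˢ SM m W).filter fun p => (∀ i, i ∉ R → p.2 i = p.1 i) ∧
      ∀ i ∈ R, ∀ j, p.2 i ≠ p.1 j).card ≤ 4 ^ R.card * W.choose (m + R.card)) :
    ∑ z ∈ ZZ m W, T3 p z ≤
      (ZZ m W).card * ((m * m : ℝ) * (2 * (512 * (p * ((W : ℝ) / m) ^ 2)) ^ 3)) := by
  have hstrip' : ∀ R : Finset (Fin m), (SP m W R).card ≤ 4 ^ R.card * W.choose (m + R.card) :=
    hstrip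
  set x : ℝ := p * ((W : ℝ) / m) ^ 2 with hxdef
  have x0 : 0 ≤ x := by positivity
  let CR : Finset (Finset (Fin m × Fin m)) := univ.filter fun R => Conn R ∧ 3 ≤ R.card
  have e1 : ∑ z ∈ ZZ m W, T3 p z = ∑ R ∈ CR, ((NP m W R).card : ℝ) * p ^ R.card := by
    have h1 : ∑ z ∈ ZZ m W, T3 p z = ∑ zz ∈ (((ZZ m W) ×ˢ
        (univ : Finset ((Fin m → Fin m → Fin W) × (Fin m → Fin m → Fin W)))).filter
        fun zz => AltZ zz.1 zz.2 ∧ Conn (mvz zz.1.1 zz.2.1) ∧ 3 ≤ (mvz zz.1.1 zz.2.1).card),
        p ^ (mvz zz.1.1 zz.2.1).card := by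
      rw [Finset.sum_filter, Finset.sum_product]
      rfl
    rw [h1, ← Finset.sum_fiberwise_of_maps_to (t := CR) (g := fun zz => mvz zz.1.1 zz.2.1)]
    · refine Finset.sum_congr rfl fun R hR => ?_
      have h2 : ((((ZZ m W) ×ˢ
        (univ : Finset ((Fin m → Fin m → Fin W) × (Fin m → Fin m → Fin W)))).filter
        fun zz => AltZ zz.1 zz.2 ∧ Conn (mvz zz.1.1 zz.2.1) ∧ 3 ≤ (mvz zz.1.1 zz.2.1).card).filter
          fun zz => mvz zz.1.1 zz.2.1 = R) = NP m W R := by
        rw [NP, Finset.filter_filter]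
        refine Finset.filter_congr fun zz _ => ?_
        simp only [CR, Finset.mem_filter] at hR
        constructor
        · rintro ⟨⟨a, -, -⟩, b⟩; exact ⟨a, b⟩
        · rintro ⟨a, b⟩
          refine ⟨⟨a, ?_, ?_⟩, b⟩
          · rw [b]; exact hR.2.1
          · rw [b]; exact hR.2.2
      rw [h2, ← nsmul_eq_mul, ← Finset.sum_const]
      refine Finset.sum_congr rfl fun zz hzz => ?_
      rw [NP, Finset.mem_filter] at hzz
      rw [hzz.2.2]
    · intro zz hzz
      rw [Finset.mem_filter] at hzz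
      simp only [CR, Finset.mem_filter]
      exact ⟨Finset.mem_univ _, hzz.2.2⟩
  have e2 : ∑ R ∈ CR, ((NP m W R).card : ℝ) * p ^ R.card ≤
      ((ZZ m W).card : ℝ) * ∑ R ∈ CR, (16 * x) ^ R.card := by
    rw [Finset.mul_sum]
    refine Finset.sum_le_sum fun R _ => ?_
    calc ((NP m W R).card : ℝ) * p ^ R.card
        ≤ (((ZZ m W).card : ℝ) * (16 * ((W : ℝ) / m) ^ 2) ^ R.card) * p ^ R.card :=
          mul_le_mul_of_nonneg_right (NP_bound m W hm R hstrip') (by positivity)
      _ = _ := by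
        rw [mul_assoc, ← mul_pow, hxdef]
        congr 2
        ring
  have e3 : ∑ R ∈ CR, (16 * x) ^ R.card ≤ (m * m : ℝ) * (2 * (512 * x) ^ 3) := by
    rw [← Finset.sum_fiberwise_of_maps_to (t := Finset.Ico 3 (m * m + 1)) (g := fun R => R.card)]
    · calc ∑ j ∈ Finset.Ico 3 (m * m + 1), ∑ R ∈ CR.filter (fun R => R.card = j),
            (16 * x) ^ R.card ≤ ∑ j ∈ Finset.Ico 3 (m * m + 1), (m * m : ℝ) * (512 * x) ^ j := by
            refine Finset.sum_le_sum fun j hj => ?_
            rw [Finset.mem_Ico] at hj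
            have h1 : ∑ R ∈ CR.filter (fun R => R.card = j), (16 * x) ^ R.card =
                ((CR.filter (fun R => R.card = j)).card : ℝ) * (16 * x) ^ j := by
              rw [← nsmul_eq_mul, ← Finset.sum_const]
              refine Finset.sum_congr rfl fun R hR => ?_
              rw [Finset.mem_filter] at hR
              rw [hR.2]
            have h2 : ((CR.filter (fun R => R.card = j)).card : ℝ) ≤ (m * m : ℝ) * 32 ^ j := by
              have h3 : (CR.filter (fun R => R.card = j)).card ≤ m * m * 32 ^ j := by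
                refine le_trans (Finset.card_le_card ?_) (conn_count m hconn j hj.1)
                intro R hR
                simp only [CR, Finset.mem_filter] at hR ⊢
                exact ⟨Finset.mem_univ _, hR.1.2.1, hR.2⟩
              exact_mod_cast h3
            rw [h1]
            calc ((CR.filter (fun R => R.card = j)).card : ℝ) * (16 * x) ^ j
                ≤ ((m * m : ℝ) * 32 ^ j) * (16 * x) ^ j :=
                  mul_le_mul_of_nonneg_right h2 (by positivity)
              _ = (m * m : ℝ) * (512 * x) ^ j := by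
                rw [mul_assoc, ← mul_pow]
                congr 2
                ring
        _ = (m * m : ℝ) * ∑ j ∈ Finset.Ico 3 (m * m + 1), (512 * x) ^ j := by
            rw [Finset.mul_sum]
        _ ≤ _ := mul_le_mul_of_nonneg_left (geo_bound _ (by positivity) hx _) (by positivity)
    · intro R hR
      simp only [CR, Finset.mem_filter] at hR
      rw [Finset.mem_Ico]
      refine ⟨hR.2.2, ?_⟩
      have := Finset.card_le_univ R
      rw [Fintype.card_prod, Fintype.card_fin] at this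
      omega
  rw [e1]
  exact e2.trans (mul_le_mul_of_nonneg_left e3 (by positivity))

end

end Pool.Agent.Helper124.SW.J11
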