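import Pool.Agent.Helper124.SWDefs

namespace Pool.Agent.Helper124.SW.J12a

open Finset Classical

noncomputable section

/-- the `i`-th gap of `f` -/
def V1G {m W : ℕ} (f : Fin m → Fin W) (i : ℕ) : Finset (Fin W) :=
  univ.filter fun u : Fin W => (∀ j : Fin m, j.val < i → f j < u) ∧
    (∀ j : Fin m, i ≤ j.val → u < f j)

lemma V1G_of {m W : ℕ} (f g : Fin m → Fin W) (hg : StrictMono g) (t : Fin m)
    (h : ∀ j, j ≠ t → g j = f j) (hlt : g t < f t) : g t ∈ V1G f t := by
  rw [V1G, mem_filter]
  refine ⟨mem_univ _, ?_, ?_⟩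
  · intro j hj
    have hj' : j < t := hj
    rw [← h j (ne_of_lt hj')]
    exact hg hj'
  · intro j hj
    rcases eq_or_lt_of_le hj with h1 | h1
    · have : t = j := Fin.ext h1
      rw [← this]; exact hlt
    · have hj' : t < j := h1
      rw [← h j (ne_of_gt hj')]
      exact hg hj'

lemma V1G_of' {m W : ℕ} (f g : Fin m → Fin W) (hg : StrictMono g) (t : Fin m)
    (h : ∀ j, j ≠ t → g j = f j) (hlt : f t < g t) : g t ∈ V1G f (t + 1) := by
  rw [V1G, mem_filter]
  refine ⟨mem_univ _, ?_, ?_⟩
  · intro j hj
    rcases eq_or_lt_of_le (Nat.lt_succ_iff.mp hj) with h1 | h1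
    · have : j = t := Fin.ext h1
      rw [this]; exact hlt
    · have hj' : j < t := h1
      rw [← h j (ne_of_lt hj')]
      exact hg hj'
  · intro j hj
    have hj' : t < j := hj
    rw [← h j (ne_of_gt hj')]
    exact hg hj'

/-- number of single violating moves -/
theorem card_V1 {m W : ℕ} (U V : Fin m → Fin m → Fin W) (L : Fin m → Fin m → Bool)
    (hU : ∀ s, StrictMono (U s)) (hV : ∀ t, StrictMono (V t)) :
    (V1 (mk U V L)).card ≤ ∑ s : Fin m, ∑ t : Fin m,
      (gap (U s) t + if L s t = true then gap (U s) t + gap (U s) (t + 1) else 0) *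
        (gap (V t) s + gap (V t) (s + 1)) := by
  let A : Fin m × Fin m → Finset (Fin W × Bool) := fun c =>
    (V1G (U c.1) c.2 ×ˢ {false}) ∪
      (if L c.1 c.2 = true then (V1G (U c.1) c.2 ×ˢ {true}) ∪ (V1G (U c.1) (c.2 + 1) ×ˢ {false})
        else ∅)
  let B : Fin m × Fin m → Finset (Fin W) := fun c => V1G (V c.2) c.1 ∪ V1G (V c.2) (c.1 + 1)
  let Φ : Fin m × Fin m → (Fin W × Bool) × Fin W → Plc m W := fun c x s' t' =>
    if s' = c.1 ∧ t' = c.2 then (x.1.1, x.2, x.1.2) else mk U V L s' t'
  have hsub : V1 (mk U V L) ⊆ univ.biUnion fun c => (A c ×ˢ B c).image (Φ c) := by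
    intro q' hq'
    rw [V1, mem_filter] at hq'
    obtain ⟨-, hval, hgp, c, hmv, hkl⟩ := hq'
    obtain ⟨s, t⟩ := c
    have hcm : (s, t) ∈ mv (mk U V L) q' := by rw [hmv]; exact mem_singleton_self _
    have hgp' := hgp _ hcm
    have hsame : ∀ s' t', (s', t') ≠ (s, t) → q' s' t' = mk U V L s' t' := by
      intro s' t' hne
      by_contra hcon
      have : (s', t') ∈ mv (mk U V L) q' := by
        rw [mv, mem_filter]
        exact ⟨mem_univ _, hcon⟩
      rw [hmv, mem_singleton] at this
      exact hne this
    have hcol : ∀ j, j ≠ t → (fun t => (q' s t).1) j = U s j := by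
      intro j hj
      have : q' s j = mk U V L s j := hsame s j (fun h => hj (congrArg Prod.snd h))
      simp only [this, mk]
    have hrow : ∀ j, j ≠ s → (fun s => (q' s t).2.1) j = V t j := by
      intro j hj
      have : q' j t = mk U V L j t := hsame j t (fun h => hj (congrArg Prod.fst h))
      simp only [this, mk]
    have hu := hval.1 s
    have hv := hval.2 t
    have hune : (q' s t).1 ≠ U s t := hgp'.1 t
    have hvne : (q' s t).2.1 ≠ V t s := hgp'.2 s
    have hB : (q' s t).2.1 ∈ B (s, t) := by
      rcases lt_or_gt_of_ne hvne with h | h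
      · exact mem_union_left _ (V1G_of (V t) _ hv s hrow h)
      · exact mem_union_right _ (V1G_of' (V t) _ hv s hrow h)
    have hA : ((q' s t).1, (q' s t).2.2) ∈ A (s, t) := by
      have hkl' : ((q' s t).2.2 = false ∧ L s t = true) ∨
          ((q' s t).2.2 = L s t ∧ (q' s t).1 < U s t) := hkl
      simp only [A, mem_union, mem_product, mem_singleton]
      rcases hkl' with ⟨h1, h2⟩ | ⟨h1, h2⟩
      · rcases lt_or_gt_of_ne hune with h | h
        · left
          exact ⟨V1G_of (U s) _ hu t hcol h, h1⟩
        · right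
          rw [if_pos h2]
          rw [mem_union, mem_product, mem_product, mem_singleton, mem_singleton]
          right
          exact ⟨V1G_of' (U s) _ hu t hcol h, h1⟩
      · have h3 := V1G_of (U s) _ hu t hcol h2
        cases hL : L s t with
        | false =>
          left
          exact ⟨h3, by rw [h1, hL]⟩
        | true =>
          right
          rw [if_pos rfl]
          rw [mem_union, mem_product, mem_product, mem_singleton, mem_singleton]
          left
          exact ⟨h3, by rw [h1, hL]⟩
    rw [mem_biUnion]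
    refine ⟨(s, t), mem_univ _, ?_⟩
    rw [mem_image]
    refine ⟨(((q' s t).1, (q' s t).2.2), (q' s t).2.1), ?_, ?_⟩
    · rw [mem_product]
      exact ⟨hA, hB⟩
    · funext s' t'
      by_cases hc : s' = s ∧ t' = t
      · obtain ⟨rfl, rfl⟩ := hc
        simp only [Φ, and_self, if_true]
      · simp only [Φ, if_neg hc]
        symm
        apply hsame
        intro h
        exact hc ⟨congrArg Prod.fst h, congrArg Prod.snd h⟩
  have hAc : ∀ c, (A c).card ≤ gap (U c.1) c.2 +
      if L c.1 c.2 = true then gap (U c.1) c.2 + gap (U c.1) (c.2 + 1) else 0 := by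
    intro c
    refine (card_union_le _ _).trans ?_
    refine Nat.add_le_add ?_ ?_
    · rw [card_product, card_singleton, mul_one]
      exact le_rfl
    · split_ifs
      · refine (card_union_le _ _).trans ?_
        rw [card_product, card_singleton, mul_one, card_product, card_singleton, mul_one]
        exact le_rfl
      · simp
  have hBc : ∀ c, (B c).card ≤ gap (V c.2) c.1 + gap (V c.2) (c.1 + 1) := by
    intro c
    exact card_union_le _ _
  refine (card_le_card hsub).trans ?_
  refine card_biUnion_le.trans ?_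
  rw [← Finset.univ_product_univ, Finset.sum_product]
  refine Finset.sum_le_sum fun s _ => Finset.sum_le_sum fun t _ => ?_
  refine card_image_le.trans ?_
  rw [card_product]
  exact Nat.mul_le_mul (hAc (s, t)) (hBc (s, t))

end

end Pool.Agent.Helper124.SW.J12a
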