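import Pool.Agent.Helper124.SWDefs

namespace Pool.Agent.Helper124.SW.J12b

open Finset Classical

noncomputable section

/-- the gap as a set -/
def gs {m W : ℕ} (f : Fin m → Fin W) (i : ℕ) : Finset (Fin W) :=
  univ.filter fun u : Fin W => (∀ j : Fin m, j.val < i → f j < u) ∧
    (∀ j : Fin m, i ≤ j.val → u < f j)

theorem gs_card {m W : ℕ} (f : Fin m → Fin W) (i : ℕ) : (gs f i).card = gap f i := rfl

theorem mem_gs {m W : ℕ} {f : Fin m → Fin W} {i : ℕ} {u : Fin W} :
    u ∈ gs f i ↔ (∀ j : Fin m, j.val < i → f j < u) ∧ (∀ j : Fin m, i ≤ j.val → u < f j) := by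
  simp [gs]

theorem gs_cases {m W : ℕ} {f : Fin m → Fin W} (t : Fin m) {u : Fin W}
    (h1 : ∀ j, j < t → f j < u) (h2 : ∀ j, t < j → u < f j) :
    (u < f t → u ∈ gs f t) ∧ (f t < u → u ∈ gs f (t + 1)) := by
  refine ⟨fun h => mem_gs.2 ⟨fun j hj => h1 j hj, fun j hj => ?_⟩,
    fun h => mem_gs.2 ⟨fun j hj => ?_, fun j hj => h2 j ?_⟩⟩
  · rcases eq_or_lt_of_le (show t ≤ j from hj) with h' | h'
    · rw [← h']; exact h
    · exact h2 j h'
  · rcases eq_or_lt_of_le (show j ≤ t from Nat.lt_succ_iff.1 hj) with h' | h'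
    · rw [h']; exact h
    · exact h1 j h'
  · exact hj

/-- labelled columns with key smaller than `(l, f t)` -/
def Bs {m W : ℕ} (f : Fin m → Fin W) (t : Fin m) (l : Bool) : Finset (Fin W × Bool) :=
  (gs f t ×ˢ {l}) ∪ (if l = true then (gs f t ∪ gs f (t + 1)) ×ˢ {false} else ∅)

/-- labelled columns with key larger than `(l, f t)` -/
def Cs {m W : ℕ} (f : Fin m → Fin W) (t : Fin m) (l : Bool) : Finset (Fin W × Bool) :=
  (gs f (t + 1) ×ˢ {l}) ∪ (if l = true then ∅ else (gs f t ∪ gs f (t + 1)) ×ˢ {true})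

theorem Bs_card {m W : ℕ} (f : Fin m → Fin W) (t : Fin m) (l : Bool) :
    (Bs f t l).card ≤ gap f t + if l = true then gap f t + gap f (t + 1) else 0 := by
  unfold Bs
  refine (card_union_le _ _).trans (add_le_add ?_ ?_)
  · rw [card_product, card_singleton, mul_one]; exact le_rfl
  · split_ifs
    · rw [card_product, card_singleton, mul_one]; exact card_union_le _ _
    · simp

theorem Cs_card {m W : ℕ} (f : Fin m → Fin W) (t : Fin m) (l : Bool) :
    (Cs f t l).card ≤ gap f (t + 1) + if l = true then 0 else gap f t + gap f (t + 1) := by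
  unfold Cs
  refine (card_union_le _ _).trans (add_le_add ?_ ?_)
  · rw [card_product, card_singleton, mul_one]; exact le_rfl
  · split_ifs
    · simp
    · rw [card_product, card_singleton, mul_one]; exact card_union_le _ _

theorem mem_Bs {m W : ℕ} {f : Fin m → Fin W} {t : Fin m} {l : Bool} {u : Fin W} {l' : Bool}
    (h1 : ∀ j, j < t → f j < u) (h2 : ∀ j, t < j → u < f j) (hne : u ≠ f t)
    (hk : (l' = false ∧ l = true) ∨ (l' = l ∧ u < f t)) : (u, l') ∈ Bs f t l := by
  obtain ⟨c1, c2⟩ := gs_cases t h1 h2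
  unfold Bs
  rw [mem_union]
  rcases hk with ⟨h, h'⟩ | ⟨h, h'⟩
  · right
    rw [if_pos h', mem_product, mem_union]
    refine ⟨?_, by simp [h]⟩
    rcases lt_or_gt_of_ne hne with h3 | h3
    · exact Or.inl (c1 h3)
    · exact Or.inr (c2 h3)
  · left
    rw [mem_product]
    exact ⟨c1 h', by simp [h]⟩

theorem mem_Cs {m W : ℕ} {f : Fin m → Fin W} {t : Fin m} {l : Bool} {u : Fin W} {l' : Bool}
    (h1 : ∀ j, j < t → f j < u) (h2 : ∀ j, t < j → u < f j) (hne : u ≠ f t)
    (hk : (l = false ∧ l' = true) ∨ (l = l' ∧ f t < u)) : (u, l') ∈ Cs f t l := by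
  obtain ⟨c1, c2⟩ := gs_cases t h1 h2
  unfold Cs
  rw [mem_union]
  rcases hk with ⟨h, h'⟩ | ⟨h, h'⟩
  · right
    have : ¬ (l = true) := by rw [h]; simp
    rw [if_neg this, mem_product, mem_union]
    refine ⟨?_, by simp [h']⟩
    rcases lt_or_gt_of_ne hne with h3 | h3
    · exact Or.inl (c1 h3)
    · exact Or.inr (c2 h3)
  · left
    rw [mem_product]
    exact ⟨c2 h', by simp [h]⟩

theorem pair_inj {W : ℕ} {a b c d : Fin W} (h1 : a < b) (h2 : c < d)
    (h : ({a, b} : Finset (Fin W)) = {c, d}) : a = c ∧ b = d := by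
  have ha : a ∈ ({c, d} : Finset (Fin W)) := by rw [← h]; simp
  have hb : b ∈ ({c, d} : Finset (Fin W)) := by rw [← h]; simp
  have hc : c ∈ ({a, b} : Finset (Fin W)) := by rw [h]; simp
  rw [mem_insert, mem_singleton] at ha hb hc
  rcases ha with ha | ha <;> rcases hb with hb | hb <;> rcases hc with hc | hc <;>
    first
      | exact ⟨ha, hb⟩
      | (exfalso; subst_vars; omega)

def Ts {m W : ℕ} (q : Plc m W) (s s' t : Fin m) : Finset (Plc m W) :=
  univ.filter fun q' => (Valid q' ∧ GP q q') ∧ s.val + 1 = s'.val ∧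
    mv q q' = {(s, t), (s', t)} ∧ (q s' t).2.1 < (q' s t).2.1 ∧
    kl (q' s t) (q s t) ∧ kl (q s' t) (q' s' t)

/-- number of violating double moves in horizontal strips -/
theorem card_V2r {m W : ℕ} (U V : Fin m → Fin m → Fin W) (L : Fin m → Fin m → Bool)
    (hU : ∀ s, StrictMono (U s)) (hV : ∀ t, StrictMono (V t)) :
    (V2r (mk U V L)).card ≤ ∑ s : Fin m, ∑ s' : Fin m, ∑ t : Fin m,
      if s.val + 1 = s'.val then (gap (V t) (s' + 1)).choose 2 *
        (gap (U s) t + if L s t = true then gap (U s) t + gap (U s) (t + 1) else 0) *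
        (gap (U s') (t + 1) + if L s' t = true then 0 else gap (U s') t + gap (U s') (t + 1))
      else 0 := by
  have hsub : V2r (mk U V L) ⊆ univ.biUnion fun s => univ.biUnion fun s' =>
      univ.biUnion fun t => Ts (mk U V L) s s' t := by
    intro q' hq'
    unfold V2r at hq'
    rw [mem_filter] at hq'
    obtain ⟨-, h1, h2, s, s', t, h3, h4, h5, h6, h7⟩ := hq'
    simp only [mem_biUnion, mem_univ, true_and]
    refine ⟨s, s', t, ?_⟩
    unfold Ts
    rw [mem_filter]
    exact ⟨mem_univ _, ⟨h1, h2⟩, h3, h4, h5, h6, h7⟩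
  refine (card_le_card hsub).trans ?_
  refine card_biUnion_le.trans (sum_le_sum fun s _ => ?_)
  refine card_biUnion_le.trans (sum_le_sum fun s' _ => ?_)
  refine card_biUnion_le.trans (sum_le_sum fun t _ => ?_)
  by_cases hss : s.val + 1 = s'.val
  swap
  · rw [if_neg hss, Nat.le_zero, card_eq_zero, Finset.eq_empty_iff_forall_notMem]
    intro q' hq'
    unfold Ts at hq'
    rw [mem_filter] at hq'
    exact hss hq'.2.2.1
  rw [if_pos hss]
  -- data of an element
  have hst : s ≠ s' := by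
    intro h; rw [h] at hss; omega
  have key : ∀ q' ∈ Ts (mk U V L) s s' t,
      (∀ a b, (a, b) ≠ (s, t) → (a, b) ≠ (s', t) → q' a b = mk U V L a b) ∧
      (q' s t).2.1 < (q' s' t).2.1 ∧ (q' s t).2.1 ∈ gs (V t) (s' + 1) ∧
      (q' s' t).2.1 ∈ gs (V t) (s' + 1) ∧
      ((q' s t).1, (q' s t).2.2) ∈ Bs (U s) t (L s t) ∧
      ((q' s' t).1, (q' s' t).2.2) ∈ Cs (U s') t (L s' t) := by
    intro q' hq'
    unfold Ts at hq'
    rw [mem_filter] at hq'
    obtain ⟨-, ⟨⟨hv1, hv2⟩, hgp⟩, -, hmv, h5, h6, h7⟩ := hq'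
    have hun : ∀ a b, (a, b) ≠ (s, t) → (a, b) ≠ (s', t) → q' a b = mk U V L a b := by
      intro a b h1 h2
      by_contra hne
      have : (a, b) ∈ mv (mk U V L) q' := by
        unfold mv; rw [mem_filter]; exact ⟨mem_univ _, hne⟩
      rw [hmv, mem_insert, mem_singleton] at this
      rcases this with h | h
      · exact h1 h
      · exact h2 h
    have hm1 : (s, t) ∈ mv (mk U V L) q' := by rw [hmv]; simp
    have hm2 : (s', t) ∈ mv (mk U V L) q' := by rw [hmv]; simp
    have hlt : (q' s t).2.1 < (q' s' t).2.1 := hv2 t (by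
      show s.val < s'.val; omega)
    have h5' : V t s' < (q' s t).2.1 := h5
    have hup : ∀ j : Fin m, s' < j → (q' s' t).2.1 < V t j := by
      intro j hj
      have h1 : (q' s' t).2.1 < (q' j t).2.1 := hv2 t hj
      rw [hun j t] at h1
      · exact h1
      · intro h
        rw [Prod.mk.injEq] at h
        have := h.1
        subst this
        have : s'.val < j.val := hj
        omega
      · intro h
        rw [Prod.mk.injEq] at h
        exact hj.ne' h.1
    have hlow : ∀ j : Fin m, j ≤ s' → V t j < (q' s t).2.1 := by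
      intro j hj
      exact ((hV t).monotone hj).trans_lt h5'
    have hcol : ∀ a, (a = s ∨ a = s') → (∀ j, j < t → U a j < (q' a t).1) ∧
        (∀ j, t < j → (q' a t).1 < U a j) := by
      intro a ha
      refine ⟨fun j hj => ?_, fun j hj => ?_⟩
      · have h1 : (q' a j).1 < (q' a t).1 := hv1 a hj
        rw [hun a j] at h1
        · exact h1
        · intro h; rw [Prod.mk.injEq] at h; exact hj.ne h.2
        · intro h; rw [Prod.mk.injEq] at h; exact hj.ne h.2
      · have h1 : (q' a t).1 < (q' a j).1 := hv1 a hj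
        rw [hun a j] at h1
        · exact h1
        · intro h; rw [Prod.mk.injEq] at h; exact hj.ne' h.2
        · intro h; rw [Prod.mk.injEq] at h; exact hj.ne' h.2
    refine ⟨hun, hlt, ?_, ?_, ?_, ?_⟩
    · rw [mem_gs]
      refine ⟨fun j hj => hlow j ?_, fun j hj => hlt.trans (hup j ?_)⟩
      · show j.val ≤ s'.val; omega
      · show s'.val < j.val; omega
    · rw [mem_gs]
      refine ⟨fun j hj => (hlow j ?_).trans hlt, fun j hj => hup j ?_⟩
      · show j.val ≤ s'.val; omega
      · show s'.val < j.val; omega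
    · exact mem_Bs (hcol s (Or.inl rfl)).1 (hcol s (Or.inl rfl)).2 ((hgp _ hm1).1 t) h6
    · exact mem_Cs (hcol s' (Or.inr rfl)).1 (hcol s' (Or.inr rfl)).2 ((hgp _ hm2).1 t) h7
  have hcard : (Ts (mk U V L) s s' t).card ≤
      ((powersetCard 2 (gs (V t) (s' + 1))) ×ˢ (Bs (U s) t (L s t)) ×ˢ
        (Cs (U s') t (L s' t))).card := by
    refine card_le_card_of_injOn
      (fun q' => (({(q' s t).2.1, (q' s' t).2.1} : Finset (Fin W)),
        ((q' s t).1, (q' s t).2.2), ((q' s' t).1, (q' s' t).2.2))) ?_ ?_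
    · intro q' hq'
      obtain ⟨h0, h1, h2, h3, h4, h5⟩ := key q' hq'
      rw [mem_coe, mem_product, mem_product]
      refine ⟨?_, h4, h5⟩
      rw [mem_powersetCard]
      refine ⟨?_, card_pair h1.ne⟩
      intro v hv
      rw [mem_insert, mem_singleton] at hv
      rcases hv with rfl | rfl
      · exact h2
      · exact h3
    · intro q' hq' q'' hq'' heq
      obtain ⟨h0, h1, -⟩ := key q' hq'
      obtain ⟨k0, k1, -⟩ := key q'' hq''
      simp only [Prod.mk.injEq] at heq
      obtain ⟨e1, ⟨e2, e3⟩, e4, e5⟩ := heq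
      obtain ⟨e6, e7⟩ := pair_inj h1 k1 e1
      funext a b
      by_cases c1 : (a, b) = (s, t)
      · rw [Prod.mk.injEq] at c1
        rw [c1.1, c1.2]
        exact Prod.ext e2 (Prod.ext e6 e3)
      by_cases c2 : (a, b) = (s', t)
      · rw [Prod.mk.injEq] at c2
        rw [c2.1, c2.2]
        exact Prod.ext e4 (Prod.ext e7 e5)
      rw [h0 a b c1 c2, k0 a b c1 c2]
  refine hcard.trans ?_
  rw [card_product, card_product, card_powersetCard, gs_card, ← mul_assoc]
  exact Nat.mul_le_mul (Nat.mul_le_mul le_rfl (Bs_card _ _ _)) (Cs_card _ _ _)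

end

end Pool.Agent.Helper124.SW.J12b
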