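import Pool.Agent.Helper124.SWDefs

namespace Pool.Agent.Helper124.SW.J12c

open Finset Classical

noncomputable section

/-- the set of elements in the `i`-th gap -/
def gapSet {m W : ℕ} (f : Fin m → Fin W) (i : ℕ) : Finset (Fin W) :=
  univ.filter fun u : Fin W => (∀ j : Fin m, j.val < i → f j < u) ∧
    (∀ j : Fin m, i ≤ j.val → u < f j)

theorem card_gapSet {m W : ℕ} (f : Fin m → Fin W) (i : ℕ) : (gapSet f i).card = gap f i := rfl

/-- the double moves of a fixed pair of cells -/
def DD {m W : ℕ} (q : Plc m W) (s t t' : Fin m) : Finset (Plc m W) :=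
  univ.filter fun q' => Valid q' ∧ GP q q' ∧ t.val + 1 = t'.val ∧
    mv q q' = {(s, t), (s, t')} ∧ (q s t').1 < (q' s t).1 ∧
    kl (q' s t) (q s t) ∧ kl (q s t') (q' s t')

theorem card_DD {m W : ℕ} (U V : Fin m → Fin m → Fin W) (L : Fin m → Fin m → Bool)
    (hU : ∀ s, StrictMono (U s)) (hV : ∀ t, StrictMono (V t)) (s t t' : Fin m) :
    (DD (mk U V L) s t t').card ≤
      if t.val + 1 = t'.val then (gap (U s) (t' + 1)).choose 2 *
        (gap (V t) s + gap (V t) (s + 1)) * (gap (V t') s + gap (V t') (s + 1)) *
        (if L s t = true then (if L s t' = true then 1 else 2) else 0)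
      else 0 := by
  by_cases htt : t.val + 1 = t'.val
  swap
  · rw [if_neg htt]
    simp only [Nat.le_zero, Finset.card_eq_zero, DD]
    apply Finset.filter_false_of_mem
    rintro q' - ⟨-, -, h, -⟩
    exact htt h
  rw [if_pos htt]
  have hlt : t < t' := by
    rw [Fin.lt_def]; omega
  -- consequences of membership
  have key : ∀ q' ∈ DD (mk U V L) s t t',
      (∀ a b, (a, b) ≠ (s, t) → (a, b) ≠ (s, t') → q' a b = mk U V L a b) ∧
      U s t' < (q' s t).1 ∧ (q' s t).1 < (q' s t').1 ∧ (∀ j, t' < j → (q' s t').1 < U s j) ∧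
      (q' s t).2.2 = false ∧ L s t = true ∧ (L s t' = true → (q' s t').2.2 = true) ∧
      (q' s t).2.1 ∈ gapSet (V t) s ∪ gapSet (V t) (s + 1) ∧
      (q' s t').2.1 ∈ gapSet (V t') s ∪ gapSet (V t') (s + 1) := by
    intro q' hq'
    simp only [DD, Finset.mem_filter, Finset.mem_univ, true_and] at hq'
    obtain ⟨hval, hgp, -, hmv, h1, h2, h3⟩ := hq'
    have hun : ∀ a b, (a, b) ≠ (s, t) → (a, b) ≠ (s, t') → q' a b = mk U V L a b := by
      intro a b hab hab'
      by_contra hne
      have : (a, b) ∈ mv (mk U V L) q' := by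
        simp only [mv, Finset.mem_filter, Finset.mem_univ, true_and]
        exact hne
      rw [hmv] at this
      simp only [Finset.mem_insert, Finset.mem_singleton] at this
      rcases this with h | h
      · exact hab h
      · exact hab' h
    have hc1 : (s, t) ∈ mv (mk U V L) q' := by rw [hmv]; simp
    have hc2 : (s, t') ∈ mv (mk U V L) q' := by rw [hmv]; simp
    have hrow : ∀ b, (s, b) ∈ mv (mk U V L) q' →
        (q' s b).2.1 ∈ gapSet (V b) s ∪ gapSet (V b) (s + 1) := by
      intro b hb
      have hne : (q' s b).2.1 ≠ V b s := (hgp (s, b) hb).2 s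
      have hoth : ∀ a, a ≠ s → (q' a b).2.1 = V b a := by
        intro a ha
        rw [hun a b (by intro h; exact ha (Prod.ext_iff.1 h).1)
          (by intro h; exact ha (Prod.ext_iff.1 h).1)]
        rfl
      have hlo : ∀ a, a < s → V b a < (q' s b).2.1 := by
        intro a ha
        have := hval.2 b ha
        simp only at this
        rwa [hoth a ha.ne] at this
      have hhi : ∀ a, s < a → (q' s b).2.1 < V b a := by
        intro a ha
        have := hval.2 b ha
        simp only at this
        rwa [hoth a ha.ne'] at this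
      rw [Finset.mem_union]
      rcases lt_or_gt_of_ne hne with h | h
      · left
        simp only [gapSet, Finset.mem_filter, Finset.mem_univ, true_and]
        refine ⟨fun j hj => hlo j (Fin.lt_def.2 hj), fun j hj => ?_⟩
        rcases eq_or_lt_of_le (Fin.le_def.2 hj : s ≤ j) with h' | h'
        · rw [← h']; exact h
        · exact hhi j h'
      · right
        simp only [gapSet, Finset.mem_filter, Finset.mem_univ, true_and]
        refine ⟨fun j hj => ?_, fun j hj => hhi j (Fin.lt_def.2 (by omega))⟩
        rcases eq_or_lt_of_le (Fin.le_def.2 (by omega) : j ≤ s) with h' | h'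
        · rw [h']; exact h
        · exact hlo j h'
    have h1' : U s t' < (q' s t).1 := h1
    have hUt : U s t < U s t' := hU s hlt
    have h2' : (q' s t).2.2 = false ∧ L s t = true := by
      rcases h2 with h | h
      · exact h
      · exfalso
        have : (q' s t).1 < U s t := h.2
        exact absurd (lt_trans (lt_trans this hUt) h1') (lt_irrefl _)
    refine ⟨hun, h1', hval.1 s hlt, ?_, h2'.1, h2'.2, ?_, hrow t hc1, hrow t' hc2⟩
    · intro j hj
      have := hval.1 s hj
      simp only at this
      have hne1 : (s, j) ≠ (s, t) := by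
        intro h
        have h' : j = t := (Prod.ext_iff.1 h).2
        rw [h'] at hj
        exact absurd (lt_trans hlt hj) (lt_irrefl _)
      have hne2 : (s, j) ≠ (s, t') := by
        intro h
        have h' : j = t' := (Prod.ext_iff.1 h).2
        rw [h'] at hj
        exact absurd hj (lt_irrefl _)
      rwa [hun s j hne1 hne2] at this
    · intro hL
      rcases h3 with h | h
      · exact h.2
      · rw [← h.1]; exact hL
  by_cases hL : L s t = true
  swap
  · have : DD (mk U V L) s t t' = ∅ := by
      rw [Finset.eq_empty_iff_forall_notMem]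
      intro q' hq'
      exact hL (key q' hq').2.2.2.2.2.1
    rw [this]; simp
  rw [if_pos hL]
  let Ls : Finset Bool := if L s t' = true then {true} else univ
  have hLs : Ls.card = if L s t' = true then 1 else 2 := by
    by_cases h : L s t' = true <;> simp [Ls, h]
  let TT : Finset (Finset (Fin W) × Fin W × Fin W × Bool) :=
    ((gapSet (U s) (t' + 1)).powersetCard 2) ×ˢ
      ((gapSet (V t) s ∪ gapSet (V t) (s + 1)) ×ˢ
        ((gapSet (V t') s ∪ gapSet (V t') (s + 1)) ×ˢ Ls))
  have hTT : TT.card ≤ (gap (U s) (t' + 1)).choose 2 *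
        (gap (V t) s + gap (V t) (s + 1)) * (gap (V t') s + gap (V t') (s + 1)) *
        (if L s t' = true then 1 else 2) := by
    simp only [TT, Finset.card_product, Finset.card_powersetCard, hLs, card_gapSet, mul_assoc]
    apply Nat.mul_le_mul_left
    apply Nat.mul_le_mul
    · refine (Finset.card_union_le _ _).trans ?_
      rw [card_gapSet, card_gapSet]
    · apply Nat.mul_le_mul_right
      refine (Finset.card_union_le _ _).trans ?_
      rw [card_gapSet, card_gapSet]
  refine le_trans ?_ hTT
  apply Finset.card_le_card_of_injOn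
    (fun q' : Plc m W => (({(q' s t).1, (q' s t').1} : Finset (Fin W)), (q' s t).2.1,
      (q' s t').2.1, (q' s t').2.2))
  · intro q' hq'
    obtain ⟨hun, h1, h2, h3, h4, h5, h6, h7, h8⟩ := key q' hq'
    simp only [TT, Finset.coe_product, Set.mem_prod, Finset.mem_coe]
    refine ⟨?_, h7, h8, ?_⟩
    · rw [Finset.mem_powersetCard]
      have hg : ∀ u, U s t' < u → (∀ j, t' < j → u < U s j) → u ∈ gapSet (U s) (t' + 1) := by
        intro u hu hu'
        simp only [gapSet, Finset.mem_filter, Finset.mem_univ, true_and]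
        refine ⟨fun j hj => ?_, fun j hj => hu' j (Fin.lt_def.2 (by omega))⟩
        exact lt_of_le_of_lt ((hU s).monotone (Fin.le_def.2 (by omega) : j ≤ t')) hu
      refine ⟨?_, Finset.card_pair h2.ne⟩
      intro u hu
      simp only [Finset.mem_insert, Finset.mem_singleton] at hu
      rcases hu with rfl | rfl
      · exact hg _ h1 (fun j hj => lt_trans h2 (h3 j hj))
      · exact hg _ (lt_trans h1 h2) h3
    · by_cases h : L s t' = true
      · simp [Ls, h, h6 h]
      · simp [Ls, h]
  · intro q₁ hq₁ q₂ hq₂ he
    obtain ⟨hun, h1, h2, h3, h4, h5, h6, h7, h8⟩ := key q₁ hq₁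
    obtain ⟨hun', h1', h2', h3', h4', h5', h6', h7', h8'⟩ := key q₂ hq₂
    simp only [Prod.mk.injEq] at he
    obtain ⟨he1, he2, he3, he4⟩ := he
    have hu : (q₁ s t).1 = (q₂ s t).1 ∧ (q₁ s t').1 = (q₂ s t').1 := by
      have ha : (q₁ s t).1 ∈ ({(q₂ s t).1, (q₂ s t').1} : Finset (Fin W)) := by
        rw [← he1]; simp
      have hb : (q₁ s t').1 ∈ ({(q₂ s t).1, (q₂ s t').1} : Finset (Fin W)) := by
        rw [← he1]; simp
      simp only [Finset.mem_insert, Finset.mem_singleton] at ha hb
      rcases ha with ha | ha <;> rcases hb with hb | hb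
      · rw [ha, hb] at h2; exact absurd h2 (lt_irrefl _)
      · exact ⟨ha, hb⟩
      · rw [ha, hb] at h2; exact absurd (lt_trans h2 h2') (lt_irrefl _)
      · rw [ha, hb] at h2; exact absurd h2 (lt_irrefl _)
    funext a b
    by_cases hab : (a, b) = (s, t)
    · rw [Prod.mk.injEq] at hab
      obtain ⟨rfl, rfl⟩ := hab
      exact Prod.ext hu.1 (Prod.ext he2 (h4.trans h4'.symm))
    · by_cases hab' : (a, b) = (s, t')
      · rw [Prod.mk.injEq] at hab'
        obtain ⟨rfl, rfl⟩ := hab'
        exact Prod.ext hu.2 (Prod.ext he3 he4)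
      · rw [hun a b hab hab', hun' a b hab hab']

/-- number of violating double moves in vertical strips -/
theorem card_V2c {m W : ℕ} (U V : Fin m → Fin m → Fin W) (L : Fin m → Fin m → Bool)
    (hU : ∀ s, StrictMono (U s)) (hV : ∀ t, StrictMono (V t)) :
    (V2c (mk U V L)).card ≤ ∑ s : Fin m, ∑ t : Fin m, ∑ t' : Fin m,
      if t.val + 1 = t'.val then (gap (U s) (t' + 1)).choose 2 *
        (gap (V t) s + gap (V t) (s + 1)) * (gap (V t') s + gap (V t') (s + 1)) *
        (if L s t = true then (if L s t' = true then 1 else 2) else 0)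
      else 0 := by
  have hsub : V2c (mk U V L) ⊆ univ.biUnion fun s : Fin m => univ.biUnion fun t : Fin m =>
      univ.biUnion fun t' : Fin m => DD (mk U V L) s t t' := by
    intro q' hq'
    simp only [V2c, Finset.mem_filter, Finset.mem_univ, true_and] at hq'
    obtain ⟨hval, hgp, s, t, t', h⟩ := hq'
    simp only [Finset.mem_biUnion, Finset.mem_univ, true_and]
    refine ⟨s, t, t', ?_⟩
    simp only [DD, Finset.mem_filter, Finset.mem_univ, true_and]
    exact ⟨hval, hgp, h⟩
  refine (Finset.card_le_card hsub).trans ?_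
  refine Finset.card_biUnion_le.trans (Finset.sum_le_sum fun s _ => ?_)
  refine Finset.card_biUnion_le.trans (Finset.sum_le_sum fun t _ => ?_)
  refine Finset.card_biUnion_le.trans (Finset.sum_le_sum fun t' _ => ?_)
  exact card_DD U V L hU hV s t t'

end

end Pool.Agent.Helper124.SW.J12c
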