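import Pool.Agent.Helper124.SWDefs

namespace Pool.Agent.Helper124.SW.J12d

open Finset Classical

noncomputable section

/-- positions of a placement -/
def posOf {m W : ℕ} (q' : Plc m W) : (Fin m → Fin m → Fin W) × (Fin m → Fin m → Fin W) :=
  (fun s t => (q' s t).1, fun t s => (q' s t).2.1)

lemma mv_eq_mvz {m W : ℕ} (U V : Fin m → Fin m → Fin W) (L : Fin m → Fin m → Bool) (q' : Plc m W)
    (h : GP (mk U V L) q') : mvz U (posOf q').1 = mv (mk U V L) q' := by
  ext c
  simp only [mvz, mv, posOf, Finset.mem_filter, Finset.mem_univ, true_and]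
  constructor
  · intro h1 h2
    apply h1
    rw [h2]
    rfl
  · intro h1
    have hc : c ∈ mv (mk U V L) q' := by
      simp only [mv, Finset.mem_filter, Finset.mem_univ, true_and]
      exact h1
    exact (h c hc).1 c.2

lemma altz_of {m W : ℕ} (U V : Fin m → Fin m → Fin W) (L : Fin m → Fin m → Bool) (q' : Plc m W)
    (hv : Valid q') (h : GP (mk U V L) q') : AltZ (U, V) (posOf q') := by
  refine ⟨hv.1, hv.2, ?_⟩
  intro s t
  by_cases hc : (s, t) ∈ mv (mk U V L) q'
  · have h1 := h (s, t) hc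
    have h2 : ¬ ((posOf q').1 s t = (U, V).1 s t) := fun h3 => h1.1 t h3
    rw [if_neg h2]
    exact h1
  · have h1 : q' s t = mk U V L s t := by
      by_contra h2
      apply hc
      simp only [mv, Finset.mem_filter, Finset.mem_univ, true_and]
      exact h2
    have h2 : (posOf q').1 s t = (U, V).1 s t := by
      show (q' s t).1 = U s t
      rw [h1]; rfl
    rw [if_pos h2]
    show (q' s t).2.1 = V t s
    rw [h1]; rfl

lemma fiber_card {m W : ℕ} (U V : Fin m → Fin m → Fin W) (L : Fin m → Fin m → Bool)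
    (z' : (Fin m → Fin m → Fin W) × (Fin m → Fin m → Fin W)) :
    ((V3 (mk U V L)).filter fun q' => posOf q' = z').card ≤ 2 ^ (mvz U z'.1).card := by
  rw [← Finset.card_powerset]
  apply Finset.card_le_card_of_injOn
    (fun q' => (mvz U z'.1).filter fun c => (q' c.1 c.2).2.2 = true)
  · intro q' _
    simp only [Finset.coe_powerset, Set.mem_preimage, Set.mem_powerset_iff, Finset.coe_subset]
    exact Finset.filter_subset _ _
  · intro q₁ h₁ q₂ h₂ h12
    simp only [Finset.coe_filter, Set.mem_ofPred_eq] at h₁ h₂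
    obtain ⟨h₁, p₁⟩ := h₁
    obtain ⟨h₂, p₂⟩ := h₂
    simp only [V3, Finset.mem_filter, Finset.mem_univ, true_and] at h₁ h₂
    have e₁ := mv_eq_mvz U V L q₁ h₁.2.1
    have e₂ := mv_eq_mvz U V L q₂ h₂.2.1
    rw [p₁] at e₁
    rw [p₂] at e₂
    funext s t
    by_cases hc : (s, t) ∈ mvz U z'.1
    · have a1 : (q₁ s t).1 = (q₂ s t).1 := by
        have := congrArg (fun z => z.1 s t) (p₁.trans p₂.symm)
        exact this
      have a2 : (q₁ s t).2.1 = (q₂ s t).2.1 := by
        have := congrArg (fun z => z.2 t s) (p₁.trans p₂.symm)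
        exact this
      have a3 : (q₁ s t).2.2 = (q₂ s t).2.2 := by
        have h5 := Finset.ext_iff.1 h12 (s, t)
        simp only [Finset.mem_filter, hc, true_and] at h5
        exact Bool.eq_iff_iff.2 h5
      exact Prod.ext a1 (Prod.ext a2 a3)
    · have b1 : (s, t) ∉ mv (mk U V L) q₁ := by rw [← e₁]; exact hc
      have b2 : (s, t) ∉ mv (mk U V L) q₂ := by rw [← e₂]; exact hc
      simp only [mv, Finset.mem_filter, Finset.mem_univ, true_and, not_not] at b1 b2
      rw [b1, b2]

/-- the connected moves with labels: every moved cell has two choices of the new label -/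
theorem V3_le {m W : ℕ} (r : ℝ) (h0 : 0 ≤ r) (U V : Fin m → Fin m → Fin W)
    (L : Fin m → Fin m → Bool) :
    ∑ q' ∈ V3 (mk U V L), r ^ (mv (mk U V L) q').card ≤ T3 (2 * r) (U, V) := by
  have hfib : ∑ q' ∈ V3 (mk U V L), r ^ (mv (mk U V L) q').card =
      ∑ z' : (Fin m → Fin m → Fin W) × (Fin m → Fin m → Fin W),
        ∑ q' ∈ (V3 (mk U V L)).filter (fun q' => posOf q' = z'), r ^ (mv (mk U V L) q').card := by
    rw [Finset.sum_fiberwise]
  rw [hfib]
  unfold T3
  apply Finset.sum_le_sum
  intro z' _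
  have hconst : ∑ q' ∈ (V3 (mk U V L)).filter (fun q' => posOf q' = z'),
      r ^ (mv (mk U V L) q').card =
      ∑ q' ∈ (V3 (mk U V L)).filter (fun q' => posOf q' = z'), r ^ (mvz U z'.1).card := by
    apply Finset.sum_congr rfl
    intro q' hq'
    simp only [V3, Finset.mem_filter, Finset.mem_univ, true_and] at hq'
    rw [← mv_eq_mvz U V L q' hq'.1.2.1, hq'.2]
  rw [hconst, Finset.sum_const, nsmul_eq_mul]
  by_cases hne : ((V3 (mk U V L)).filter fun q' => posOf q' = z').Nonempty
  · obtain ⟨q', hq'⟩ := hne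
    simp only [V3, Finset.mem_filter, Finset.mem_univ, true_and] at hq'
    obtain ⟨⟨hv, hg, hcn, hcd⟩, rfl⟩ := hq'
    rw [← mv_eq_mvz U V L q' hg] at hcn hcd
    rw [if_pos ⟨altz_of U V L q' hv hg, hcn, hcd⟩, mul_pow]
    apply mul_le_mul_of_nonneg_right _ (pow_nonneg h0 _)
    have := fiber_card U V L (posOf q')
    exact_mod_cast this
  · rw [Finset.not_nonempty_iff_eq_empty] at hne
    rw [hne]
    simp only [Finset.card_empty, Nat.cast_zero, zero_mul]
    split_ifs
    · positivity
    · exact le_rfl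

end

end Pool.Agent.Helper124.SW.J12d
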