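import Pool.Agent.Helper124.SWDefs

namespace Pool.Agent.Helper124.SW.J13a

open Finset Classical

noncomputable section

/-- the `i`-th gap -/
def gapS {m W : ℕ} (f : Fin m → Fin W) (i : ℕ) : Finset (Fin W) :=
  univ.filter fun u : Fin W => (∀ j : Fin m, j.val < i → f j < u) ∧
    (∀ j : Fin m, i ≤ j.val → u < f j)

theorem card_gapS {m W : ℕ} (f : Fin m → Fin W) (i : ℕ) : (gapS f i).card = gap f i := rfl

theorem mem_gapS {m W : ℕ} {f : Fin m → Fin W} {i : ℕ} {u : Fin W} :
    u ∈ gapS f i ↔ (∀ j : Fin m, j.val < i → f j < u) ∧ (∀ j : Fin m, i ≤ j.val → u < f j) := by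
  simp [gapS]

/-- strictly increasing maps into `G` -/
def SMG {W : ℕ} (a : ℕ) (G : Finset (Fin W)) : Finset (Fin a → Fin W) :=
  univ.filter fun α => StrictMono α ∧ ∀ j, α j ∈ G

theorem card_SMG {W : ℕ} (a : ℕ) (G : Finset (Fin W)) : (SMG a G).card = G.card.choose a := by
  rw [← Finset.card_powersetCard]
  refine Finset.card_bij (fun α _ => univ.image α) ?_ ?_ ?_
  · intro α hα
    simp only [SMG, mem_filter, mem_univ, true_and] at hα
    rw [mem_powersetCard]
    constructor
    · intro x hx
      rw [mem_image] at hx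
      obtain ⟨j, _, rfl⟩ := hx
      exact hα.2 j
    · rw [card_image_of_injective _ hα.1.injective]
      simp
  · intro α hα β hβ h
    simp only [SMG, mem_filter, mem_univ, true_and] at hα hβ
    refine (StrictMono.range_inj hα.1 hβ.1).1 ?_
    have := congrArg (fun s : Finset (Fin W) => (s : Set (Fin W))) h
    simpa using this
  · intro T hT
    rw [mem_powersetCard] at hT
    refine ⟨T.orderEmbOfFin hT.2, ?_, ?_⟩
    · simp only [SMG, mem_filter, mem_univ, true_and]
      refine ⟨(T.orderEmbOfFin hT.2).strictMono, fun j => hT.1 ?_⟩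
      exact T.orderEmbOfFin_mem hT.2 j
    · apply Finset.coe_injective
      rw [coe_image, coe_univ, Set.image_univ]
      exact T.range_orderEmbOfFin hT.2

/-- insertion of `α` at position `i` -/
def ins {m a W : ℕ} (i : ℕ) (f : Fin m → Fin W) (α : Fin a → Fin W) (hi : i ≤ m)
    (k : Fin (m + a)) : Fin W :=
  if h : k.val < i then f ⟨k.val, by omega⟩
  else if h' : k.val < i + a then α ⟨k.val - i, by omega⟩
  else f ⟨k.val - a, by omega⟩

/-- deletion of the block at position `i` -/
def del {m a W : ℕ} (i : ℕ) (g : Fin (m + a) → Fin W) (j : Fin m) : Fin W :=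
  if j.val < i then g ⟨j.val, by omega⟩ else g ⟨j.val + a, by omega⟩

/-- the block at position `i` -/
def blk {m a W : ℕ} (i : ℕ) (hi : i ≤ m) (g : Fin (m + a) → Fin W) (j : Fin a) : Fin W :=
  g ⟨i + j.val, by omega⟩

theorem ins_strictMono {m a W : ℕ} {i : ℕ} {f : Fin m → Fin W} {α : Fin a → Fin W} (hi : i ≤ m)
    (hf : StrictMono f) (hα : StrictMono α) (h : ∀ j, α j ∈ gapS f i) :
    StrictMono (ins i f α hi) := by
  intro k l hkl
  have hkl' : k.val < l.val := hkl
  unfold ins
  split_ifs with h1 h2 h3 h4 h5 h6 h7 h8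
  · exact hf hkl'
  · exact (mem_gapS.1 (h _)).1 _ h1
  · refine hf ?_
    rw [Fin.lt_def]; simp only; omega
  · omega
  · refine hα ?_
    rw [Fin.lt_def]; simp only; omega
  · refine (mem_gapS.1 (h _)).2 _ ?_
    simp only; omega
  · omega
  · omega
  · refine hf ?_
    rw [Fin.lt_def]; simp only; omega

theorem del_strictMono {m a W : ℕ} {i : ℕ} {g : Fin (m + a) → Fin W} (hg : StrictMono g) :
    StrictMono (del i g) := by
  intro k l hkl
  have hkl' : k.val < l.val := hkl
  unfold del
  split_ifs with h1 h2 h3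
  · refine hg ?_
    rw [Fin.lt_def]; simp only; omega
  · refine hg ?_
    rw [Fin.lt_def]; simp only; omega
  · omega
  · refine hg ?_
    rw [Fin.lt_def]; simp only; omega

theorem blk_strictMono {m a W : ℕ} {i : ℕ} (hi : i ≤ m) {g : Fin (m + a) → Fin W}
    (hg : StrictMono g) : StrictMono (blk i hi g) := by
  intro k l hkl
  have hkl' : k.val < l.val := hkl
  unfold blk
  refine hg ?_
  rw [Fin.lt_def]; simp only; omega

theorem blk_mem {m a W : ℕ} {i : ℕ} (hi : i ≤ m) {g : Fin (m + a) → Fin W}
    (hg : StrictMono g) (j : Fin a) : blk i hi g j ∈ gapS (del i g) i := by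
  rw [mem_gapS]
  have hj := j.isLt
  constructor
  · intro l hl
    unfold del blk
    rw [if_pos hl]
    refine hg ?_
    rw [Fin.lt_def]; simp only; omega
  · intro l hl
    unfold del blk
    rw [if_neg (by omega)]
    refine hg ?_
    rw [Fin.lt_def]; simp only; omega

theorem del_ins {m a W : ℕ} {i : ℕ} (hi : i ≤ m) (f : Fin m → Fin W) (α : Fin a → Fin W) :
    del i (ins i f α hi) = f := by
  funext j
  unfold del ins
  by_cases h : j.val < i
  · rw [if_pos h]
    simp [h]
  · rw [if_neg h]
    have h1 : ¬ (j.val + a < i) := by omega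
    have h2 : ¬ (j.val + a < i + a) := by omega
    simp [h1, h]

theorem blk_ins {m a W : ℕ} {i : ℕ} (hi : i ≤ m) (f : Fin m → Fin W) (α : Fin a → Fin W) :
    blk i hi (ins i f α hi) = α := by
  funext j
  have hj := j.isLt
  unfold blk ins
  have h1 : ¬ (i + j.val < i) := by omega
  have h2 : i + j.val < i + a := by omega
  simp

theorem ins_del_blk {m a W : ℕ} {i : ℕ} (hi : i ≤ m) (g : Fin (m + a) → Fin W) :
    ins i (del i g) (blk i hi g) hi = g := by
  funext k
  have hk := k.isLt
  unfold ins del blk
  split_ifs with h1 h2 h3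
  · rfl
  · congr 1
    apply Fin.ext
    simp only
    omega
  · exfalso
    simp only at h3
    omega
  · congr 1
    apply Fin.ext
    simp only
    omega

theorem sum_ins {m a W i : ℕ} (hi : i ≤ m) (F : (Fin (m + a) → Fin W) → ℕ) :
    ∑ f ∈ SM m W, ∑ α ∈ SMG a (gapS f i), F (ins i f α hi) = ∑ g ∈ SM (m + a) W, F g := by
  rw [Finset.sum_sigma']
  refine Finset.sum_bij' (fun x _ => ins i x.1 x.2 hi) (fun g _ => ⟨del i g, blk i hi g⟩)
    ?_ ?_ ?_ ?_ ?_
  · rintro ⟨f, α⟩ hx
    simp only [mem_sigma, SM, SMG, mem_filter, mem_univ, true_and] at hx ⊢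
    exact ins_strictMono hi hx.1 hx.2.1 hx.2.2
  · intro g hg
    simp only [mem_sigma, SM, SMG, mem_filter, mem_univ, true_and] at hg ⊢
    exact ⟨del_strictMono hg, blk_strictMono hi hg, blk_mem hi hg⟩
  · rintro ⟨f, α⟩ hx
    simp only [del_ins, blk_ins]
  · intro g hg
    exact ins_del_blk hi g
  · rintro ⟨f, α⟩ hx
    rfl

theorem card_SM (m W : ℕ) : (SM m W).card = W.choose m := by
  have := card_SMG m (univ : Finset (Fin W))
  simpa [SMG, SM] using this

/-- binomial moments of a gap of a uniformly random strictly increasing map -/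
theorem sum_choose_gap (m W a i : ℕ) (hi : i ≤ m) :
    ∑ f ∈ SM m W, (gap f i).choose a = W.choose (m + a) := by
  have := sum_ins (m := m) (a := a) (W := W) hi (fun _ => 1)
  simp only [sum_const, smul_eq_mul, mul_one, card_SMG, card_gapS, card_SM] at this
  exact this

theorem gap_ins {m W i j : ℕ} (hi : i ≤ m) (hij : i < j) (f : Fin m → Fin W) (α : Fin 1 → Fin W)
    (hf : StrictMono f) (hα : ∀ k, α k ∈ gapS f i) (hj : j ≤ m) :
    gap (ins i f α hi) (j + 1) = gap f j := by
  rw [← card_gapS, ← card_gapS]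
  congr 1
  ext u
  rw [mem_gapS, mem_gapS]
  constructor
  · rintro ⟨h1, h2⟩
    constructor
    · intro k hk
      by_cases hki : k.val < i
      · have := h1 ⟨k.val, by omega⟩ (by simp only; omega)
        simpa [ins, hki] using this
      · have := h1 ⟨k.val + 1, by omega⟩ (by simp only; omega)
        have e1 : ¬ (k.val + 1 < i) := by omega
        simpa [ins, hki, e1] using this
    · intro k hk
      have := h2 ⟨k.val + 1, by omega⟩ (by simp only; omega)
      have e1 : ¬ (k.val + 1 < i) := by omega
      have e2 : ¬ (k.val < i) := by omega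
      simpa [ins, e1, e2] using this
  · rintro ⟨h1, h2⟩
    constructor
    · intro k hk
      unfold ins
      split_ifs with e1 e2
      · exact h1 _ (by simp only; omega)
      · -- the new point
        have h3 : i < m := by omega
        have h4 := (mem_gapS.1 (hα ⟨k.val - i, by omega⟩)).2 ⟨i, h3⟩ le_rfl
        exact lt_trans h4 (h1 ⟨i, h3⟩ hij)
      · exact h1 _ (by simp only; omega)
    · intro k hk
      unfold ins
      split_ifs with e1 e2
      · omega
      · omega
      · exact h2 _ (by simp only; omega)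

/-- mixed moment of two different gaps -/
theorem sum_gap_mul (m W i j : ℕ) (hij : i < j) (hj : j ≤ m) :
    ∑ f ∈ SM m W, gap f i * gap f j = W.choose (m + 2) := by
  have hi : i ≤ m := by omega
  have h := sum_ins (m := m) (a := 1) (W := W) hi (fun g => gap g (j + 1))
  have h2 := sum_choose_gap (m + 1) W 1 (j + 1) (by omega)
  simp only [Nat.choose_one_right] at h2
  rw [h2] at h
  rw [← h]
  refine Finset.sum_congr rfl fun f hf => ?_
  have hf' : StrictMono f := by simpa [SM] using hf
  have e : ∀ α ∈ SMG 1 (gapS f i), gap (ins i f α hi) (j + 1) = gap f j := by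
    intro α hα
    simp only [SMG, mem_filter, mem_univ, true_and] at hα
    exact gap_ins hi hij f α hf' hα.2 hj
  rw [Finset.sum_congr rfl e, sum_const, card_SMG, card_gapS, Nat.choose_one_right, smul_eq_mul]

end

end Pool.Agent.Helper124.SW.J13a
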