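import Pool.Agent.Helper124.SWDefs

namespace Pool.Agent.Helper124.SW.J13b

open Finset Classical

noncomputable section

/-- the gap as a set -/
def gs {m W : ℕ} (f : Fin m → Fin W) (i : ℕ) : Finset (Fin W) :=
  univ.filter fun u : Fin W => (∀ j : Fin m, j.val < i → f j < u) ∧
    (∀ j : Fin m, i ≤ j.val → u < f j)

theorem mem_gs {m W : ℕ} {f : Fin m → Fin W} {i : ℕ} {u : Fin W} :
    u ∈ gs f i ↔ (∀ j : Fin m, j.val < i → f j < u) ∧ (∀ j : Fin m, i ≤ j.val → u < f j) := by
  unfold gs
  rw [Finset.mem_filter]
  exact ⟨fun h => h.2, fun h => ⟨Finset.mem_univ _, h⟩⟩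

theorem card_lt_fin (m i : ℕ) (hi : i ≤ m) :
    ((univ : Finset (Fin m)).filter (fun j => j.val < i)).card = i := by
  have h : (univ : Finset (Fin m)).filter (fun j => j.val < i) =
      (univ : Finset (Fin i)).map (Fin.castLEEmb hi) := by
    ext j
    simp only [Finset.mem_filter, Finset.mem_univ, true_and, Finset.mem_map]
    constructor
    · intro h
      exact ⟨⟨j.val, h⟩, Fin.ext rfl⟩
    · rintro ⟨k, rfl⟩
      exact k.2
  rw [h, Finset.card_map, Finset.card_univ, Fintype.card_fin]

theorem gs_disj {m W : ℕ} {f : Fin m → Fin W} {i : ℕ} {T : Finset (Fin W)} (hT : T ⊆ gs f i) :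
    Disjoint (univ.image f) T := by
  rw [Finset.disjoint_left]
  intro u hu hu'
  obtain ⟨j, _, rfl⟩ := Finset.mem_image.mp hu
  obtain ⟨h1, h2⟩ := mem_gs.mp (hT hu')
  by_cases h : j.val < i
  · exact lt_irrefl _ (h1 j h)
  · exact lt_irrefl _ (h2 j (not_lt.mp h))

theorem recover {m W : ℕ} {f : Fin m → Fin W} (hf : StrictMono f) {i : ℕ} (hi : i ≤ m)
    {T : Finset (Fin W)} (hT : T ⊆ gs f i) :
    T = (univ.image f ∪ T).filter (fun u => i ≤ ((univ.image f ∪ T).filter (fun v => v < u)).card ∧
      ((univ.image f ∪ T).filter (fun v => v < u)).card < i + T.card) := by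
  set S := univ.image f ∪ T with hS
  have hJ : ∀ k, k ≤ m →
      (((univ : Finset (Fin m)).filter (fun j => j.val < k)).image f).card = k := by
    intro k hk
    rw [Finset.card_image_of_injective _ hf.injective, card_lt_fin m k hk]
  ext u
  rw [Finset.mem_filter]
  constructor
  · intro hu
    obtain ⟨h1, h2⟩ := mem_gs.mp (hT hu)
    refine ⟨Finset.mem_union_right _ hu, ?_, ?_⟩
    · calc i = (((univ : Finset (Fin m)).filter (fun j => j.val < i)).image f).card := (hJ i hi).symm
        _ ≤ _ := by
          apply Finset.card_le_card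
          intro v hv
          obtain ⟨j, hj, rfl⟩ := Finset.mem_image.mp hv
          rw [Finset.mem_filter]
          exact ⟨Finset.mem_union_left _ (Finset.mem_image_of_mem f (Finset.mem_univ j)),
            h1 j (Finset.mem_filter.mp hj).2⟩
    · have hsub : S.filter (fun v => v < u) ⊆
          (((univ : Finset (Fin m)).filter (fun j => j.val < i)).image f) ∪ T.erase u := by
        intro v hv
        rw [Finset.mem_filter] at hv
        obtain ⟨hv1, hv2⟩ := hv
        rcases Finset.mem_union.mp hv1 with h | h
        · obtain ⟨j, _, rfl⟩ := Finset.mem_image.mp h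
          apply Finset.mem_union_left
          apply Finset.mem_image_of_mem
          rw [Finset.mem_filter]
          refine ⟨Finset.mem_univ _, ?_⟩
          by_contra hj
          exact absurd (h2 j (not_lt.mp hj)) (not_lt.mpr hv2.le)
        · exact Finset.mem_union_right _ (Finset.mem_erase.mpr ⟨hv2.ne, h⟩)
      have h3 := (Finset.card_le_card hsub).trans (Finset.card_union_le _ _)
      rw [hJ i hi, Finset.card_erase_of_mem hu] at h3
      have h4 : 0 < T.card := Finset.card_pos.mpr ⟨u, hu⟩
      omega
  · rintro ⟨hu, h1, h2⟩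
    rcases Finset.mem_union.mp hu with h | h
    · exfalso
      obtain ⟨j, _, rfl⟩ := Finset.mem_image.mp h
      by_cases hj : j.val < i
      · have hsub : S.filter (fun v => v < f j) ⊆
            (((univ : Finset (Fin m)).filter (fun k => k.val < j.val)).image f) := by
          intro v hv
          rw [Finset.mem_filter] at hv
          obtain ⟨hv1, hv2⟩ := hv
          rcases Finset.mem_union.mp hv1 with h' | h'
          · obtain ⟨k, _, rfl⟩ := Finset.mem_image.mp h'
            apply Finset.mem_image_of_mem
            rw [Finset.mem_filter]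
            exact ⟨Finset.mem_univ _, hf.lt_iff_lt.mp hv2⟩
          · have := (mem_gs.mp (hT h')).1 j hj
            exact absurd hv2 (not_lt.mpr this.le)
        have h3 := Finset.card_le_card hsub
        rw [hJ j.val j.2.le] at h3
        omega
      · have hsub : (((univ : Finset (Fin m)).filter (fun k => k.val < j.val)).image f) ∪ T ⊆
            S.filter (fun v => v < f j) := by
          intro v hv
          rw [Finset.mem_filter]
          rcases Finset.mem_union.mp hv with h' | h'
          · obtain ⟨k, hk, rfl⟩ := Finset.mem_image.mp h'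
            exact ⟨Finset.mem_union_left _ (Finset.mem_image_of_mem f (Finset.mem_univ k)),
              hf (Finset.mem_filter.mp hk).2⟩
          · exact ⟨Finset.mem_union_right _ h', (mem_gs.mp (hT h')).2 j (not_lt.mp hj)⟩
        have hd : Disjoint (((univ : Finset (Fin m)).filter (fun k => k.val < j.val)).image f) T :=
          (gs_disj hT).mono_left (Finset.image_subset_image (Finset.filter_subset _ _))
        have h3 := Finset.card_le_card hsub
        rw [Finset.card_union_of_disjoint hd, hJ j.val j.2.le] at h3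
        omega
    · exact h

theorem gap_binom (m W b i : ℕ) (hi : i ≤ m) :
    ∑ f ∈ SM m W, (gap f i).choose b ≤ W.choose (m + b) := by
  have h1 : ∑ f ∈ SM m W, (gap f i).choose b =
      ((SM m W).sigma (fun f => (gs f i).powersetCard b)).card := by
    rw [Finset.card_sigma]
    apply Finset.sum_congr rfl
    intro f _
    rw [Finset.card_powersetCard]
    rfl
  have h2 : W.choose (m + b) = ((univ : Finset (Fin W)).powersetCard (m + b)).card := by
    rw [Finset.card_powersetCard, Finset.card_univ, Fintype.card_fin]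
  rw [h1, h2]
  have hSM : ∀ f : Fin m → Fin W, f ∈ SM m W ↔ StrictMono f := by
    intro f
    unfold SM
    rw [Finset.mem_filter]
    exact ⟨fun h => h.2, fun h => ⟨Finset.mem_univ _, h⟩⟩
  apply Finset.card_le_card_of_injOn (fun x => univ.image x.1 ∪ x.2)
  · rintro ⟨f, T⟩ hx
    rw [Finset.mem_coe, Finset.mem_sigma, Finset.mem_powersetCard] at hx
    obtain ⟨hf, hT, hTb⟩ := hx
    have hf' : StrictMono f := (hSM f).mp hf
    rw [Finset.mem_coe, Finset.mem_powersetCard]
    refine ⟨Finset.subset_univ _, ?_⟩
    show (univ.image f ∪ T).card = m + b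
    have hT' : T ⊆ gs f i := hT
    have hTb' : T.card = b := hTb
    rw [Finset.card_union_of_disjoint (gs_disj hT'),
      Finset.card_image_of_injective _ hf'.injective, Finset.card_univ, Fintype.card_fin, hTb']
  · rintro ⟨f, T⟩ hx ⟨f', T'⟩ hx' heq
    rw [Finset.mem_coe, Finset.mem_sigma, Finset.mem_powersetCard] at hx hx'
    obtain ⟨hf, hT, hTb⟩ := hx
    obtain ⟨hf', hT', hTb'⟩ := hx'
    have hfm : StrictMono f := (hSM f).mp hf
    have hfm' : StrictMono f' := (hSM f').mp hf'
    have a1 : T ⊆ gs f i := hT
    have a2 : T' ⊆ gs f' i := hT'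
    have b1 : T.card = b := hTb
    have b2 : T'.card = b := hTb'
    have heq' : univ.image f ∪ T = univ.image f' ∪ T' := heq
    have r1 := recover hfm hi a1
    have r2 := recover hfm' hi a2
    have hTT : T = T' := by
      rw [b1, heq'] at r1
      rw [b2] at r2
      rw [r1]
      exact r2.symm
    have hI : univ.image f = univ.image f' := by
      have e1 : univ.image f = (univ.image f ∪ T) \ T := by
        rw [Finset.union_sdiff_right, Finset.sdiff_eq_self_of_disjoint (gs_disj a1)]
      have e2 : univ.image f' = (univ.image f' ∪ T') \ T' := by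
        rw [Finset.union_sdiff_right, Finset.sdiff_eq_self_of_disjoint (gs_disj a2)]
      rw [e1, e2, heq', hTT]
    have hff : f = f' := by
      rw [← hfm.range_inj hfm']
      have := congrArg (fun s : Finset (Fin W) => (s : Set (Fin W))) hI
      simpa using this
    subst hff
    subst hTT
    rfl

theorem choose_ratio (m W : ℕ) (hW : m ≤ W) : ∀ A : ℕ,
    (W + A).choose (m + A) * m ^ A ≤ W.choose m * W ^ A := by
  intro A
  induction A with
  | zero => simp
  | succ A ih =>
    have h1 := Nat.add_one_mul_choose_eq (W + A) (m + A)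
    have h2 : (W + A + 1).choose (m + A + 1) * m * (m + A + 1) ≤
        (W + A).choose (m + A) * W * (m + A + 1) := by
      calc (W + A + 1).choose (m + A + 1) * m * (m + A + 1) =
          ((W + A + 1).choose (m + A + 1) * (m + A + 1)) * m := by ring
        _ = ((W + A + 1) * (W + A).choose (m + A)) * m := by rw [h1]
        _ = (W + A).choose (m + A) * ((W + A + 1) * m) := by ring
        _ ≤ (W + A).choose (m + A) * (W * (m + A + 1)) := by
            apply Nat.mul_le_mul_left
            nlinarith
        _ = _ := by ring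
    have h3 : (W + A + 1).choose (m + A + 1) * m ≤ (W + A).choose (m + A) * W :=
      Nat.le_of_mul_le_mul_right h2 (by omega)
    calc (W + (A + 1)).choose (m + (A + 1)) * m ^ (A + 1)
        = ((W + A + 1).choose (m + A + 1) * m) * m ^ A := by rw [pow_succ]; ring_nf
      _ ≤ ((W + A).choose (m + A) * W) * m ^ A := Nat.mul_le_mul_right _ h3
      _ = ((W + A).choose (m + A) * m ^ A) * W := by ring
      _ ≤ (W.choose m * W ^ A) * W := Nat.mul_le_mul_right _ ih
      _ = W.choose m * W ^ (A + 1) := by rw [pow_succ]; ring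

theorem gap_multi (m W A i : ℕ) (hi : i ≤ m) :
    ∑ f ∈ SM m W, (gap f i + A).choose A ≤ (W + A).choose (m + A) := by
  calc ∑ f ∈ SM m W, (gap f i + A).choose A
      = ∑ f ∈ SM m W, ∑ ij ∈ antidiagonal A, (gap f i).choose ij.1 * A.choose ij.2 := by
        apply Finset.sum_congr rfl
        intro f _
        rw [Nat.add_choose_eq]
    _ = ∑ ij ∈ antidiagonal A, (∑ f ∈ SM m W, (gap f i).choose ij.1) * A.choose ij.2 := by
        rw [Finset.sum_comm]
        apply Finset.sum_congr rfl
        intro ij _
        rw [Finset.sum_mul]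
    _ ≤ ∑ ij ∈ antidiagonal A, W.choose (m + ij.1) * A.choose ij.2 := by
        apply Finset.sum_le_sum
        intro ij _
        exact Nat.mul_le_mul_right _ (gap_binom m W ij.1 i hi)
    _ = ∑ kl ∈ (antidiagonal A).image (fun ij : ℕ × ℕ => (m + ij.1, ij.2)),
          W.choose kl.1 * A.choose kl.2 := by
        rw [Finset.sum_image]
        rintro ⟨a, b⟩ _ ⟨c, d⟩ _ h
        simp only [Prod.mk.injEq] at h
        ext
        · simp; omega
        · exact h.2
    _ ≤ ∑ kl ∈ antidiagonal (m + A), W.choose kl.1 * A.choose kl.2 := by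
        apply Finset.sum_le_sum_of_subset
        intro kl hkl
        obtain ⟨ij, hij, rfl⟩ := Finset.mem_image.mp hkl
        rw [HasAntidiagonal.mem_antidiagonal] at hij ⊢
        simp only
        omega
    _ = (W + A).choose (m + A) := (Nat.add_choose_eq W A (m + A)).symm

/-- power moments of a gap of a uniformly random strictly increasing map. -/
theorem gap_moment (m W A i : ℕ) (hm : 1 ≤ m) (hW : m ≤ W) (hi : i ≤ m) :
    ∑ f ∈ SM m W, (gap f i : ℝ) ^ A ≤ (A.factorial : ℝ) * (W.choose m : ℝ) * ((W : ℝ) / m) ^ A := by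
  have h1 : ∀ G : ℕ, G ^ A ≤ A.factorial * (G + A).choose A := by
    intro G
    calc G ^ A ≤ (G + 1) ^ A := Nat.pow_le_pow_left (Nat.le_succ G) A
      _ ≤ (G + 1).ascFactorial A := Nat.pow_succ_le_ascFactorial (G + 1) A
      _ = A.factorial * (G + A).choose A := Nat.ascFactorial_eq_factorial_mul_choose G A
  have h2 : ∑ f ∈ SM m W, (gap f i) ^ A ≤ A.factorial * (W + A).choose (m + A) := by
    calc ∑ f ∈ SM m W, (gap f i) ^ A ≤ ∑ f ∈ SM m W, A.factorial * (gap f i + A).choose A :=
          Finset.sum_le_sum fun f _ => h1 _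
      _ = A.factorial * ∑ f ∈ SM m W, (gap f i + A).choose A := by rw [Finset.mul_sum]
      _ ≤ _ := Nat.mul_le_mul_left _ (gap_multi m W A i hi)
  have h3 := choose_ratio m W hW A
  have hm0 : (0 : ℝ) < m := by exact_mod_cast hm
  have h4 : (((W + A).choose (m + A) : ℕ) : ℝ) ≤ (W.choose m : ℝ) * ((W : ℝ) / m) ^ A := by
    rw [div_pow, ← mul_div_assoc, le_div_iff₀ (by positivity)]
    exact_mod_cast h3
  calc ∑ f ∈ SM m W, (gap f i : ℝ) ^ A = ((∑ f ∈ SM m W, (gap f i) ^ A : ℕ) : ℝ) := by
        push_cast; rfl
    _ ≤ ((A.factorial * (W + A).choose (m + A) : ℕ) : ℝ) := by exact_mod_cast h2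
    _ = (A.factorial : ℝ) * (((W + A).choose (m + A) : ℕ) : ℝ) := by push_cast; rfl
    _ ≤ (A.factorial : ℝ) * ((W.choose m : ℝ) * ((W : ℝ) / m) ^ A) :=
        mul_le_mul_of_nonneg_left h4 (Nat.cast_nonneg _)
    _ = _ := by ring

end

end Pool.Agent.Helper124.SW.J13b
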