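import Pool.Agent.Helper124.SWDefs

namespace Pool.Agent.Helper124.SW.J14a

open Finset Classical

noncomputable section

lemma zz_card (m W : ℕ) (hm : 1 ≤ m) :
    ((ZZ m W).card : ℝ) = (((SM m W).card : ℝ) ^ (m - 1)) ^ 2 * ((SM m W).card : ℝ) ^ 2 := by
  unfold ZZ
  rw [Finset.card_product, Fintype.card_piFinset_const]
  obtain ⟨k, rfl⟩ : ∃ k, m = k + 1 := ⟨m - 1, by omega⟩
  rw [Nat.add_sub_cancel]
  push_cast
  rw [pow_succ]
  ring

lemma zz_sum (m W : ℕ) (F G : (Fin m → Fin W) → ℝ) (s t : Fin m) :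
    ∑ z ∈ ZZ m W, F (z.1 s) * G (z.2 t) =
      (((SM m W).card : ℝ) ^ (m - 1)) ^ 2 * ((∑ f ∈ SM m W, F f) * ∑ f ∈ SM m W, G f) := by
  unfold ZZ
  rw [Finset.sum_product]
  have h1 : ∀ x ∈ Fintype.piFinset (fun _ : Fin m => SM m W),
      ∑ y ∈ Fintype.piFinset (fun _ : Fin m => SM m W), F (x s) * G (y t) =
      F (x s) * (((SM m W).card : ℝ) ^ (m - 1) * ∑ f ∈ SM m W, G f) := by
    intro x _
    rw [← Finset.mul_sum, Fintype.sum_piFinset_apply, Fintype.card_fin, nsmul_eq_mul]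
    push_cast
    ring
  rw [Finset.sum_congr rfl h1, ← Finset.sum_mul, Fintype.sum_piFinset_apply, Fintype.card_fin,
    nsmul_eq_mul]
  push_cast
  ring

lemma sm_card (m W : ℕ)
    (hG1 : ∀ a i : ℕ, i ≤ m → ∑ f ∈ SM m W, (gap f i).choose a = W.choose (m + a)) :
    (SM m W).card = W.choose m := by
  have h := hG1 0 0 (Nat.zero_le _)
  simp only [Nat.choose_zero_right, Nat.add_zero] at h
  rw [← h]
  simp

lemma sm_ge (m W : ℕ) : W.choose m ≤ (SM m W).card := by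
  have h : Set.SurjOn (fun f : Fin m → Fin W => Finset.univ.image f) (SM m W : Set (Fin m → Fin W))
      (powersetCard m (univ : Finset (Fin W)) : Set (Finset (Fin W))) := by
    intro s hs
    have hs' : s.card = m := (Finset.mem_powersetCard.1 (Finset.mem_coe.1 hs)).2
    refine ⟨s.orderEmbOfFin hs', ?_, ?_⟩
    · rw [Finset.mem_coe]
      unfold SM
      rw [Finset.mem_filter]
      exact ⟨Finset.mem_univ _, (s.orderEmbOfFin hs').strictMono⟩
    · apply Finset.coe_injective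
      rw [Finset.coe_image, Finset.coe_univ, Set.image_univ]
      exact Finset.range_orderEmbOfFin s hs'
  calc W.choose m = (powersetCard m (univ : Finset (Fin W))).card := by simp
    _ ≤ _ := Finset.card_le_card_of_surjOn _ h

lemma choose_one' (m W : ℕ) (hW : m ≤ W) :
    (W.choose (m + 1) : ℝ) * ((m : ℝ) + 1) = W.choose m * ((W : ℝ) - m) := by
  have h := Nat.choose_succ_right_eq W m
  have h2 : ((W - m : ℕ) : ℝ) = (W : ℝ) - m := Nat.cast_sub hW
  rw [← h2]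
  exact_mod_cast h

lemma choose_two' (m W : ℕ) (hW : m + 1 ≤ W) :
    (W.choose (m + 2) : ℝ) * (((m : ℝ) + 1) * (m + 2)) =
      W.choose m * (((W : ℝ) - m) * ((W : ℝ) - m - 1)) := by
  have h1 := choose_one' m W (by omega)
  have h2 := choose_one' (m + 1) W hW
  push_cast at h2
  have h3 : (W.choose (m + 1 + 1) : ℝ) * ((m : ℝ) + 1 + 1) * (m + 1) =
      W.choose (m + 1) * ((m : ℝ) + 1) * ((W : ℝ) - (m + 1)) := by rw [h2]; ring
  rw [h1] at h3
  have h4 : (W.choose (m + 2) : ℝ) = W.choose (m + 1 + 1) := rfl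
  rw [h4]
  linear_combination h3

lemma avg_one (m W : ℕ) (hm : 1 ≤ m) (hW : m ≤ W) :
    (W.choose (m + 1) : ℝ) ≤ W.choose m * ((W : ℝ) / m) := by
  have h1 := choose_one' m W hW
  have hm' : (1 : ℝ) ≤ m := by exact_mod_cast hm
  have hW' : (m : ℝ) ≤ W := by exact_mod_cast hW
  have hc : (0 : ℝ) ≤ W.choose m := Nat.cast_nonneg _
  have h2 : (W.choose (m + 1) : ℝ) = W.choose m * (((W : ℝ) - m) / (m + 1)) := by
    rw [← mul_div_assoc, eq_div_iff (by positivity)]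
    exact h1
  rw [h2]
  apply mul_le_mul_of_nonneg_left _ hc
  rw [div_le_div_iff₀ (by positivity) (by positivity)]
  nlinarith

theorem moment_one (m W : ℕ) (hm : 1 ≤ m) (hW : m ≤ W)
    (hG1 : ∀ a i : ℕ, i ≤ m → ∑ f ∈ SM m W, (gap f i).choose a = W.choose (m + a))
    (s t : Fin m) :
    ∑ z ∈ ZZ m W, ((gap (z.1 s) t : ℝ) + dg (z.1 s) t / 2) * dg (z.2 t) s ≤
      (ZZ m W).card * (4 * ((W : ℝ) / m) ^ 2) := by
  have hg : ∀ i ≤ m, ∑ f ∈ SM m W, (gap f i : ℝ) = W.choose (m + 1) := by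
    intro i hi
    have h := hG1 1 i hi
    simp only [Nat.choose_one_right] at h
    exact_mod_cast h
  have hS := sm_card m W hG1
  have h0 := zz_sum m W (fun f => (gap f t : ℝ) + dg f t / 2) (fun f => dg f s) s t
  rw [h0, zz_card m W hm, hS]
  have hA1 : ∑ f ∈ SM m W, ((gap f t : ℝ) + dg f t / 2) = 2 * W.choose (m + 1) := by
    simp only [dg]
    rw [Finset.sum_add_distrib, ← Finset.sum_div, Finset.sum_add_distrib, hg t (by omega),
      hg (t + 1) (by omega)]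
    ring
  have hA2 : ∑ f ∈ SM m W, dg f s = 2 * W.choose (m + 1) := by
    simp only [dg]
    rw [Finset.sum_add_distrib, hg s (by omega), hg (s + 1) (by omega)]
    ring
  rw [hA1, hA2]
  have hav := avg_one m W hm hW
  have hc : (0 : ℝ) ≤ W.choose (m + 1) := Nat.cast_nonneg _
  have hm' : (1 : ℝ) ≤ m := by exact_mod_cast hm
  have h2 : (W.choose (m + 1) : ℝ) ^ 2 ≤ (W.choose m * ((W : ℝ) / m)) ^ 2 :=
    pow_le_pow_left₀ hc hav 2
  have hT : (0 : ℝ) ≤ ((W.choose m : ℝ) ^ (m - 1)) ^ 2 := by positivity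
  calc ((W.choose m : ℝ) ^ (m - 1)) ^ 2 * (2 * (W.choose (m + 1) : ℝ) * (2 * W.choose (m + 1))) =
      ((W.choose m : ℝ) ^ (m - 1)) ^ 2 * (4 * (W.choose (m + 1) : ℝ) ^ 2) := by ring
    _ ≤ ((W.choose m : ℝ) ^ (m - 1)) ^ 2 * (4 * (W.choose m * ((W : ℝ) / m)) ^ 2) := by
        apply mul_le_mul_of_nonneg_left _ hT
        linarith
    _ = _ := by ring

theorem moment_two (m W : ℕ) (hm : 1 ≤ m) (hW : m + 2 ≤ W)
    (hG1 : ∀ a i : ℕ, i ≤ m → ∑ f ∈ SM m W, (gap f i).choose a = W.choose (m + a))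
    (hG2 : ∀ i j : ℕ, i < j → j ≤ m → ∑ f ∈ SM m W, gap f i * gap f j = W.choose (m + 2))
    (s t : Fin m) :
    (ZZ m W).card * (6 * (((W : ℝ) - m) * ((W : ℝ) - m - 1)) / (((m : ℝ) + 1) * (m + 2))) ^ 2 ≤
      ∑ z ∈ ZZ m W, (dg (z.1 s) t * dg (z.2 t) s) ^ 2 := by
  have hS := sm_card m W hG1
  have hm' : (1 : ℝ) ≤ m := by exact_mod_cast hm
  have hW' : (m : ℝ) + 2 ≤ W := by exact_mod_cast hW
  set Y : ℝ := 6 * (((W : ℝ) - m) * ((W : ℝ) - m - 1)) / (((m : ℝ) + 1) * (m + 2)) with hY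
  have hY0 : 0 ≤ Y := by
    apply div_nonneg
    · apply mul_nonneg (by norm_num)
      exact mul_nonneg (by linarith) (by linarith)
    · positivity
  have h2 := choose_two' m W (by omega)
  have hYc : (W.choose m : ℝ) * Y = 6 * W.choose (m + 2) := by
    rw [hY, mul_div_assoc', div_eq_iff (by positivity)]
    linear_combination (-6) * h2
  have hg2 : ∀ i ≤ m, ∑ f ∈ SM m W, ((gap f i).choose 2 : ℝ) = W.choose (m + 2) := by
    intro i hi
    exact_mod_cast hG1 2 i hi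
  have hgg : ∀ i, i + 1 ≤ m → ∑ f ∈ SM m W, ((gap f i : ℝ) * gap f (i + 1)) =
      W.choose (m + 2) := by
    intro i hi
    exact_mod_cast hG2 i (i + 1) (Nat.lt_succ_self i) hi
  have hch : ∀ a : ℕ, 2 * ((a.choose 2 : ℕ) : ℝ) ≤ (a : ℝ) ^ 2 := by
    intro a
    rw [Nat.cast_choose_two]
    have : (0 : ℝ) ≤ a := Nat.cast_nonneg a
    nlinarith
  have hA : ∀ i, i + 1 ≤ m → (W.choose m : ℝ) * Y ≤ ∑ f ∈ SM m W, (dg f i) ^ 2 := by
    intro i hi
    rw [hYc]
    calc (6 : ℝ) * W.choose (m + 2) = ∑ f ∈ SM m W, (2 * ((gap f i).choose 2 : ℝ) +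
          2 * ((gap f (i + 1)).choose 2 : ℝ) + 2 * ((gap f i : ℝ) * gap f (i + 1))) := by
          rw [Finset.sum_add_distrib, Finset.sum_add_distrib, ← Finset.mul_sum, ← Finset.mul_sum,
            ← Finset.mul_sum, hg2 i (by omega), hg2 (i + 1) hi, hgg i hi]
          ring
      _ ≤ ∑ f ∈ SM m W, (dg f i) ^ 2 := by
          apply Finset.sum_le_sum
          intro f _
          have h3 := hch (gap f i)
          have h4 := hch (gap f (i + 1))
          unfold dg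
          nlinarith
  have h0 := zz_sum m W (fun f => (dg f t) ^ 2) (fun f => (dg f s) ^ 2) s t
  have h5 : ∑ z ∈ ZZ m W, (dg (z.1 s) t * dg (z.2 t) s) ^ 2 =
      ∑ z ∈ ZZ m W, (dg (z.1 s) t) ^ 2 * (dg (z.2 t) s) ^ 2 :=
    Finset.sum_congr rfl fun z _ => by rw [mul_pow]
  rw [h5, h0, zz_card m W hm, hS, mul_assoc]
  apply mul_le_mul_of_nonneg_left _ (by positivity)
  have hSY : 0 ≤ (W.choose m : ℝ) * Y := mul_nonneg (Nat.cast_nonneg _) hY0
  calc (W.choose m : ℝ) ^ 2 * Y ^ 2 = (W.choose m * Y) * (W.choose m * Y) := by ring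
    _ ≤ _ := mul_le_mul (hA t (by omega)) (hA s (by omega)) hSY
        (Finset.sum_nonneg fun f _ => sq_nonneg _)

theorem moment_four (m W : ℕ) (hm : 1 ≤ m) (hW : m ≤ W)
    (hG3 : ∀ A i : ℕ, i ≤ m → ∑ f ∈ SM m W, (gap f i : ℝ) ^ A ≤
      (A.factorial : ℝ) * (W.choose m : ℝ) * ((W : ℝ) / m) ^ A)
    (s t : Fin m) :
    ∑ z ∈ ZZ m W, (dg (z.1 s) t * dg (z.2 t) s) ^ 4 ≤
      (ZZ m W).card * (147456 * ((W : ℝ) / m) ^ 8) := by
  have hS : (W.choose m : ℝ) ≤ (SM m W).card := by exact_mod_cast sm_ge m W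
  have hm' : (1 : ℝ) ≤ m := by exact_mod_cast hm
  have hy : (0 : ℝ) ≤ (W : ℝ) / m := by positivity
  have hA : ∀ i, i + 1 ≤ m → ∑ f ∈ SM m W, (dg f i) ^ 4 ≤
      384 * ((SM m W).card : ℝ) * ((W : ℝ) / m) ^ 4 := by
    intro i hi
    have h1 := hG3 4 i (by omega)
    have h2 := hG3 4 (i + 1) hi
    have hf : ((4).factorial : ℝ) = 24 := by norm_num [Nat.factorial]
    rw [hf] at h1 h2
    calc ∑ f ∈ SM m W, (dg f i) ^ 4 ≤
        ∑ f ∈ SM m W, 8 * ((gap f i : ℝ) ^ 4 + (gap f (i + 1) : ℝ) ^ 4) := by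
          apply Finset.sum_le_sum
          intro f _
          have h3 := add_pow_le (a := (gap f i : ℝ)) (b := (gap f (i + 1) : ℝ))
            (Nat.cast_nonneg _) (Nat.cast_nonneg _) 4
          unfold dg
          norm_num at h3
          exact h3
      _ = 8 * (∑ f ∈ SM m W, (gap f i : ℝ) ^ 4 + ∑ f ∈ SM m W, (gap f (i + 1) : ℝ) ^ 4) := by
          rw [← Finset.mul_sum, Finset.sum_add_distrib]
      _ ≤ 8 * (24 * (W.choose m : ℝ) * ((W : ℝ) / m) ^ 4 +
            24 * (W.choose m : ℝ) * ((W : ℝ) / m) ^ 4) := by linarith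
      _ = 384 * (W.choose m : ℝ) * ((W : ℝ) / m) ^ 4 := by ring
      _ ≤ 384 * ((SM m W).card : ℝ) * ((W : ℝ) / m) ^ 4 := by
          apply mul_le_mul_of_nonneg_right _ (by positivity)
          linarith
  have h0 := zz_sum m W (fun f => (dg f t) ^ 4) (fun f => (dg f s) ^ 4) s t
  have h5 : ∑ z ∈ ZZ m W, (dg (z.1 s) t * dg (z.2 t) s) ^ 4 =
      ∑ z ∈ ZZ m W, (dg (z.1 s) t) ^ 4 * (dg (z.2 t) s) ^ 4 :=
    Finset.sum_congr rfl fun z _ => by rw [mul_pow]
  rw [h5, h0, zz_card m W hm, mul_assoc]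
  apply mul_le_mul_of_nonneg_left _ (by positivity)
  calc _ ≤ (384 * ((SM m W).card : ℝ) * ((W : ℝ) / m) ^ 4) *
        (384 * ((SM m W).card : ℝ) * ((W : ℝ) / m) ^ 4) :=
        mul_le_mul (hA t (by omega)) (hA s (by omega))
          (Finset.sum_nonneg fun f _ => by positivity) (by positivity)
    _ = _ := by ring

end

end Pool.Agent.Helper124.SW.J14a
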