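import Pool.Agent.Helper124.SWDefs

namespace Pool.Agent.Helper124.SW.J14b

open Finset Classical

noncomputable section

/-! ### independence -/

theorem sum_pi1 {m : ℕ} {β : Type} (S : Finset β) (t : Fin m) (d : β → ℝ) :
    ∑ Y ∈ Fintype.piFinset (fun _ : Fin m => S), d (Y t) = (∑ g ∈ S, d g) * (S.card : ℝ) ^ (m - 1) := by
  have h := Finset.prod_univ_sum (fun _ : Fin m => S) (fun (i : Fin m) (g : β) => if i = t then d g else (1 : ℝ))
  have h1 : ∀ Y : Fin m → β, ∏ i, (if i = t then d (Y i) else (1 : ℝ)) = d (Y t) := by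
    intro Y
    rw [Finset.prod_ite_eq' Finset.univ t (fun i => d (Y i))]
    simp
  simp only [h1] at h
  rw [← h]
  have h2 : ∀ i : Fin m, ∑ g ∈ S, (if i = t then d g else (1 : ℝ)) =
      if i = t then (∑ g ∈ S, d g) else (S.card : ℝ) := by
    intro i
    by_cases hi : i = t
    · simp [hi]
    · simp [hi]
  rw [Finset.prod_congr rfl fun i _ => h2 i, ← Finset.mul_prod_erase Finset.univ _ (Finset.mem_univ t),
    if_pos rfl]
  congr 1
  rw [Finset.prod_congr rfl (fun i hi => if_neg (Finset.ne_of_mem_erase hi)), Finset.prod_const,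
    Finset.card_erase_of_mem (Finset.mem_univ t), Finset.card_univ, Fintype.card_fin]

theorem sum_pi2 {m : ℕ} {β : Type} (S : Finset β) (s s' : Fin m) (hss : s ≠ s') (a b : β → ℝ) :
    ∑ X ∈ Fintype.piFinset (fun _ : Fin m => S), a (X s) * b (X s') =
      (∑ g ∈ S, a g) * (∑ g ∈ S, b g) * (S.card : ℝ) ^ (m - 2) := by
  have h := Finset.prod_univ_sum (fun _ : Fin m => S)
    (fun (i : Fin m) (g : β) => if i = s then a g else if i = s' then b g else (1 : ℝ))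
  have h1 : ∀ Y : Fin m → β, ∏ i, (if i = s then a (Y i) else if i = s' then b (Y i) else (1 : ℝ)) =
      a (Y s) * b (Y s') := by
    intro Y
    rw [← Finset.mul_prod_erase Finset.univ _ (Finset.mem_univ s), if_pos rfl]
    congr 1
    have hm : s' ∈ Finset.univ.erase s := Finset.mem_erase.2 ⟨hss.symm, Finset.mem_univ _⟩
    rw [← Finset.mul_prod_erase _ _ hm, if_neg hss.symm, if_pos rfl]
    rw [Finset.prod_eq_one, mul_one]
    intro i hi
    rw [Finset.mem_erase, Finset.mem_erase] at hi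
    rw [if_neg hi.2.1, if_neg hi.1]
  simp only [h1] at h
  rw [← h]
  have h2 : ∀ i : Fin m, ∑ g ∈ S, (if i = s then a g else if i = s' then b g else (1 : ℝ)) =
      if i = s then (∑ g ∈ S, a g) else if i = s' then (∑ g ∈ S, b g) else (S.card : ℝ) := by
    intro i
    by_cases hi : i = s
    · simp [hi]
    · by_cases hi' : i = s'
      · simp [hi', hss.symm]
      · simp [hi, hi']
  have hm : s' ∈ Finset.univ.erase s := Finset.mem_erase.2 ⟨hss.symm, Finset.mem_univ _⟩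
  rw [Finset.prod_congr rfl fun i _ => h2 i, ← Finset.mul_prod_erase Finset.univ _ (Finset.mem_univ s),
    if_pos rfl, ← Finset.mul_prod_erase _ _ hm, if_neg hss.symm, if_pos rfl, ← mul_assoc]
  congr 1
  have h3 : ∀ i ∈ (Finset.univ.erase s).erase s', (if i = s then (∑ g ∈ S, a g) else
      if i = s' then (∑ g ∈ S, b g) else (S.card : ℝ)) = (S.card : ℝ) := by
    intro i hi
    rw [Finset.mem_erase, Finset.mem_erase] at hi
    rw [if_neg hi.2.1, if_neg hi.1]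
  rw [Finset.prod_congr rfl h3, Finset.prod_const, Finset.card_erase_of_mem hm,
    Finset.card_erase_of_mem (Finset.mem_univ s), Finset.card_univ, Fintype.card_fin]
  rfl

theorem sum_pi3 {m : ℕ} {β : Type} (S : Finset β) (s s' t : Fin m) (hss : s ≠ s') (a b d : β → ℝ) :
    ∑ X ∈ Fintype.piFinset (fun _ : Fin m => S), ∑ Y ∈ Fintype.piFinset (fun _ : Fin m => S),
      a (X s) * b (X s') * d (Y t) =
      (∑ g ∈ S, a g) * (∑ g ∈ S, b g) * (∑ g ∈ S, d g) *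
        ((S.card : ℝ) ^ (m - 2) * (S.card : ℝ) ^ (m - 1)) := by
  have h1 : ∀ X : Fin m → β, ∑ Y ∈ Fintype.piFinset (fun _ : Fin m => S),
      a (X s) * b (X s') * d (Y t) = a (X s) * b (X s') * ((∑ g ∈ S, d g) * (S.card : ℝ) ^ (m - 1)) := by
    intro X
    rw [← Finset.mul_sum, sum_pi1]
  simp only [h1]
  rw [← Finset.sum_mul, sum_pi2 S s s' hss]
  ring

theorem core {m : ℕ} {β : Type} (S : Finset β) (s s' t : Fin m) (hss : s ≠ s')
    (D0 Dg Dg' A0 Af B0 Bf : β → ℝ) (τ y : ℝ) (hτ : 0 ≤ τ) (hy : 0 ≤ y)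
    (pD0 : ∀ g, 0 ≤ D0 g) (pDg : ∀ g, 0 ≤ Dg g) (pDg' : ∀ g, 0 ≤ Dg' g) (pA0 : ∀ g, 0 ≤ A0 g)
    (pAf : ∀ g, 0 ≤ Af g) (pB0 : ∀ g, 0 ≤ B0 g) (pBf : ∀ g, 0 ≤ Bf g)
    (h1 : ∑ g ∈ S, D0 g ≤ S.card * y ^ 2) (h2 : ∑ g ∈ S, A0 g ≤ S.card * (2 * y))
    (h3 : ∑ g ∈ S, B0 g ≤ S.card * (2 * y)) (h4 : ∑ g ∈ S, D0 g * Dg g ≤ S.card * (486 * y ^ 3))
    (h5 : ∑ g ∈ S, D0 g * Dg' g ≤ S.card * (486 * y ^ 3))
    (h6 : ∑ g ∈ S, D0 g * Dg g * Dg' g ≤ S.card * (5832 * y ^ 4))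
    (h7 : ∑ g ∈ S, A0 g * Af g ≤ S.card * (32 * y ^ 2))
    (h8 : ∑ g ∈ S, B0 g * Bf g ≤ S.card * (32 * y ^ 2)) :
    ∑ X ∈ Fintype.piFinset (fun _ : Fin m => S), ∑ Y ∈ Fintype.piFinset (fun _ : Fin m => S),
      D0 (Y t) * A0 (X s) * B0 (X s') * ((1 + τ * (Af (X s) * Dg (Y t))) *
        (1 + τ * (Bf (X s') * Dg' (Y t)))) ≤
      ((S.card : ℝ) ^ m * (S.card : ℝ) ^ m) *
        (y ^ 4 * (4 + 10000000 * (τ * y ^ 2 + (τ * y ^ 2) ^ 2))) := by
  have hexp : ∀ X Y : Fin m → β, D0 (Y t) * A0 (X s) * B0 (X s') * ((1 + τ * (Af (X s) * Dg (Y t))) *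
        (1 + τ * (Bf (X s') * Dg' (Y t)))) =
      A0 (X s) * B0 (X s') * D0 (Y t) +
      τ * ((A0 (X s) * Af (X s)) * B0 (X s') * (D0 (Y t) * Dg (Y t))) +
      τ * (A0 (X s) * (B0 (X s') * Bf (X s')) * (D0 (Y t) * Dg' (Y t))) +
      τ ^ 2 * ((A0 (X s) * Af (X s)) * (B0 (X s') * Bf (X s')) * (D0 (Y t) * Dg (Y t) * Dg' (Y t))) := by
    intro X Y; ring
  have e0 : ∑ X ∈ Fintype.piFinset (fun _ : Fin m => S), ∑ Y ∈ Fintype.piFinset (fun _ : Fin m => S),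
      D0 (Y t) * A0 (X s) * B0 (X s') * ((1 + τ * (Af (X s) * Dg (Y t))) *
        (1 + τ * (Bf (X s') * Dg' (Y t)))) =
      (∑ X ∈ Fintype.piFinset (fun _ : Fin m => S), ∑ Y ∈ Fintype.piFinset (fun _ : Fin m => S),
        A0 (X s) * B0 (X s') * D0 (Y t)) +
      τ * (∑ X ∈ Fintype.piFinset (fun _ : Fin m => S), ∑ Y ∈ Fintype.piFinset (fun _ : Fin m => S),
        ((A0 (X s) * Af (X s)) * B0 (X s') * (D0 (Y t) * Dg (Y t)))) +
      τ * (∑ X ∈ Fintype.piFinset (fun _ : Fin m => S), ∑ Y ∈ Fintype.piFinset (fun _ : Fin m => S),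
        (A0 (X s) * (B0 (X s') * Bf (X s')) * (D0 (Y t) * Dg' (Y t)))) +
      τ ^ 2 * (∑ X ∈ Fintype.piFinset (fun _ : Fin m => S), ∑ Y ∈ Fintype.piFinset (fun _ : Fin m => S),
        ((A0 (X s) * Af (X s)) * (B0 (X s') * Bf (X s')) * (D0 (Y t) * Dg (Y t) * Dg' (Y t)))) := by
    simp only [hexp, Finset.sum_add_distrib, Finset.mul_sum]
  rw [e0]
  have e1 := sum_pi3 S s s' t hss A0 B0 D0
  have e2 := sum_pi3 S s s' t hss (fun g => A0 g * Af g) B0 (fun g => D0 g * Dg g)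
  have e3 := sum_pi3 S s s' t hss A0 (fun g => B0 g * Bf g) (fun g => D0 g * Dg' g)
  have e4 := sum_pi3 S s s' t hss (fun g => A0 g * Af g) (fun g => B0 g * Bf g)
    (fun g => D0 g * Dg g * Dg' g)
  simp only at e1 e2 e3 e4
  rw [e1, e2, e3, e4]
  have hN : (0:ℝ) ≤ S.card := Nat.cast_nonneg _
  have hm : 2 ≤ m := by
    have h1 := s.2
    have h2 := s'.2
    have h3 : s.val ≠ s'.val := fun h => hss (Fin.ext h)
    omega
  have hpow : (S.card : ℝ) ^ m * (S.card : ℝ) ^ m =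
      (S.card : ℝ) ^ 3 * ((S.card : ℝ) ^ (m - 2) * (S.card : ℝ) ^ (m - 1)) := by
    obtain ⟨k, rfl⟩ : ∃ k, m = k + 2 := ⟨m - 2, by omega⟩
    rw [show k + 2 - 2 = k by omega, show k + 2 - 1 = k + 1 by omega]
    ring
  rw [hpow]
  generalize hN' : (S.card : ℝ) = N at *
  have hQ : 0 ≤ N ^ (m - 2) * N ^ (m - 1) := by positivity
  generalize hQ' : N ^ (m - 2) * N ^ (m - 1) = Q at *
  have sA0 : 0 ≤ ∑ g ∈ S, A0 g := Finset.sum_nonneg fun g _ => pA0 g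
  have sB0 : 0 ≤ ∑ g ∈ S, B0 g := Finset.sum_nonneg fun g _ => pB0 g
  have sD0 : 0 ≤ ∑ g ∈ S, D0 g := Finset.sum_nonneg fun g _ => pD0 g
  have sD1 : 0 ≤ ∑ g ∈ S, D0 g * Dg g := Finset.sum_nonneg fun g _ => mul_nonneg (pD0 g) (pDg g)
  have sD2 : 0 ≤ ∑ g ∈ S, D0 g * Dg' g := Finset.sum_nonneg fun g _ => mul_nonneg (pD0 g) (pDg' g)
  have sD3 : 0 ≤ ∑ g ∈ S, D0 g * Dg g * Dg' g :=
    Finset.sum_nonneg fun g _ => mul_nonneg (mul_nonneg (pD0 g) (pDg g)) (pDg' g)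
  have sA1 : 0 ≤ ∑ g ∈ S, A0 g * Af g := Finset.sum_nonneg fun g _ => mul_nonneg (pA0 g) (pAf g)
  have sB1 : 0 ≤ ∑ g ∈ S, B0 g * Bf g := Finset.sum_nonneg fun g _ => mul_nonneg (pB0 g) (pBf g)
  have m3 : ∀ a b d a' b' d' : ℝ, 0 ≤ a → 0 ≤ b → 0 ≤ d → a ≤ a' → b ≤ b' → d ≤ d' →
      a * b * d ≤ a' * b' * d' := by
    intro a b d a' b' d' ha hb hd h1 h2 h3
    exact mul_le_mul (mul_le_mul h1 h2 hb (ha.trans h1)) h3 hd (mul_nonneg (ha.trans h1) (hb.trans h2))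
  have t1 := mul_le_mul_of_nonneg_right (m3 _ _ _ _ _ _ sA0 sB0 sD0 h2 h3 h1) hQ
  have t2 := mul_le_mul_of_nonneg_left (mul_le_mul_of_nonneg_right (m3 _ _ _ _ _ _ sA1 sB0 sD1 h7 h3 h4) hQ) hτ
  have t3 := mul_le_mul_of_nonneg_left (mul_le_mul_of_nonneg_right (m3 _ _ _ _ _ _ sA0 sB1 sD2 h2 h8 h5) hQ) hτ
  have t4 := mul_le_mul_of_nonneg_left (mul_le_mul_of_nonneg_right (m3 _ _ _ _ _ _ sA1 sB1 sD3 h7 h8 h6) hQ)
    (sq_nonneg τ)
  refine (add_le_add (add_le_add (add_le_add t1 t2) t3) t4).trans ?_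
  have p1 : 0 ≤ N ^ 3 * Q * (τ * y ^ 6) := by positivity
  have p2 : 0 ≤ N ^ 3 * Q * (τ ^ 2 * y ^ 8) := by positivity
  have e5 : N * (2 * y) * (N * (2 * y)) * (N * y ^ 2) * Q +
      τ * (N * (32 * y ^ 2) * (N * (2 * y)) * (N * (486 * y ^ 3)) * Q) +
      τ * (N * (2 * y) * (N * (32 * y ^ 2)) * (N * (486 * y ^ 3)) * Q) +
      τ ^ 2 * (N * (32 * y ^ 2) * (N * (32 * y ^ 2)) * (N * (5832 * y ^ 4)) * Q) =
      4 * (N ^ 3 * Q * y ^ 4) + 62208 * (N ^ 3 * Q * (τ * y ^ 6)) +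
        5971968 * (N ^ 3 * Q * (τ ^ 2 * y ^ 8)) := by ring
  have e6 : N ^ 3 * Q * (y ^ 4 * (4 + 10000000 * (τ * y ^ 2 + (τ * y ^ 2) ^ 2))) =
      4 * (N ^ 3 * Q * y ^ 4) + 10000000 * (N ^ 3 * Q * (τ * y ^ 6)) +
        10000000 * (N ^ 3 * Q * (τ ^ 2 * y ^ 8)) := by ring
  rw [e5, e6]
  linarith

/-! ### moments -/

theorem pow_add2 (a b : ℝ) (ha : 0 ≤ a) (hb : 0 ≤ b) (A : ℕ) :
    (a + b) ^ A ≤ 2 ^ A * (a ^ A + b ^ A) := by
  have h : a + b ≤ 2 * max a b := by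
    linarith [le_max_left a b, le_max_right a b]
  calc (a + b) ^ A ≤ (2 * max a b) ^ A := pow_le_pow_left₀ (by positivity) h A
    _ = 2 ^ A * (max a b) ^ A := by rw [mul_pow]
    _ ≤ 2 ^ A * (a ^ A + b ^ A) := by
      apply mul_le_mul_of_nonneg_left _ (by positivity)
      rcases max_choice a b with h | h
      · rw [h]; linarith [pow_nonneg hb A]
      · rw [h]; linarith [pow_nonneg ha A]

theorem pow_add3 (a b c : ℝ) (ha : 0 ≤ a) (hb : 0 ≤ b) (hc : 0 ≤ c) (A : ℕ) :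
    (a + b + c) ^ A ≤ 3 ^ A * (a ^ A + b ^ A + c ^ A) := by
  have h : a + b + c ≤ 3 * max (max a b) c := by
    have h1 := le_max_left (max a b) c
    have h2 := le_max_right (max a b) c
    have h3 := le_max_left a b
    have h4 := le_max_right a b
    linarith
  calc (a + b + c) ^ A ≤ (3 * max (max a b) c) ^ A := pow_le_pow_left₀ (by positivity) h A
    _ = 3 ^ A * (max (max a b) c) ^ A := by rw [mul_pow]
    _ ≤ 3 ^ A * (a ^ A + b ^ A + c ^ A) := by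
      apply mul_le_mul_of_nonneg_left _ (by positivity)
      have pa := pow_nonneg ha A
      have pb := pow_nonneg hb A
      have pc := pow_nonneg hc A
      rcases max_choice (max a b) c with h | h
      · rw [h]
        rcases max_choice a b with h | h
        · rw [h]; linarith
        · rw [h]; linarith
      · rw [h]; linarith

section mom

variable {m W : ℕ}

theorem gapR_nonneg (f : Fin m → Fin W) (i : ℕ) : (0:ℝ) ≤ gap f i := Nat.cast_nonneg _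

theorem dg_nonneg (f : Fin m → Fin W) (i : ℕ) : 0 ≤ dg f i :=
  add_nonneg (gapR_nonneg f i) (gapR_nonneg f (i + 1))

theorem choose_two_le (n : ℕ) : ((n.choose 2 : ℕ) : ℝ) ≤ (n : ℝ) ^ 2 / 2 := by
  rw [Nat.cast_choose_two]
  have : (0:ℝ) ≤ n := Nat.cast_nonneg _
  nlinarith

theorem mom_single (y : ℝ) (hy : y = (W : ℝ) / m)
    (hm : ∀ A i : ℕ, i ≤ m → ∑ f ∈ SM m W, (gap f i : ℝ) ^ A ≤
      (A.factorial : ℝ) * (W.choose m : ℝ) * ((W : ℝ) / m) ^ A)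
    (hc : ((SM m W).card : ℝ) = (W.choose m : ℝ)) (i : ℕ) (hi : i ≤ m) :
    ∑ f ∈ SM m W, (gap f i : ℝ) ≤ (SM m W).card * y := by
  have h := hm 1 i hi
  simp only [pow_one, Nat.factorial_one, Nat.cast_one, one_mul] at h
  rw [hc, hy]
  exact h

theorem mom_choose (y : ℝ) (hy : y = (W : ℝ) / m)
    (hm : ∀ A i : ℕ, i ≤ m → ∑ f ∈ SM m W, (gap f i : ℝ) ^ A ≤
      (A.factorial : ℝ) * (W.choose m : ℝ) * ((W : ℝ) / m) ^ A)
    (hc : ((SM m W).card : ℝ) = (W.choose m : ℝ)) (i : ℕ) (hi : i ≤ m) :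
    ∑ f ∈ SM m W, (((gap f i).choose 2 : ℕ) : ℝ) ≤ (SM m W).card * y ^ 2 := by
  have h := hm 2 i hi
  calc ∑ f ∈ SM m W, (((gap f i).choose 2 : ℕ) : ℝ) ≤ ∑ f ∈ SM m W, (gap f i : ℝ) ^ 2 / 2 :=
        Finset.sum_le_sum fun f _ => choose_two_le _
    _ = (∑ f ∈ SM m W, (gap f i : ℝ) ^ 2) / 2 := by rw [Finset.sum_div]
    _ ≤ ((Nat.factorial 2 : ℕ) * (W.choose m : ℝ) * ((W : ℝ) / m) ^ 2) / 2 := by
        apply div_le_div_of_nonneg_right h (by norm_num)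
    _ = (SM m W).card * y ^ 2 := by
        rw [hc, hy, Nat.factorial_two]
        push_cast
        ring

theorem mom3 (y : ℝ) (hy : y = (W : ℝ) / m)
    (hm : ∀ A i : ℕ, i ≤ m → ∑ f ∈ SM m W, (gap f i : ℝ) ^ A ≤
      (A.factorial : ℝ) * (W.choose m : ℝ) * ((W : ℝ) / m) ^ A)
    (hc : ((SM m W).card : ℝ) = (W.choose m : ℝ)) (i j k : ℕ) (hi : i ≤ m) (hj : j ≤ m) (hk : k ≤ m)
    (A : ℕ) :
    ∑ f ∈ SM m W, ((gap f i : ℝ) + gap f j + gap f k) ^ A ≤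
      (SM m W).card * (3 ^ A * 3 * (A.factorial : ℝ) * y ^ A) := by
  calc ∑ f ∈ SM m W, ((gap f i : ℝ) + gap f j + gap f k) ^ A
      ≤ ∑ f ∈ SM m W, 3 ^ A * ((gap f i : ℝ) ^ A + (gap f j : ℝ) ^ A + (gap f k : ℝ) ^ A) :=
        Finset.sum_le_sum fun f _ => pow_add3 _ _ _ (gapR_nonneg f i) (gapR_nonneg f j) (gapR_nonneg f k) A
    _ = 3 ^ A * (∑ f ∈ SM m W, (gap f i : ℝ) ^ A + ∑ f ∈ SM m W, (gap f j : ℝ) ^ A +
          ∑ f ∈ SM m W, (gap f k : ℝ) ^ A) := by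
        rw [← Finset.mul_sum, Finset.sum_add_distrib, Finset.sum_add_distrib]
    _ ≤ 3 ^ A * (3 * ((A.factorial : ℝ) * (W.choose m : ℝ) * ((W : ℝ) / m) ^ A)) := by
        apply mul_le_mul_of_nonneg_left _ (by positivity)
        linarith [hm A i hi, hm A j hj, hm A k hk]
    _ = _ := by rw [hc, hy]; ring

theorem mom2 (y : ℝ) (hy : y = (W : ℝ) / m)
    (hm : ∀ A i : ℕ, i ≤ m → ∑ f ∈ SM m W, (gap f i : ℝ) ^ A ≤
      (A.factorial : ℝ) * (W.choose m : ℝ) * ((W : ℝ) / m) ^ A)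
    (hc : ((SM m W).card : ℝ) = (W.choose m : ℝ)) (i : ℕ) (hi : i + 1 ≤ m) :
    ∑ f ∈ SM m W, (dg f i) ^ 2 ≤ (SM m W).card * (16 * y ^ 2) := by
  calc ∑ f ∈ SM m W, (dg f i) ^ 2
      ≤ ∑ f ∈ SM m W, 2 ^ 2 * ((gap f i : ℝ) ^ 2 + (gap f (i + 1) : ℝ) ^ 2) :=
        Finset.sum_le_sum fun f _ => pow_add2 _ _ (gapR_nonneg f i) (gapR_nonneg f (i + 1)) 2
    _ = 2 ^ 2 * (∑ f ∈ SM m W, (gap f i : ℝ) ^ 2 + ∑ f ∈ SM m W, (gap f (i + 1) : ℝ) ^ 2) := by
        rw [← Finset.mul_sum, Finset.sum_add_distrib]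
    _ ≤ 2 ^ 2 * (2 * (((Nat.factorial 2 : ℕ) : ℝ) * (W.choose m : ℝ) * ((W : ℝ) / m) ^ 2)) := by
        apply mul_le_mul_of_nonneg_left _ (by positivity)
        linarith [hm 2 i (by omega), hm 2 (i + 1) hi]
    _ = _ := by rw [hc, hy, Nat.factorial_two]; push_cast; ring

end mom

theorem card_ZZ (m W : ℕ) : ((ZZ m W).card : ℝ) = ((SM m W).card : ℝ) ^ m * ((SM m W).card : ℝ) ^ m := by
  unfold ZZ
  rw [Finset.card_product, Fintype.card_piFinset_const]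
  push_cast
  ring

theorem card_SM (m W : ℕ)
    (hcomb : ∀ a i : ℕ, i ≤ m → ∑ f ∈ SM m W, (gap f i).choose a = W.choose (m + a)) :
    ((SM m W).card : ℝ) = (W.choose m : ℝ) := by
  have h := hcomb 0 0 (Nat.zero_le _)
  simp only [Nat.choose_zero_right, Finset.sum_const, smul_eq_mul, mul_one, add_zero] at h
  exact_mod_cast h

theorem moment_row : ∃ C : ℝ, 0 ≤ C ∧ ∀ (m W : ℕ) (τ : ℝ), 1 ≤ m → m ≤ W → 0 ≤ τ →
    (∀ a i : ℕ, i ≤ m → ∑ f ∈ SM m W, (gap f i).choose a = W.choose (m + a)) →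
    (∀ A i : ℕ, i ≤ m → ∑ f ∈ SM m W, (gap f i : ℝ) ^ A ≤
      (A.factorial : ℝ) * (W.choose m : ℝ) * ((W : ℝ) / m) ^ A) →
    ∀ s s' t : Fin m, s.val + 1 = s'.val →
    ∑ z ∈ ZZ m W, ((gap (z.2 t) (s' + 1)).choose 2 : ℝ) *
      ((gap (z.1 s) t : ℝ) + dg (z.1 s) t / 2) * ((gap (z.1 s') (t + 1) : ℝ) + dg (z.1 s') t / 2) *
      ((1 + τ * (dg (z.1 s) t * dg (z.2 t) s)) * (1 + τ * (dg (z.1 s') t * dg (z.2 t) s'))) ≤
    (ZZ m W).card * (((W : ℝ) / m) ^ 4 *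
      (4 + C * (τ * ((W : ℝ) / m) ^ 2 + (τ * ((W : ℝ) / m) ^ 2) ^ 2))) := by
  refine ⟨10000000, by norm_num, ?_⟩
  intro m W τ hm1 hmW hτ hcomb hmom s s' t hs
  have hc := card_SM m W hcomb
  have hy0 : (0:ℝ) ≤ (W : ℝ) / m := by positivity
  have hss : s ≠ s' := by
    intro h; rw [h] at hs; omega
  have hs'm : s'.val + 1 ≤ m := s'.2
  have htm : t.val + 1 ≤ m := t.2
  have hsm : s.val + 1 ≤ m := s.2
  rw [card_ZZ]
  unfold ZZ
  rw [Finset.sum_product]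
  have hG : ∀ g : Fin m → Fin W, dg g s ≤ (gap g s : ℝ) + gap g s' + gap g (s' + 1) := by
    intro g
    unfold dg
    rw [hs]
    linarith [gapR_nonneg g (s' + 1)]
  have hG' : ∀ g : Fin m → Fin W, dg g s' ≤ (gap g s : ℝ) + gap g s' + gap g (s' + 1) := by
    intro g
    unfold dg
    linarith [gapR_nonneg g s]
  have hD : ∀ g : Fin m → Fin W, (((gap g (s' + 1)).choose 2 : ℕ) : ℝ) ≤
      ((gap g s : ℝ) + gap g s' + gap g (s' + 1)) ^ 2 := by
    intro g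
    refine (choose_two_le _).trans ?_
    have h1 := gapR_nonneg g s
    have h2 := gapR_nonneg g s'
    have h3 := gapR_nonneg g (s' + 1)
    have h4 : (gap g (s' + 1) : ℝ) ^ 2 ≤ ((gap g s : ℝ) + gap g s' + gap g (s' + 1)) ^ 2 :=
      pow_le_pow_left₀ h3 (by linarith) 2
    have h5 : (0:ℝ) ≤ (gap g (s' + 1) : ℝ) ^ 2 := sq_nonneg _
    linarith
  have hpos : ∀ g : Fin m → Fin W, (0:ℝ) ≤ (gap g s : ℝ) + gap g s' + gap g (s' + 1) := by
    intro g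
    linarith [gapR_nonneg g s, gapR_nonneg g s', gapR_nonneg g (s' + 1)]
  have key := core (SM m W) s s' t hss (fun g => (((gap g (s' + 1)).choose 2 : ℕ) : ℝ))
    (fun g => dg g s) (fun g => dg g s') (fun f => (gap f t : ℝ) + dg f t / 2) (fun f => dg f t)
    (fun f => (gap f (t + 1) : ℝ) + dg f t / 2) (fun f => dg f t) τ ((W : ℝ) / m) hτ hy0
    (fun g => Nat.cast_nonneg _) (fun g => dg_nonneg g s) (fun g => dg_nonneg g s')
    (fun g => add_nonneg (gapR_nonneg g t) (div_nonneg (dg_nonneg g t) (by norm_num)))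
    (fun g => dg_nonneg g t)
    (fun g => add_nonneg (gapR_nonneg g (t + 1)) (div_nonneg (dg_nonneg g t) (by norm_num)))
    (fun g => dg_nonneg g t)
    (mom_choose _ rfl hmom hc (s' + 1) hs'm) ?_ ?_ ?_ ?_ ?_ ?_ ?_
  · exact key
  · have h1 := mom_single _ rfl hmom hc t.val (by omega)
    have h2 := mom_single _ rfl hmom hc (t.val + 1) htm
    have h3 : ∑ f ∈ SM m W, ((gap f t : ℝ) + dg f t / 2) =
        (3 / 2) * ∑ f ∈ SM m W, (gap f t : ℝ) + (1 / 2) * ∑ f ∈ SM m W, (gap f (t.val + 1) : ℝ) := by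
      rw [Finset.mul_sum, Finset.mul_sum, ← Finset.sum_add_distrib]
      refine Finset.sum_congr rfl fun f _ => ?_
      unfold dg; ring
    rw [h3]
    linarith
  · have h1 := mom_single _ rfl hmom hc t.val (by omega)
    have h2 := mom_single _ rfl hmom hc (t.val + 1) htm
    have h3 : ∑ f ∈ SM m W, ((gap f (t.val + 1) : ℝ) + dg f t / 2) =
        (1 / 2) * ∑ f ∈ SM m W, (gap f t : ℝ) + (3 / 2) * ∑ f ∈ SM m W, (gap f (t.val + 1) : ℝ) := by
      rw [Finset.mul_sum, Finset.mul_sum, ← Finset.sum_add_distrib]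
      refine Finset.sum_congr rfl fun f _ => ?_
      unfold dg; ring
    rw [h3]
    linarith
  · have h1 := mom3 _ rfl hmom hc s.val s'.val (s'.val + 1) (by omega) (by omega) hs'm 3
    refine le_trans (Finset.sum_le_sum fun g _ => ?_) (h1.trans (le_of_eq ?_))
    · rw [pow_succ]
      exact mul_le_mul (hD g) (hG g) (dg_nonneg g s) (sq_nonneg _)
    · norm_num [Nat.factorial]
  · have h1 := mom3 _ rfl hmom hc s.val s'.val (s'.val + 1) (by omega) (by omega) hs'm 3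
    refine le_trans (Finset.sum_le_sum fun g _ => ?_) (h1.trans (le_of_eq ?_))
    · rw [pow_succ]
      exact mul_le_mul (hD g) (hG' g) (dg_nonneg g s') (sq_nonneg _)
    · norm_num [Nat.factorial]
  · have h1 := mom3 _ rfl hmom hc s.val s'.val (s'.val + 1) (by omega) (by omega) hs'm 4
    refine le_trans (Finset.sum_le_sum fun g _ => ?_) (h1.trans (le_of_eq ?_))
    · rw [pow_succ, pow_succ]
      exact mul_le_mul (mul_le_mul (hD g) (hG g) (dg_nonneg g s) (sq_nonneg _)) (hG' g) (dg_nonneg g s')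
        (mul_nonneg (sq_nonneg _) (hpos g))
    · norm_num [Nat.factorial]
  · have h1 := mom2 _ rfl hmom hc t.val htm
    calc ∑ g ∈ SM m W, ((gap g t : ℝ) + dg g t / 2) * dg g t ≤ ∑ g ∈ SM m W, 2 * (dg g t) ^ 2 := by
          refine Finset.sum_le_sum fun g _ => ?_
          have h2 : (gap g t : ℝ) ≤ dg g t := by
            unfold dg; linarith [gapR_nonneg g (t.val + 1)]
          have h3 := dg_nonneg g t
          nlinarith
      _ = 2 * ∑ g ∈ SM m W, (dg g t) ^ 2 := by rw [Finset.mul_sum]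
      _ ≤ 2 * ((SM m W).card * (16 * ((W : ℝ) / m) ^ 2)) := by linarith
      _ = _ := by ring
  · have h1 := mom2 _ rfl hmom hc t.val htm
    calc ∑ g ∈ SM m W, ((gap g (t.val + 1) : ℝ) + dg g t / 2) * dg g t ≤ ∑ g ∈ SM m W, 2 * (dg g t) ^ 2 := by
          refine Finset.sum_le_sum fun g _ => ?_
          have h2 : (gap g (t.val + 1) : ℝ) ≤ dg g t := by
            unfold dg; linarith [gapR_nonneg g t.val]
          have h3 := dg_nonneg g t
          nlinarith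
      _ = 2 * ∑ g ∈ SM m W, (dg g t) ^ 2 := by rw [Finset.mul_sum]
      _ ≤ 2 * ((SM m W).card * (16 * ((W : ℝ) / m) ^ 2)) := by linarith
      _ = _ := by ring

theorem moment_col : ∃ C : ℝ, 0 ≤ C ∧ ∀ (m W : ℕ) (τ : ℝ), 1 ≤ m → m ≤ W → 0 ≤ τ →
    (∀ a i : ℕ, i ≤ m → ∑ f ∈ SM m W, (gap f i).choose a = W.choose (m + a)) →
    (∀ A i : ℕ, i ≤ m → ∑ f ∈ SM m W, (gap f i : ℝ) ^ A ≤
      (A.factorial : ℝ) * (W.choose m : ℝ) * ((W : ℝ) / m) ^ A) →
    ∀ s t t' : Fin m, t.val + 1 = t'.val →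
    ∑ z ∈ ZZ m W, ((gap (z.1 s) (t' + 1)).choose 2 : ℝ) * dg (z.2 t) s * dg (z.2 t') s * (3 / 4) *
      ((1 + τ * (dg (z.1 s) t * dg (z.2 t) s)) * (1 + τ * (dg (z.1 s) t' * dg (z.2 t') s))) ≤
    (ZZ m W).card * (((W : ℝ) / m) ^ 4 *
      (3 + C * (τ * ((W : ℝ) / m) ^ 2 + (τ * ((W : ℝ) / m) ^ 2) ^ 2))) := by
  refine ⟨10000000, by norm_num, ?_⟩
  intro m W τ hm1 hmW hτ hcomb hmom s t t' ht
  have hc := card_SM m W hcomb
  have hy0 : (0:ℝ) ≤ (W : ℝ) / m := by positivity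
  have htt : t ≠ t' := by
    intro h; rw [h] at ht; omega
  have ht'm : t'.val + 1 ≤ m := t'.2
  have htm : t.val + 1 ≤ m := t.2
  have hsm : s.val + 1 ≤ m := s.2
  rw [card_ZZ]
  unfold ZZ
  rw [Finset.sum_product, Finset.sum_comm]
  have hG : ∀ g : Fin m → Fin W, dg g t ≤ (gap g t : ℝ) + gap g t' + gap g (t' + 1) := by
    intro g
    unfold dg
    rw [ht]
    linarith [gapR_nonneg g (t' + 1)]
  have hG' : ∀ g : Fin m → Fin W, dg g t' ≤ (gap g t : ℝ) + gap g t' + gap g (t' + 1) := by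
    intro g
    unfold dg
    linarith [gapR_nonneg g t]
  have hD : ∀ g : Fin m → Fin W, (((gap g (t' + 1)).choose 2 : ℕ) : ℝ) ≤
      ((gap g t : ℝ) + gap g t' + gap g (t' + 1)) ^ 2 := by
    intro g
    refine (choose_two_le _).trans ?_
    have h1 := gapR_nonneg g t
    have h2 := gapR_nonneg g t'
    have h3 := gapR_nonneg g (t' + 1)
    have h4 : (gap g (t' + 1) : ℝ) ^ 2 ≤ ((gap g t : ℝ) + gap g t' + gap g (t' + 1)) ^ 2 :=
      pow_le_pow_left₀ h3 (by linarith) 2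
    have h5 : (0:ℝ) ≤ (gap g (t' + 1) : ℝ) ^ 2 := sq_nonneg _
    linarith
  have hpos : ∀ g : Fin m → Fin W, (0:ℝ) ≤ (gap g t : ℝ) + gap g t' + gap g (t' + 1) := by
    intro g
    linarith [gapR_nonneg g t, gapR_nonneg g t', gapR_nonneg g (t' + 1)]
  have hsingle : ∑ f ∈ SM m W, dg f s ≤ (SM m W).card * (2 * ((W : ℝ) / m)) := by
    have h1 := mom_single _ rfl hmom hc s.val (by omega)
    have h2 := mom_single _ rfl hmom hc (s.val + 1) hsm
    have h3 : ∑ f ∈ SM m W, dg f s =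
        ∑ f ∈ SM m W, (gap f s : ℝ) + ∑ f ∈ SM m W, (gap f (s.val + 1) : ℝ) := by
      rw [← Finset.sum_add_distrib]
      rfl
    rw [h3]
    linarith
  have hsq : ∑ g ∈ SM m W, dg g s * dg g s ≤ (SM m W).card * (32 * ((W : ℝ) / m) ^ 2) := by
    have h1 := mom2 _ rfl hmom hc s.val hsm
    have h2 : ∑ g ∈ SM m W, dg g s * dg g s = ∑ g ∈ SM m W, (dg g s) ^ 2 :=
      Finset.sum_congr rfl fun g _ => by ring
    rw [h2]
    refine h1.trans ?_
    have : (0:ℝ) ≤ (SM m W).card * ((W : ℝ) / m) ^ 2 := by positivity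
    linarith
  have key := core (SM m W) t t' s htt (fun g => (((gap g (t' + 1)).choose 2 : ℕ) : ℝ))
    (fun g => dg g t) (fun g => dg g t') (fun f => dg f s) (fun f => dg f s)
    (fun f => dg f s) (fun f => dg f s) τ ((W : ℝ) / m) hτ hy0
    (fun g => Nat.cast_nonneg _) (fun g => dg_nonneg g t) (fun g => dg_nonneg g t')
    (fun g => dg_nonneg g s) (fun g => dg_nonneg g s) (fun g => dg_nonneg g s)
    (fun g => dg_nonneg g s)
    (mom_choose _ rfl hmom hc (t' + 1) ht'm) hsingle hsingle ?_ ?_ ?_ hsq hsq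
  · have h34 := mul_le_mul_of_nonneg_left key (show (0:ℝ) ≤ 3 / 4 by norm_num)
    refine le_trans (le_of_eq ?_) (h34.trans ?_)
    · rw [Finset.mul_sum]
      refine Finset.sum_congr rfl fun X _ => ?_
      rw [Finset.mul_sum]
      refine Finset.sum_congr rfl fun Y _ => ?_
      ring
    · have hN : (0:ℝ) ≤ ((SM m W).card : ℝ) ^ m * ((SM m W).card : ℝ) ^ m := by positivity
      have hr : (0:ℝ) ≤ ((SM m W).card : ℝ) ^ m * ((SM m W).card : ℝ) ^ m * (((W : ℝ) / m) ^ 4 *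
          (τ * ((W : ℝ) / m) ^ 2 + (τ * ((W : ℝ) / m) ^ 2) ^ 2)) := by positivity
      linarith
  · have h1 := mom3 _ rfl hmom hc t.val t'.val (t'.val + 1) (by omega) (by omega) ht'm 3
    refine le_trans (Finset.sum_le_sum fun g _ => ?_) (h1.trans (le_of_eq ?_))
    · rw [pow_succ]
      exact mul_le_mul (hD g) (hG g) (dg_nonneg g t) (sq_nonneg _)
    · norm_num [Nat.factorial]
  · have h1 := mom3 _ rfl hmom hc t.val t'.val (t'.val + 1) (by omega) (by omega) ht'm 3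
    refine le_trans (Finset.sum_le_sum fun g _ => ?_) (h1.trans (le_of_eq ?_))
    · rw [pow_succ]
      exact mul_le_mul (hD g) (hG' g) (dg_nonneg g t') (sq_nonneg _)
    · norm_num [Nat.factorial]
  · have h1 := mom3 _ rfl hmom hc t.val t'.val (t'.val + 1) (by omega) (by omega) ht'm 4
    refine le_trans (Finset.sum_le_sum fun g _ => ?_) (h1.trans (le_of_eq ?_))
    · rw [pow_succ, pow_succ]
      exact mul_le_mul (mul_le_mul (hD g) (hG g) (dg_nonneg g t) (sq_nonneg _)) (hG' g) (dg_nonneg g t')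
        (mul_nonneg (sq_nonneg _) (hpos g))
    · norm_num [Nat.factorial]

end

end Pool.Agent.Helper124.SW.J14b
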