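import Pool.Agent.Helper124.SWDefs

namespace Pool.Agent.Helper124.SW.J15

open Finset Classical

noncomputable section

lemma sum_bool_fun {C : Type*} [Fintype C] (g : C → Bool → ℝ) :
    ∑ L : C → Bool, ∏ c, g c (L c) = ∏ c, (g c true + g c false) := by
  have h := Finset.sum_prod_piFinset (Finset.univ : Finset Bool) g
  rw [Fintype.piFinset_univ] at h
  rw [h]
  apply Finset.prod_congr rfl
  intro c _
  rw [Fintype.sum_bool]

lemma two_cells {C : Type*} [Fintype C] (w : C → Bool → ℝ) (hw : ∀ c l, 0 < w c l) (a b : C)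
    (hab : a ≠ b) (α β : Bool → ℝ) :
    ∑ L : C → Bool, (∏ c, w c (L c)) * (α (L a) * β (L b)) =
      (∏ c, (w c true + w c false)) *
       (((w a true * α true + w a false * α false) / (w a true + w a false)) *
        ((w b true * β true + w b false * β false) / (w b true + w b false))) := by
  have hpos : ∀ c, w c true + w c false ≠ 0 := fun c => (add_pos (hw c _) (hw c _)).ne'
  have e1 : ∀ L : C → Bool, (∏ c, w c (L c)) * (α (L a) * β (L b)) =
      ∏ c, w c (L c) * (if c = a then α (L c) else if c = b then β (L c) else 1) := by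
    intro L
    rw [Finset.prod_mul_distrib]
    congr 1
    symm
    rw [Finset.prod_eq_mul a b hab (fun c _ hc => by rw [if_neg hc.1, if_neg hc.2])
      (fun h => absurd (Finset.mem_univ _) h) (fun h => absurd (Finset.mem_univ _) h)]
    rw [if_pos rfl, if_neg hab.symm, if_pos rfl]
  simp only [e1]
  rw [sum_bool_fun (fun c l => w c l * (if c = a then α l else if c = b then β l else 1))]
  have e2 : ∀ c, (w c true * (if c = a then α true else if c = b then β true else 1) +
      w c false * (if c = a then α false else if c = b then β false else 1)) =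
      (w c true + w c false) * (if c = a then (w a true * α true + w a false * α false) /
        (w a true + w a false) else if c = b then (w b true * β true + w b false * β false) /
        (w b true + w b false) else 1) := by
    intro c
    by_cases h1 : c = a
    · subst h1
      simp only [if_true]
      have := hpos c
      field_simp
    · by_cases h2 : c = b
      · subst h2
        simp only [if_neg h1, if_true]
        have := hpos c
        field_simp
      · simp only [if_neg h1, if_neg h2, mul_one]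
  simp only [e2]
  rw [Finset.prod_mul_distrib]
  congr 1
  rw [Finset.prod_eq_mul a b hab (fun c _ hc => by rw [if_neg hc.1, if_neg hc.2])
      (fun h => absurd (Finset.mem_univ _) h) (fun h => absurd (Finset.mem_univ _) h)]
  rw [if_pos rfl, if_neg hab.symm, if_pos rfl]

lemma key_exp {t : ℝ} (ht : 0 ≤ t) : 2 ≤ (1 + t) * (1 + Real.exp (-2 * t)) := by
  have hd : ∀ x : ℝ, HasDerivAt (fun t : ℝ => (1 + t) * (1 + Real.exp (-2 * t)))
      (1 * (1 + Real.exp (-2 * x)) + (1 + x) * (Real.exp (-2 * x) * (-2))) x := by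
    intro x
    have h1 : HasDerivAt (fun t : ℝ => 1 + t) 1 x := (hasDerivAt_id x).const_add 1
    have h2 : HasDerivAt (fun t : ℝ => -2 * t) (-2) x := by
      simpa using (hasDerivAt_id x).const_mul (-2 : ℝ)
    have h3 := (h2.exp).const_add 1
    exact h1.mul h3
  have hm : MonotoneOn (fun t : ℝ => (1 + t) * (1 + Real.exp (-2 * t))) (Set.Ici 0) := by
    apply monotoneOn_of_deriv_nonneg (convex_Ici 0)
    · exact fun x _ => (hd x).continuousAt.continuousWithinAt
    · exact fun x _ => (hd x).differentiableAt.differentiableWithinAt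
    · intro x hx
      rw [interior_Ici, Set.mem_Ioi] at hx
      rw [(hd x).deriv]
      have h1 : 2 * x + 1 ≤ Real.exp (2 * x) := Real.add_one_le_exp _
      have h2 : Real.exp (-2 * x) * Real.exp (2 * x) = 1 := by
        rw [← Real.exp_add]; simp
      have h3 : 0 < Real.exp (-2 * x) := Real.exp_pos _
      nlinarith
  have h := hm (Set.mem_Ici.2 le_rfl) (Set.mem_Ici.2 ht) ht
  simp only [add_zero, mul_zero, Real.exp_zero, one_mul] at h
  linarith

lemma marg_bound {x y α0 α1 : ℝ} (hxy : x ≤ y) (h0 : 0 ≤ α0) (h1 : 0 ≤ α1) :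
    (Real.exp (-y) * α1 + Real.exp (-x) * α0) / (Real.exp (-y) + Real.exp (-x)) ≤
      (1 + (y - x) / 2) * ((α1 + α0) / 2) := by
  have hx := Real.exp_pos (-x)
  have hy := Real.exp_pos (-y)
  have hk := key_exp (t := (y - x) / 2) (by linarith)
  have e : Real.exp (-y) = Real.exp (-x) * Real.exp (-2 * ((y - x) / 2)) := by
    rw [← Real.exp_add]; congr 1; ring
  have hyx : Real.exp (-y) ≤ Real.exp (-x) := Real.exp_le_exp.2 (by linarith)
  rw [div_le_iff₀ (by linarith)]
  have h2 : 2 * Real.exp (-x) ≤ (1 + (y - x) / 2) * (Real.exp (-y) + Real.exp (-x)) := by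
    calc 2 * Real.exp (-x) ≤ ((1 + (y - x) / 2) * (1 + Real.exp (-2 * ((y - x) / 2)))) *
          Real.exp (-x) := mul_le_mul_of_nonneg_right hk hx.le
      _ = (1 + (y - x) / 2) * (Real.exp (-y) + Real.exp (-x)) := by rw [e]; ring
  have h3 : Real.exp (-y) * α1 + Real.exp (-x) * α0 ≤ Real.exp (-x) * (α1 + α0) := by
    have := mul_le_mul_of_nonneg_right hyx h1
    linarith
  have h4 : (2 * Real.exp (-x)) * ((α1 + α0) / 2) ≤
      ((1 + (y - x) / 2) * (Real.exp (-y) + Real.exp (-x))) * ((α1 + α0) / 2) :=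
    mul_le_mul_of_nonneg_right h2 (by linarith)
  linarith

lemma inner_step {C E : Type*} [Fintype C] (φ0 φ1 : C → ℝ) (h01 : ∀ c, φ0 c ≤ φ1 c)
    (Es : Finset E) (c1 c2 : E → C) (hne : ∀ e ∈ Es, c1 e ≠ c2 e) (α β : E → Bool → ℝ)
    (hα : ∀ e ∈ Es, ∀ l, 0 ≤ α e l) (hβ : ∀ e ∈ Es, ∀ l, 0 ≤ β e l) (T : ℝ) :
    2 ^ (Fintype.card C) * Real.exp (
      (∑ c, (-(φ0 c + φ1 c) / 2 + Real.log (Real.cosh ((φ1 c - φ0 c) / 2)))) -
        (∑ e ∈ Es, (1 + (φ1 (c1 e) - φ0 (c1 e)) / 2) * (1 + (φ1 (c2 e) - φ0 (c2 e)) / 2) *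
          ((α e true + α e false) / 2) * ((β e true + β e false) / 2)) - T) ≤
    ∑ L : C → Bool, Real.exp (-(∑ c, if L c = true then φ1 c else φ0 c) -
      (∑ e ∈ Es, α e (L (c1 e)) * β e (L (c2 e))) - T) := by
  set w : C → Bool → ℝ := fun c l => Real.exp (-(if l = true then φ1 c else φ0 c)) with hw
  have hwpos : ∀ c l, 0 < w c l := fun c l => Real.exp_pos _
  have hwt : ∀ c, w c true = Real.exp (-φ1 c) := fun c => by simp [hw]
  have hwf : ∀ c, w c false = Real.exp (-φ0 c) := fun c => by simp [hw]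
  set S : ℝ := ∏ c, (w c true + w c false) with hS
  have hSpos : 0 < S := Finset.prod_pos fun c _ => add_pos (hwpos c _) (hwpos c _)
  set W : (C → Bool) → ℝ := fun L => ∏ c, w c (L c) with hW
  have hWpos : ∀ L, 0 < W L := fun L => Finset.prod_pos fun c _ => hwpos c _
  have hWS : ∑ L : C → Bool, W L = S := sum_bool_fun w
  set Λ : (C → Bool) → ℝ := fun L => ∑ e ∈ Es, α e (L (c1 e)) * β e (L (c2 e)) with hΛ
  set B : ℝ := ∑ e ∈ Es, (1 + (φ1 (c1 e) - φ0 (c1 e)) / 2) * (1 + (φ1 (c2 e) - φ0 (c2 e)) / 2) *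
          ((α e true + α e false) / 2) * ((β e true + β e false) / 2) with hB
  -- the product
  have hSeq : S = 2 ^ (Fintype.card C) * Real.exp
      (∑ c, (-(φ0 c + φ1 c) / 2 + Real.log (Real.cosh ((φ1 c - φ0 c) / 2)))) := by
    rw [hS, Real.exp_sum, ← Finset.card_univ, ← Finset.prod_const, ← Finset.prod_mul_distrib]
    apply Finset.prod_congr rfl
    intro c _
    rw [hwt, hwf, Real.exp_add, Real.exp_log (Real.cosh_pos _), Real.cosh_eq]
    have e1 : Real.exp (-φ1 c) = Real.exp (-(φ0 c + φ1 c) / 2) * Real.exp (-((φ1 c - φ0 c) / 2)) := by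
      rw [← Real.exp_add]; congr 1; ring
    have e2 : Real.exp (-φ0 c) = Real.exp (-(φ0 c + φ1 c) / 2) * Real.exp ((φ1 c - φ0 c) / 2) := by
      rw [← Real.exp_add]; congr 1; ring
    rw [e1, e2]; ring
  -- Jensen
  have hJ := convexOn_exp.map_sum_le (t := (Finset.univ : Finset (C → Bool)))
    (w := fun L => W L / S) (p := fun L => -Λ L)
    (fun L _ => div_nonneg (hWpos L).le hSpos.le)
    (by rw [← Finset.sum_div, hWS, div_self hSpos.ne']) (fun L _ => Set.mem_univ _)
  simp only [smul_eq_mul] at hJ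
  have hmean : ∑ L : C → Bool, W L * Λ L ≤ S * B := by
    have e1 : ∑ L : C → Bool, W L * Λ L = ∑ e ∈ Es, ∑ L : C → Bool,
        W L * (α e (L (c1 e)) * β e (L (c2 e))) := by
      rw [Finset.sum_comm]
      apply Finset.sum_congr rfl
      intro L _
      rw [hΛ]
      simp only
      rw [Finset.mul_sum]
    rw [e1, hB, Finset.mul_sum]
    apply Finset.sum_le_sum
    intro e he
    rw [two_cells w hwpos (c1 e) (c2 e) (hne e he) (α e) (β e)]
    apply mul_le_mul_of_nonneg_left _ hSpos.le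
    rw [hwt, hwf, hwt, hwf]
    have m1 := marg_bound (h01 (c1 e)) (hα e he false) (hα e he true)
    have m2 := marg_bound (h01 (c2 e)) (hβ e he false) (hβ e he true)
    have n2 : 0 ≤ (Real.exp (-φ1 (c2 e)) * β e true + Real.exp (-φ0 (c2 e)) * β e false) /
        (Real.exp (-φ1 (c2 e)) + Real.exp (-φ0 (c2 e))) := by
      have h1 := hβ e he true
      have h2 := hβ e he false
      positivity
    have n1 : 0 ≤ (1 + (φ1 (c1 e) - φ0 (c1 e)) / 2) * ((α e true + α e false) / 2) := by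
      have h1 := hα e he true
      have h2 := hα e he false
      have h3 := h01 (c1 e)
      apply mul_nonneg <;> linarith
    calc _ ≤ ((1 + (φ1 (c1 e) - φ0 (c1 e)) / 2) * ((α e true + α e false) / 2)) *
          ((1 + (φ1 (c2 e) - φ0 (c2 e)) / 2) * ((β e true + β e false) / 2)) :=
          mul_le_mul m1 m2 n2 n1
      _ = _ := by ring
  have hexp : Real.exp (-B) ≤ ∑ L : C → Bool, W L / S * Real.exp (-Λ L) := by
    refine le_trans (Real.exp_le_exp.2 ?_) hJ
    have e1 : ∑ L : C → Bool, W L / S * -Λ L = -((∑ L : C → Bool, W L * Λ L) / S) := by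
      rw [Finset.sum_div, ← Finset.sum_neg_distrib]
      apply Finset.sum_congr rfl
      intro L _
      ring
    rw [e1, neg_le_neg_iff, div_le_iff₀ hSpos, mul_comm B]
    exact hmean
  have hfin : S * Real.exp (-B) ≤ ∑ L : C → Bool, W L * Real.exp (-Λ L) := by
    have h1 := mul_le_mul_of_nonneg_left hexp hSpos.le
    rw [Finset.mul_sum] at h1
    refine h1.trans (le_of_eq ?_)
    apply Finset.sum_congr rfl
    intro L _
    have := hSpos.ne'
    field_simp
  have hR : ∀ L : C → Bool, Real.exp (-(∑ c, if L c = true then φ1 c else φ0 c) - Λ L - T) =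
      Real.exp (-T) * (W L * Real.exp (-Λ L)) := by
    intro L
    have e1 : W L = Real.exp (-(∑ c, if L c = true then φ1 c else φ0 c)) := by
      rw [← Finset.sum_neg_distrib, Real.exp_sum]
    rw [e1, ← Real.exp_add, ← Real.exp_add]
    congr 1
    ring
  calc 2 ^ (Fintype.card C) * Real.exp (
      (∑ c, (-(φ0 c + φ1 c) / 2 + Real.log (Real.cosh ((φ1 c - φ0 c) / 2)))) - B - T)
      = Real.exp (-T) * (S * Real.exp (-B)) := by
        rw [hSeq, sub_sub, Real.exp_sub, Real.exp_add, Real.exp_neg, Real.exp_neg]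
        field_simp
    _ ≤ Real.exp (-T) * ∑ L : C → Bool, W L * Real.exp (-Λ L) :=
        mul_le_mul_of_nonneg_left hfin (Real.exp_pos _).le
    _ = ∑ L : C → Bool, Real.exp (-(∑ c, if L c = true then φ1 c else φ0 c) - Λ L - T) := by
        rw [Finset.mul_sum]
        exact Finset.sum_congr rfl fun L _ => (hR L).symm

/-- Jensen's inequality with exact averaging over independent labels.
`φ0 z c`, `φ1 z c` are the costs of the label `false`, `true` of the cell `c` in the position `z`;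
the interaction terms `e` depend on the labels of two different cells. -/
theorem jensen_tilt {C Z E : Type*} [Fintype C] (Zs : Finset Z) (hZ : Zs.Nonempty)
    (φ0 φ1 : Z → C → ℝ) (h01 : ∀ z ∈ Zs, ∀ c, φ0 z c ≤ φ1 z c) (Es : Finset E) (c1 c2 : E → C)
    (hne : ∀ e ∈ Es, c1 e ≠ c2 e) (α β : Z → E → Bool → ℝ)
    (hα : ∀ z ∈ Zs, ∀ e ∈ Es, ∀ l, 0 ≤ α z e l) (hβ : ∀ z ∈ Zs, ∀ e ∈ Es, ∀ l, 0 ≤ β z e l)
    (T : Z → ℝ) :
    (Zs.card : ℝ) * 2 ^ (Fintype.card C) * Real.exp ((Zs.card : ℝ)⁻¹ * ∑ z ∈ Zs,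
      ((∑ c, (-(φ0 z c + φ1 z c) / 2 + Real.log (Real.cosh ((φ1 z c - φ0 z c) / 2)))) -
        (∑ e ∈ Es, (1 + (φ1 z (c1 e) - φ0 z (c1 e)) / 2) * (1 + (φ1 z (c2 e) - φ0 z (c2 e)) / 2) *
          ((α z e true + α z e false) / 2) * ((β z e true + β z e false) / 2)) - T z)) ≤
    ∑ z ∈ Zs, ∑ L : C → Bool, Real.exp (-(∑ c, if L c = true then φ1 z c else φ0 z c) -
      (∑ e ∈ Es, α z e (L (c1 e)) * β z e (L (c2 e))) - T z) := by
  set Y : Z → ℝ := fun z => ((∑ c, (-(φ0 z c + φ1 z c) / 2 +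
        Real.log (Real.cosh ((φ1 z c - φ0 z c) / 2)))) -
        (∑ e ∈ Es, (1 + (φ1 z (c1 e) - φ0 z (c1 e)) / 2) * (1 + (φ1 z (c2 e) - φ0 z (c2 e)) / 2) *
          ((α z e true + α z e false) / 2) * ((β z e true + β z e false) / 2)) - T z) with hY
  have hcard : (0 : ℝ) < Zs.card := by exact_mod_cast Finset.card_pos.2 hZ
  have hJ := convexOn_exp.map_sum_le (t := Zs) (w := fun _ => (Zs.card : ℝ)⁻¹) (p := Y)
    (fun z _ => by positivity)
    (by rw [Finset.sum_const, nsmul_eq_mul, mul_inv_cancel₀ hcard.ne']) (fun z _ => Set.mem_univ _)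
  simp only [smul_eq_mul, ← Finset.mul_sum] at hJ
  have h1 : (Zs.card : ℝ) * Real.exp ((Zs.card : ℝ)⁻¹ * ∑ z ∈ Zs, Y z) ≤ ∑ z ∈ Zs, Real.exp (Y z) := by
    calc (Zs.card : ℝ) * Real.exp ((Zs.card : ℝ)⁻¹ * ∑ z ∈ Zs, Y z)
        ≤ (Zs.card : ℝ) * ((Zs.card : ℝ)⁻¹ * ∑ z ∈ Zs, Real.exp (Y z)) :=
          mul_le_mul_of_nonneg_left hJ hcard.le
      _ = ∑ z ∈ Zs, Real.exp (Y z) := by rw [← mul_assoc, mul_inv_cancel₀ hcard.ne', one_mul]
  calc (Zs.card : ℝ) * 2 ^ (Fintype.card C) * Real.exp ((Zs.card : ℝ)⁻¹ * ∑ z ∈ Zs, Y z)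
      = 2 ^ (Fintype.card C) * ((Zs.card : ℝ) * Real.exp ((Zs.card : ℝ)⁻¹ * ∑ z ∈ Zs, Y z)) := by
        ring
    _ ≤ 2 ^ (Fintype.card C) * ∑ z ∈ Zs, Real.exp (Y z) :=
        mul_le_mul_of_nonneg_left h1 (by positivity)
    _ = ∑ z ∈ Zs, 2 ^ (Fintype.card C) * Real.exp (Y z) := by rw [Finset.mul_sum]
    _ ≤ _ := Finset.sum_le_sum fun z hz => inner_step (φ0 z) (φ1 z) (h01 z hz) Es c1 c2 hne (α z) (β z)
        (hα z hz) (hβ z hz) (T z)

end

end Pool.Agent.Helper124.SW.J15
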