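import Pool.Agent.Helper124.SWDefs

namespace Pool.Agent.Helper124.SW.J17

open Finset Classical

noncomputable section

theorem zero_set_count (a b q t : ℕ) (i : Fin q) (P : Finset (Fin a)) (P' : Finset (Fin b))
    (hP : P.card = t) (hP' : P'.card = t) :
    ((univ : Finset (Fin a × Fin b → Fin q)).filter
      (fun c => ∀ z ∈ P ×ˢ P', c z ≠ i)).card = (q - 1) ^ (t ^ 2) * q ^ (a * b - t ^ 2) := by
  have h1 : ((univ : Finset (Fin a × Fin b → Fin q)).filter (fun c => ∀ z ∈ P ×ˢ P', c z ≠ i)) =
      Fintype.piFinset (fun z : Fin a × Fin b => if z ∈ P ×ˢ P' then univ.erase i else univ) := by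
    ext c
    simp only [mem_filter, mem_univ, true_and, Fintype.mem_piFinset]
    constructor
    · intro h z
      by_cases hz : z ∈ P ×ˢ P'
      · rw [if_pos hz]
        exact mem_erase.2 ⟨h z hz, mem_univ _⟩
      · rw [if_neg hz]
        exact mem_univ _
    · intro h z hz
      have := h z
      rw [if_pos hz] at this
      exact (mem_erase.1 this).1
  rw [h1, Fintype.card_piFinset]
  have h2 : ∀ z : Fin a × Fin b, ((if z ∈ P ×ˢ P' then (univ : Finset (Fin q)).erase i else univ).card) =
      if z ∈ P ×ˢ P' then q - 1 else q := by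
    intro z
    split_ifs
    · rw [card_erase_of_mem (mem_univ _), card_univ, Fintype.card_fin]
    · rw [card_univ, Fintype.card_fin]
  rw [Finset.prod_congr rfl (fun z _ => h2 z), Finset.prod_ite, prod_const, prod_const]
  have h3 : (univ.filter (fun z : Fin a × Fin b => z ∈ P ×ˢ P')) = P ×ˢ P' := by
    ext z; simp
  have h4 : (univ.filter (fun z : Fin a × Fin b => ¬ z ∈ P ×ˢ P')) = (P ×ˢ P')ᶜ := by
    ext z; simp
  rw [h3, h4, card_compl, card_product, hP, hP', Fintype.card_prod, Fintype.card_fin,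
    Fintype.card_fin, ← sq]

/-- sparse sets of a grid which meet all large combinatorial rectangles -/
theorem zero_set (a b q t : ℕ) (hq : 1 ≤ q)
    (h : q * (a * b) ^ t * (q - 1) ^ (t ^ 2) < q ^ (t ^ 2)) :
    ∃ Z : Finset (Fin a × Fin b), Z.card * q ≤ a * b ∧ ∀ P : Finset (Fin a), ∀ P' : Finset (Fin b),
      t ≤ P.card → t ≤ P'.card → ∃ z ∈ Z, z.1 ∈ P ∧ z.2 ∈ P' := by
  by_cases hta : t ≤ a
  swap
  · refine ⟨∅, by simp, fun P P' hP _ => ?_⟩
    have := card_le_univ P
    rw [Fintype.card_fin] at this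
    omega
  by_cases htb : t ≤ b
  swap
  · refine ⟨∅, by simp, fun P P' _ hP' => ?_⟩
    have := card_le_univ P'
    rw [Fintype.card_fin] at this
    omega
  have ht2 : t ^ 2 ≤ a * b := by
    rw [sq]
    exact Nat.mul_le_mul hta htb
  -- a good colouring
  have hgood : ∃ c : Fin a × Fin b → Fin q, ∀ i : Fin q, ∀ P ∈ powersetCard t (univ : Finset (Fin a)),
      ∀ P' ∈ powersetCard t (univ : Finset (Fin b)), ∃ z ∈ P ×ˢ P', c z = i := by
    by_contra hne
    push Not at hne
    have hcover : (univ : Finset (Fin a × Fin b → Fin q)) ⊆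
        (univ ×ˢ (powersetCard t (univ : Finset (Fin a)) ×ˢ powersetCard t (univ : Finset (Fin b)))).biUnion
          (fun x : Fin q × Finset (Fin a) × Finset (Fin b) =>
            (univ : Finset (Fin a × Fin b → Fin q)).filter (fun c => ∀ z ∈ x.2.1 ×ˢ x.2.2, c z ≠ x.1)) := by
      intro c _
      obtain ⟨i, P, hP, P', hP', hc⟩ := hne c
      rw [mem_biUnion]
      refine ⟨(i, P, P'), ?_, ?_⟩
      · rw [mem_product, mem_product]
        exact ⟨mem_univ _, hP, hP'⟩
      · rw [mem_filter]
        exact ⟨mem_univ _, hc⟩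
    have hcard := card_le_card hcover
    have hle := hcard.trans (card_biUnion_le_card_mul _ _ ((q - 1) ^ (t ^ 2) * q ^ (a * b - t ^ 2)) (by
      rintro ⟨i, P, P'⟩ hx
      rw [mem_product, mem_product] at hx
      simp only at hx
      exact (zero_set_count a b q t i P P' (mem_powersetCard.1 hx.2.1).2
        (mem_powersetCard.1 hx.2.2).2).le))
    rw [card_product, card_product, card_powersetCard, card_powersetCard, card_univ, card_univ,
      card_univ, card_univ, Fintype.card_fun, Fintype.card_prod, Fintype.card_fin, Fintype.card_fin,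
      Fintype.card_fin] at hle
    have hch : a.choose t * b.choose t ≤ (a * b) ^ t := by
      rw [mul_pow]
      exact Nat.mul_le_mul (Nat.choose_le_pow a t) (Nat.choose_le_pow b t)
    have hq0 : 0 < q ^ (a * b - t ^ 2) := Nat.pow_pos hq
    have h5 : q * (a.choose t * b.choose t) * ((q - 1) ^ (t ^ 2) * q ^ (a * b - t ^ 2)) < q ^ (a * b) := by
      calc q * (a.choose t * b.choose t) * ((q - 1) ^ (t ^ 2) * q ^ (a * b - t ^ 2))
          ≤ q * (a * b) ^ t * ((q - 1) ^ (t ^ 2) * q ^ (a * b - t ^ 2)) := by gcongr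
        _ = q * (a * b) ^ t * (q - 1) ^ (t ^ 2) * q ^ (a * b - t ^ 2) := by ring
        _ < q ^ (t ^ 2) * q ^ (a * b - t ^ 2) := Nat.mul_lt_mul_of_pos_right h hq0
        _ = q ^ (a * b) := by rw [← pow_add, Nat.add_sub_cancel' ht2]
    exact absurd (lt_of_le_of_lt hle h5) (lt_irrefl _)
  obtain ⟨c, hc⟩ := hgood
  have hcls : ∃ i : Fin q, ((univ : Finset (Fin a × Fin b)).filter (fun z => c z = i)).card * q ≤ a * b := by
    by_contra hne
    push Not at hne
    have hsum : ∑ i : Fin q, ((univ : Finset (Fin a × Fin b)).filter (fun z => c z = i)).card = a * b := by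
      have := (card_eq_sum_card_fiberwise (f := c) (s := (univ : Finset (Fin a × Fin b)))
        (t := (univ : Finset (Fin q))) (fun x _ => mem_coe.2 (mem_univ _))).symm
      rw [this, card_univ, Fintype.card_prod, Fintype.card_fin, Fintype.card_fin]
    have h6 : ∑ i : Fin q, (a * b) <
        ∑ i : Fin q, ((univ : Finset (Fin a × Fin b)).filter (fun z => c z = i)).card * q := by
      apply sum_lt_sum_of_nonempty
      · exact ⟨⟨0, hq⟩, mem_univ _⟩
      · intro i _
        exact hne i
    rw [sum_const, card_univ, Fintype.card_fin, smul_eq_mul, ← sum_mul, hsum, mul_comm] at h6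
    exact lt_irrefl _ h6
  obtain ⟨i, hi⟩ := hcls
  refine ⟨_, hi, fun P P' hP hP' => ?_⟩
  obtain ⟨P0, hP0, hP0c⟩ := exists_subset_card_eq hP
  obtain ⟨P1, hP1, hP1c⟩ := exists_subset_card_eq hP'
  obtain ⟨z, hz, hzi⟩ := hc i P0 (mem_powersetCard.2 ⟨subset_univ _, hP0c⟩) P1
    (mem_powersetCard.2 ⟨subset_univ _, hP1c⟩)
  rw [mem_product] at hz
  exact ⟨z, mem_filter.2 ⟨mem_univ _, hzi⟩, hP0 hz.1, hP1 hz.2⟩

end

end Pool.Agent.Helper124.SW.J17
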