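import Pool.Agent.Helper124.SWDefs

namespace Pool.Agent.Helper124.SW.J18

open Finset Classical

noncomputable section

theorem row_lemma (L t m : ℕ) (rr : Fin (m + 1) → ℕ) (hmono : StrictMono rr)
    (hlt : ∀ i : Fin m, rr i.castSucc < 2 ^ L) (hm : 2 * (L + 1) * t ≤ m) :
    ∃ u ≤ L, ∃ P : Finset (Fin (2 ^ (L - u))), t ≤ P.card ∧ ∀ α ∈ P, ∃ i : Fin m,
      α.val * 2 ^ u ≤ rr i.castSucc ∧ min (rr i.succ) (2 ^ L) ≤ (α.val + 2) * 2 ^ u := by
  set l : Fin m → ℕ := fun i => min (rr i.succ) (2 ^ L) - rr i.castSucc with hl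
  have hstep : ∀ i : Fin m, rr i.castSucc < rr i.succ := fun i => hmono Fin.castSucc_lt_succ
  have hl1 : ∀ i, 1 ≤ l i := by
    intro i
    have h1 := hstep i
    have h2 := hlt i
    simp only [hl]
    have : rr i.castSucc < min (rr i.succ) (2 ^ L) := lt_min h1 h2
    omega
  have hl2 : ∀ i, l i ≤ 2 ^ L := by
    intro i
    simp only [hl]
    exact (Nat.sub_le _ _).trans (min_le_right _ _)
  have hl3 : ∀ i, rr i.castSucc + l i = min (rr i.succ) (2 ^ L) := by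
    intro i
    have h1 := hstep i
    have h2 := hlt i
    simp only [hl]
    have : rr i.castSucc < min (rr i.succ) (2 ^ L) := lt_min h1 h2
    omega
  have hcl : ∀ i, Nat.clog 2 (l i) ≤ L := by
    intro i
    exact Nat.clog_le_of_le_pow (hl2 i)
  have hcl1 : ∀ i, l i ≤ 2 ^ (Nat.clog 2 (l i)) := fun i => Nat.le_pow_clog (by norm_num) _
  have hcl2 : ∀ i, 2 ^ (Nat.clog 2 (l i)) < 2 * l i := by
    intro i
    rcases Nat.lt_or_ge 1 (l i) with h | h
    · have h1 := Nat.pow_pred_clog_lt_self (b := 2) (by norm_num) h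
      have h2 : 0 < Nat.clog 2 (l i) := Nat.clog_pos (by norm_num) h
      obtain ⟨k, hk⟩ := Nat.exists_eq_succ_of_ne_zero h2.ne'
      rw [hk] at h1 ⊢
      simp only [Nat.pred_succ, Nat.succ_eq_add_one] at h1 ⊢
      rw [pow_succ]
      have h1' : 2 ^ k < l i := h1
      omega
    · have : l i = 1 := le_antisymm h (hl1 i)
      rw [this]; simp
  -- pigeonhole on the scale
  obtain ⟨u, hu, hcard⟩ := Finset.exists_le_card_fiber_of_mul_le_card_of_maps_to
    (s := (univ : Finset (Fin m))) (t := Finset.range (L + 1)) (f := fun i => Nat.clog 2 (l i))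
    (n := 2 * t) (fun i _ => Finset.mem_range.2 (Nat.lt_succ_of_le (hcl i)))
    ⟨0, by simp⟩ (by rw [Finset.card_range, Finset.card_univ, Fintype.card_fin]; nlinarith)
  have huL : u ≤ L := Nat.lt_succ_iff.1 (Finset.mem_range.1 hu)
  set S := {x ∈ (univ : Finset (Fin m)) | Nat.clog 2 (l x) = u} with hS
  have hpos : 0 < 2 ^ u := by positivity
  have hα : ∀ i : Fin m, rr i.castSucc / 2 ^ u < 2 ^ (L - u) := by
    intro i
    apply Nat.div_lt_of_lt_mul
    rw [← pow_add, Nat.add_sub_cancel' huL]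
    exact hlt i
  let αf : Fin m → Fin (2 ^ (L - u)) := fun i => ⟨rr i.castSucc / 2 ^ u, hα i⟩
  let βf : Fin m → ℕ := fun i => 2 * rr i.castSucc / 2 ^ u
  have hβ : ∀ i ∈ S, ∀ j ∈ S, i < j → βf i < βf j := by
    intro i hi j hj hij
    have hiu : Nat.clog 2 (l i) = u := (Finset.mem_filter.1 hi).2
    have h1 := hcl2 i
    rw [hiu] at h1
    have h2 : rr i.succ ≤ rr j.castSucc := hmono.monotone (by
      rw [Fin.le_iff_val_le_val]
      simp
      exact hij)
    have h3 := hl3 i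
    have h4 : rr i.castSucc + l i ≤ rr j.castSucc := by
      rw [h3]; exact (min_le_left _ _).trans h2
    show 2 * rr i.castSucc / 2 ^ u < 2 * rr j.castSucc / 2 ^ u
    have h5 : 2 * rr i.castSucc + 2 ^ u ≤ 2 * rr j.castSucc := by omega
    calc 2 * rr i.castSucc / 2 ^ u < 2 * rr i.castSucc / 2 ^ u + 1 := Nat.lt_succ_self _
      _ = (2 * rr i.castSucc + 2 ^ u) / 2 ^ u := by rw [Nat.add_div_right _ hpos]
      _ ≤ 2 * rr j.castSucc / 2 ^ u := Nat.div_le_div_right h5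
  have hβinj : Set.InjOn βf (S : Set (Fin m)) := by
    intro i hi j hj hij
    rcases lt_trichotomy i j with h | h | h
    · exact absurd hij (hβ i hi j hj h).ne
    · exact h
    · exact absurd hij.symm (hβ j hj i hi h).ne
  have hhalf : ∀ i : Fin m, βf i = 2 * (αf i).val ∨ βf i = 2 * (αf i).val + 1 := by
    intro i
    show 2 * rr i.castSucc / 2 ^ u = 2 * (rr i.castSucc / 2 ^ u) ∨
      2 * rr i.castSucc / 2 ^ u = 2 * (rr i.castSucc / 2 ^ u) + 1
    have h1 : 2 * rr i.castSucc / 2 ^ u / 2 = rr i.castSucc / 2 ^ u := by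
      rw [Nat.div_div_eq_div_mul, Nat.mul_comm (2 ^ u) 2, Nat.mul_div_mul_left _ _ (by norm_num)]
    omega
  have himg : S.card ≤ 2 * (S.image αf).card := by
    refine Finset.card_le_mul_card_image S 2 ?_
    intro a _
    have : (S.filter fun x => αf x = a).card ≤ ({2 * a.val, 2 * a.val + 1} : Finset ℕ).card := by
      refine Finset.card_le_card_of_injOn βf ?_ ?_
      · intro x hx
        have hx' := (Finset.mem_filter.1 hx).2
        have := hhalf x
        rw [hx'] at this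
        simp only [Finset.coe_insert, Finset.coe_singleton, Set.mem_insert_iff,
          Set.mem_singleton_iff]
        exact this
      · intro x hx y hy hxy
        exact hβinj (Finset.mem_coe.2 (Finset.mem_filter.1 hx).1)
          (Finset.mem_coe.2 (Finset.mem_filter.1 hy).1) hxy
    refine this.trans ?_
    exact (Finset.card_insert_le _ _).trans (by simp)
  refine ⟨u, huL, S.image αf, ?_, ?_⟩
  · have : 2 * t ≤ S.card := hcard
    omega
  · intro a ha
    obtain ⟨i, hi, rfl⟩ := Finset.mem_image.1 ha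
    refine ⟨i, Nat.div_mul_le_self _ _, ?_⟩
    have hiu : Nat.clog 2 (l i) = u := (Finset.mem_filter.1 hi).2
    have h1 := hcl1 i
    rw [hiu] at h1
    have h3 := hl3 i
    have h4 : rr i.castSucc < (rr i.castSucc / 2 ^ u + 1) * 2 ^ u := by
      have := Nat.lt_succ_self (rr i.castSucc / 2 ^ u)
      exact (Nat.div_lt_iff_lt_mul hpos).1 this
    show min (rr i.succ) (2 ^ L) ≤ (rr i.castSucc / 2 ^ u + 2) * 2 ^ u
    rw [← h3]
    nlinarith

theorem cond_lemma (L ab q t : ℕ) (hab : ab ≤ 4 ^ L) (hq1 : 1 ≤ q)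
    (hqt : t = q * (2 * (L + 1))) (hqt' : q ≤ t) :
    q * ab ^ t * (q - 1) ^ (t ^ 2) < q ^ (t ^ 2) := by
  have hqR : (0:ℝ) < q := by exact_mod_cast hq1
  have key : ((q:ℝ) * (ab:ℝ) ^ t * ((q - 1 : ℕ):ℝ) ^ (t ^ 2)) < (q:ℝ) ^ (t ^ 2) := by
    have e1 : ((q - 1 : ℕ):ℝ) = q * (1 - 1 / q) := by
      rw [Nat.cast_sub hq1]; field_simp; simp
    have h0 : (0:ℝ) ≤ 1 - 1 / q := by
      rw [sub_nonneg, div_le_one hqR]; exact_mod_cast hq1
    have h1 : (1 - 1 / (q:ℝ)) ≤ Real.exp (-(1 / q)) := by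
      have := Real.add_one_le_exp (-(1 / (q:ℝ))); linarith
    have h2 : (1 - 1 / (q:ℝ)) ^ (t ^ 2) ≤ Real.exp (-(2 * (L + 1) * t)) := by
      calc (1 - 1 / (q:ℝ)) ^ (t ^ 2) ≤ (Real.exp (-(1 / q))) ^ (t ^ 2) :=
            pow_le_pow_left₀ h0 h1 _
        _ = Real.exp (-(2 * (L + 1) * t)) := by
            rw [← Real.exp_nat_mul]
            congr 1
            push_cast
            have : (t:ℝ) = q * (2 * (L + 1)) := by rw [hqt]; push_cast; ring
            have h3 : (t:ℝ) / q = 2 * (L + 1) := by rw [this]; field_simp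
            calc (t:ℝ) ^ 2 * -(1 / q) = -((t / q) * t) := by ring
              _ = _ := by rw [h3]
    have h3 : (ab:ℝ) ^ t ≤ Real.exp (2 * L * t) := by
      have h4 : (4:ℝ) ≤ Real.exp 2 := by
        have h5 : (2:ℝ) ≤ Real.exp 1 := by
          have := Real.add_one_le_exp (1:ℝ); linarith
        calc (4:ℝ) = 2 * 2 := by norm_num
          _ ≤ Real.exp 1 * Real.exp 1 := mul_le_mul h5 h5 (by norm_num) (Real.exp_pos _).le
          _ = Real.exp 2 := by rw [← Real.exp_add]; norm_num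
      have h6 : (ab:ℝ) ≤ Real.exp (2 * L) := by
        calc (ab:ℝ) ≤ ((4 ^ L : ℕ):ℝ) := by exact_mod_cast hab
          _ = (4:ℝ) ^ L := by push_cast; ring
          _ ≤ (Real.exp 2) ^ L := pow_le_pow_left₀ (by norm_num) h4 _
          _ = Real.exp (2 * L) := by rw [← Real.exp_nat_mul]; congr 1; ring
      calc (ab:ℝ) ^ t ≤ (Real.exp (2 * L)) ^ t := pow_le_pow_left₀ (by positivity) h6 _
        _ = Real.exp (2 * L * t) := by rw [← Real.exp_nat_mul]; congr 1; ring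
    have h7 : (q:ℝ) < Real.exp t := by
      have h8 := Real.add_one_le_exp (t:ℝ)
      have h9 : (q:ℝ) ≤ t := by exact_mod_cast hqt'
      linarith
    rw [e1, mul_pow]
    have hpow : (0:ℝ) < (q:ℝ) ^ (t ^ 2) := pow_pos hqR _
    have h10 : (q:ℝ) * (ab:ℝ) ^ t * (1 - 1 / (q:ℝ)) ^ (t ^ 2) < 1 := by
      calc (q:ℝ) * (ab:ℝ) ^ t * (1 - 1 / (q:ℝ)) ^ (t ^ 2)
          ≤ (q:ℝ) * Real.exp (2 * L * t) * Real.exp (-(2 * (L + 1) * t)) := by
            apply mul_le_mul (mul_le_mul_of_nonneg_left h3 hqR.le) h2 (pow_nonneg h0 _)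
              (mul_nonneg hqR.le (Real.exp_pos _).le)
        _ = (q:ℝ) * Real.exp (-(2 * t)) := by
            rw [mul_assoc, ← Real.exp_add]; congr 2; ring
        _ < Real.exp t * Real.exp (-(2 * t)) :=
            mul_lt_mul_of_pos_right h7 (Real.exp_pos _)
        _ = Real.exp (-t) := by rw [← Real.exp_add]; congr 1; ring
        _ ≤ 1 := by
            rw [Real.exp_le_one_iff]
            have : (0:ℝ) ≤ t := Nat.cast_nonneg t
            linarith
    calc (q:ℝ) * (ab:ℝ) ^ t * ((q:ℝ) ^ (t ^ 2) * (1 - 1 / (q:ℝ)) ^ (t ^ 2))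
        = ((q:ℝ) * (ab:ℝ) ^ t * (1 - 1 / (q:ℝ)) ^ (t ^ 2)) * (q:ℝ) ^ (t ^ 2) := by
          rw [mul_comm ((q:ℝ) ^ (t ^ 2)), ← mul_assoc]
      _ < 1 * (q:ℝ) ^ (t ^ 2) := mul_lt_mul_of_pos_right h10 hpow
      _ = (q:ℝ) ^ (t ^ 2) := one_mul _
  exact_mod_cast key

/-- dense matrices of size `2^L` without an `m × m` complete minor, `m` polynomial in `L` -/
theorem dense_matrix
    (hzero : ∀ a b q t : ℕ, 1 ≤ q → q * (a * b) ^ t * (q - 1) ^ (t ^ 2) < q ^ (t ^ 2) →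
      ∃ Z : Finset (Fin a × Fin b), Z.card * q ≤ a * b ∧ ∀ P : Finset (Fin a),
        ∀ P' : Finset (Fin b), t ≤ P.card → t ≤ P'.card → ∃ z ∈ Z, z.1 ∈ P ∧ z.2 ∈ P') :
    ∃ C : ℕ, ∀ m L : ℕ, C * (L + 1) ^ 4 ≤ m → ∃ M : Finset (Fin (2 ^ L) × Fin (2 ^ L)),
      (2 ^ L * 2 ^ L - M.card) * 8 ≤ 2 ^ L * 2 ^ L ∧ ¬ Minor m M := by
  refine ⟨128, ?_⟩
  intro m L hm
  set q : ℕ := 32 * (L + 1) ^ 2 with hq
  set t : ℕ := 64 * (L + 1) ^ 3 with ht
  have hq1 : 1 ≤ q := Nat.one_le_iff_ne_zero.2 (by rw [hq]; positivity)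
  have hZ : ∀ u v : ℕ, ∃ Z : Finset (Fin (2 ^ (L - u)) × Fin (2 ^ (L - v))),
      Z.card * q ≤ 2 ^ (L - u) * 2 ^ (L - v) ∧ ∀ P : Finset (Fin (2 ^ (L - u))),
        ∀ P' : Finset (Fin (2 ^ (L - v))), t ≤ P.card → t ≤ P'.card →
          ∃ z ∈ Z, z.1 ∈ P ∧ z.2 ∈ P' := by
    intro u v
    refine hzero _ _ q t hq1 ?_
    refine cond_lemma L _ q t ?_ hq1 (by rw [hq, ht]; ring) (by
      rw [hq, ht]
      have : 1 ≤ L + 1 := Nat.le_add_left 1 L
      nlinarith [Nat.zero_le ((L + 1) ^ 2), mul_le_mul_of_nonneg_left this (Nat.zero_le ((L + 1) ^ 2))])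
    calc 2 ^ (L - u) * 2 ^ (L - v) ≤ 2 ^ L * 2 ^ L :=
          Nat.mul_le_mul (Nat.pow_le_pow_right (by norm_num) (Nat.sub_le _ _))
            (Nat.pow_le_pow_right (by norm_num) (Nat.sub_le _ _))
      _ = 4 ^ L := by rw [← mul_pow]; norm_num
  choose Z hZc hZp using hZ
  let R : (u v : ℕ) → (Fin (2 ^ (L - u)) × Fin (2 ^ (L - v))) → Finset (Fin (2 ^ L) × Fin (2 ^ L)) :=
    fun u v p => univ.filter fun z => (p.1.val * 2 ^ u ≤ z.1.val ∧ z.1.val < (p.1.val + 2) * 2 ^ u) ∧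
      (p.2.val * 2 ^ v ≤ z.2.val ∧ z.2.val < (p.2.val + 2) * 2 ^ v)
  let B : Finset (Fin (2 ^ L) × Fin (2 ^ L)) :=
    (Finset.range (L + 1) ×ˢ Finset.range (L + 1)).biUnion fun uv =>
      (Z uv.1 uv.2).biUnion fun p => R uv.1 uv.2 p
  refine ⟨Bᶜ, ?_, ?_⟩
  · -- counting
    have hR : ∀ u v p, (R u v p).card ≤ 4 * (2 ^ u * 2 ^ v) := by
      intro u v p
      have : (R u v p).card ≤ (Finset.Ico (p.1.val * 2 ^ u) ((p.1.val + 2) * 2 ^ u) ×ˢ
          Finset.Ico (p.2.val * 2 ^ v) ((p.2.val + 2) * 2 ^ v)).card := by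
        refine Finset.card_le_card_of_injOn (fun z => (z.1.val, z.2.val)) ?_ ?_
        · intro z hz
          have := (Finset.mem_filter.1 hz).2
          simp only [Finset.coe_product, Finset.coe_Ico, Set.mem_prod, Set.mem_Ico]
          exact this
        · intro z _ w _ h
          simp only [Prod.mk.injEq] at h
          exact Prod.ext (Fin.ext h.1) (Fin.ext h.2)
      refine this.trans ?_
      rw [Finset.card_product, Nat.card_Ico, Nat.card_Ico]
      have e1 : (p.1.val + 2) * 2 ^ u - p.1.val * 2 ^ u = 2 * 2 ^ u := by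
        rw [add_mul]; omega
      have e2 : (p.2.val + 2) * 2 ^ v - p.2.val * 2 ^ v = 2 * 2 ^ v := by
        rw [add_mul]; omega
      rw [e1, e2]
      exact le_of_eq (by ring)
    have hB : B.card * q ≤ (L + 1) ^ 2 * (4 * (2 ^ L * 2 ^ L)) := by
      have h1 : B.card ≤ ∑ uv ∈ Finset.range (L + 1) ×ˢ Finset.range (L + 1),
          ((Z uv.1 uv.2).biUnion fun p => R uv.1 uv.2 p).card := Finset.card_biUnion_le
      have h2 : ∀ uv ∈ Finset.range (L + 1) ×ˢ Finset.range (L + 1),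
          ((Z uv.1 uv.2).biUnion fun p => R uv.1 uv.2 p).card * q ≤ 4 * (2 ^ L * 2 ^ L) := by
        intro uv huv
        rw [Finset.mem_product, Finset.mem_range, Finset.mem_range] at huv
        have h3 : ((Z uv.1 uv.2).biUnion fun p => R uv.1 uv.2 p).card ≤
            (Z uv.1 uv.2).card * (4 * (2 ^ uv.1 * 2 ^ uv.2)) :=
          Finset.card_biUnion_le_card_mul _ _ _ (fun p _ => hR _ _ _)
        calc ((Z uv.1 uv.2).biUnion fun p => R uv.1 uv.2 p).card * q
            ≤ (Z uv.1 uv.2).card * (4 * (2 ^ uv.1 * 2 ^ uv.2)) * q := Nat.mul_le_mul_right _ h3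
          _ = ((Z uv.1 uv.2).card * q) * (4 * (2 ^ uv.1 * 2 ^ uv.2)) := by ring
          _ ≤ (2 ^ (L - uv.1) * 2 ^ (L - uv.2)) * (4 * (2 ^ uv.1 * 2 ^ uv.2)) :=
              Nat.mul_le_mul_right _ (hZc _ _)
          _ = 4 * ((2 ^ (L - uv.1) * 2 ^ uv.1) * (2 ^ (L - uv.2) * 2 ^ uv.2)) := by ring
          _ = 4 * (2 ^ L * 2 ^ L) := by
              rw [← pow_add, ← pow_add, Nat.sub_add_cancel (Nat.lt_succ_iff.1 huv.1),
                Nat.sub_add_cancel (Nat.lt_succ_iff.1 huv.2)]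
      calc B.card * q ≤ (∑ uv ∈ Finset.range (L + 1) ×ˢ Finset.range (L + 1),
          ((Z uv.1 uv.2).biUnion fun p => R uv.1 uv.2 p).card) * q := Nat.mul_le_mul_right _ h1
        _ = ∑ uv ∈ Finset.range (L + 1) ×ˢ Finset.range (L + 1),
          ((Z uv.1 uv.2).biUnion fun p => R uv.1 uv.2 p).card * q := Finset.sum_mul _ _ _
        _ ≤ ∑ uv ∈ Finset.range (L + 1) ×ˢ Finset.range (L + 1), 4 * (2 ^ L * 2 ^ L) :=
            Finset.sum_le_sum h2
        _ = (L + 1) ^ 2 * (4 * (2 ^ L * 2 ^ L)) := by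
            rw [Finset.sum_const, Finset.card_product, Finset.card_range, smul_eq_mul]; ring
    have hcompl : 2 ^ L * 2 ^ L - Bᶜ.card = B.card := by
      have h1 : Bᶜ.card + B.card = Fintype.card (Fin (2 ^ L) × Fin (2 ^ L)) := by
        rw [Finset.card_compl]
        exact Nat.sub_add_cancel (Finset.card_le_univ B)
      rw [Fintype.card_prod, Fintype.card_fin] at h1
      omega
    rw [hcompl]
    have hpos : 0 < (L + 1) ^ 2 := by positivity
    rw [hq] at hB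
    have : (L + 1) ^ 2 * (4 * (B.card * 8)) ≤ (L + 1) ^ 2 * (4 * (2 ^ L * 2 ^ L)) := by
      calc (L + 1) ^ 2 * (4 * (B.card * 8)) = B.card * (32 * (L + 1) ^ 2) := by ring
        _ ≤ _ := hB
    have h2 := Nat.le_of_mul_le_mul_left this hpos
    omega
  · rintro ⟨rr, cc, hrr, hcc, hblk⟩
    have hm' : 2 * (L + 1) * t ≤ m := by
      calc 2 * (L + 1) * t = 128 * (L + 1) ^ 4 := by rw [ht]; ring
        _ ≤ m := hm
    have hmpos : 0 < m := lt_of_lt_of_le (by positivity) hm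
    have hr : ∀ i : Fin m, rr i.castSucc < 2 ^ L := by
      intro i
      obtain ⟨z, _, h1, _⟩ := hblk i ⟨0, hmpos⟩
      exact lt_of_le_of_lt h1 z.1.isLt
    have hc : ∀ j : Fin m, cc j.castSucc < 2 ^ L := by
      intro j
      obtain ⟨z, _, _, _, h1, _⟩ := hblk ⟨0, hmpos⟩ j
      exact lt_of_le_of_lt h1 z.2.isLt
    obtain ⟨u, hu, P, hP, hP'⟩ := row_lemma L t m rr hrr hr hm'
    obtain ⟨v, hv, Q, hQ, hQ'⟩ := row_lemma L t m cc hcc hc hm'
    obtain ⟨z, hz, hz1, hz2⟩ := hZp u v P Q hP hQ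
    obtain ⟨i, hi1, hi2⟩ := hP' _ hz1
    obtain ⟨j, hj1, hj2⟩ := hQ' _ hz2
    obtain ⟨w, hw, hw1, hw2, hw3, hw4⟩ := hblk i j
    rw [Finset.mem_compl] at hw
    apply hw
    rw [Finset.mem_biUnion]
    refine ⟨(u, v), ?_, ?_⟩
    · rw [Finset.mem_product, Finset.mem_range, Finset.mem_range]
      exact ⟨Nat.lt_succ_of_le hu, Nat.lt_succ_of_le hv⟩
    · rw [Finset.mem_biUnion]
      refine ⟨z, hz, ?_⟩
      refine Finset.mem_filter.2 ⟨Finset.mem_univ _, ⟨hi1.trans hw1, ?_⟩, ⟨hj1.trans hw3, ?_⟩⟩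
      · exact lt_of_lt_of_le (lt_min hw2 w.1.isLt) hi2
      · exact lt_of_lt_of_le (lt_min hw4 w.2.isLt) hj2

end

end Pool.Agent.Helper124.SW.J18
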