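import Pool.Agent.Helper124.SWDefs

namespace Pool.Agent.Helper124.SW.J19

open Finset Classical

noncomputable section

theorem ca_std {n N : ℕ} (h : Fin n → Fin N) (hh : Function.Injective h) :
    ∃ (π : Equiv.Perm (Fin n)) (g : Fin n → Fin N), StrictMono g ∧ (∀ i, h i = g (π i)) ∧
      Set.range g = Set.range h := by
  have hR : (univ.image h).card = n := by
    rw [Finset.card_image_of_injective _ hh, Finset.card_univ, Fintype.card_fin]
  have hmem : ∀ i, h i ∈ univ.image h := fun i => Finset.mem_image_of_mem _ (Finset.mem_univ i)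
  let p : Fin n → Fin n := fun i => ((univ.image h).orderIsoOfFin hR).symm ⟨h i, hmem i⟩
  have hp : Function.Injective p := by
    intro i j hij
    have h1 := ((univ.image h).orderIsoOfFin hR).symm.injective hij
    exact hh (congrArg Subtype.val h1)
  have hpb : Function.Bijective p := Finite.injective_iff_bijective.1 hp
  refine ⟨Equiv.ofBijective p hpb, (univ.image h).orderEmbOfFin hR,
    ((univ.image h).orderEmbOfFin hR).strictMono, ?_, ?_⟩
  · intro i
    show h i = (univ.image h).orderEmbOfFin hR (p i)
    rw [← Finset.coe_orderIsoOfFin_apply]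
    show h i = ((((univ.image h).orderIsoOfFin hR) (((univ.image h).orderIsoOfFin hR).symm
      ⟨h i, hmem i⟩) : { x // x ∈ univ.image h }) : Fin N)
    rw [OrderIso.apply_symm_apply]
  · rw [Finset.range_orderEmbOfFin]
    simp

theorem ca_greedy {n : ℕ} (k : ℕ) (hk : k ≤ n) (A : Fin k → Finset (Fin (2 * n)))
    (hA : ∀ i, 3 * n ≤ 2 * (A i).card) :
    (2 * n).descFactorial k ≤ 2 ^ k *
      (univ.filter (fun h : Fin k → Fin (2 * n) => Function.Injective h ∧ ∀ i, h i ∈ A i)).card := by
  induction k with
  | zero =>
    have : (univ.filter (fun h : Fin 0 → Fin (2 * n) =>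
        Function.Injective h ∧ ∀ i, h i ∈ A i)).card = 1 := by
      rw [Finset.card_eq_one]
      refine ⟨fun i => i.elim0, ?_⟩
      ext h
      simp only [Finset.mem_filter, Finset.mem_univ, true_and, Finset.mem_singleton]
      constructor
      · intro _
        exact Subsingleton.elim _ _
      · intro _
        exact ⟨fun i => i.elim0, fun i => i.elim0⟩
    rw [this]
    simp
  | succ k ih =>
    have ih' := ih (by omega) (fun i => A i.castSucc) (fun i => hA _)
    set I := univ.filter (fun h : Fin k → Fin (2 * n) => Function.Injective h ∧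
      ∀ i, h i ∈ A i.castSucc) with hI
    set J := univ.filter (fun h : Fin (k + 1) → Fin (2 * n) => Function.Injective h ∧
      ∀ i, h i ∈ A i) with hJ
    -- the sigma
    have h1 : (I.sigma (fun h => A (Fin.last k) \ univ.image h)).card ≤ J.card := by
      apply Finset.card_le_card_of_injOn
        (fun x : (Σ _ : (Fin k → Fin (2 * n)), Fin (2 * n)) => (Fin.snoc x.1 x.2 : Fin (k + 1) → Fin (2 * n)))
      · rintro ⟨h, x⟩ hx
        rw [Finset.mem_coe, Finset.mem_sigma] at hx
        obtain ⟨hx1, hx2⟩ := hx
        simp only at hx1 hx2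
        rw [hI, Finset.mem_filter] at hx1
        rw [Finset.mem_sdiff] at hx2
        rw [Finset.mem_coe, hJ, Finset.mem_filter]
        refine ⟨Finset.mem_univ _, ?_, ?_⟩
        · show Function.Injective (Fin.snoc h x : Fin (k + 1) → Fin (2 * n))
          rw [Fin.snoc_injective_iff]
          refine ⟨hx1.2.1, ?_⟩
          rintro ⟨i, hi⟩
          exact hx2.2 (Finset.mem_image.2 ⟨i, Finset.mem_univ _, hi⟩)
        · intro i
          show (Fin.snoc h x : Fin (k + 1) → Fin (2 * n)) i ∈ A i
          refine Fin.lastCases ?_ (fun j => ?_) i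
          · rw [Fin.snoc_last]; exact hx2.1
          · rw [Fin.snoc_castSucc]; exact hx1.2.2 j
      · rintro ⟨h, x⟩ _ ⟨h', x'⟩ _ hh
        simp only at hh
        have e1 : h = h' := by
          funext i
          have := congrFun hh i.castSucc
          rwa [Fin.snoc_castSucc, Fin.snoc_castSucc] at this
        have e2 : x = x' := by
          have := congrFun hh (Fin.last k)
          rwa [Fin.snoc_last, Fin.snoc_last] at this
        rw [e1, e2]
    rw [Finset.card_sigma] at h1
    have h2 : ∀ h ∈ I, 2 * n - k ≤ 2 * (A (Fin.last k) \ univ.image h).card := by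
      intro h _
      have h3 := Finset.le_card_sdiff (univ.image h) (A (Fin.last k))
      have h4 : (univ.image h).card ≤ k := by
        refine Finset.card_image_le.trans ?_
        rw [Finset.card_univ, Fintype.card_fin]
      have h5 := hA (Fin.last k)
      omega
    have h3 : I.card * (2 * n - k) ≤ 2 * J.card := by
      calc I.card * (2 * n - k) = ∑ h ∈ I, (2 * n - k) := by
            rw [Finset.sum_const, smul_eq_mul]
        _ ≤ ∑ h ∈ I, 2 * (A (Fin.last k) \ univ.image h).card := Finset.sum_le_sum h2
        _ = 2 * ∑ h ∈ I, (A (Fin.last k) \ univ.image h).card := by rw [Finset.mul_sum]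
        _ ≤ 2 * J.card := Nat.mul_le_mul_left 2 h1
    calc (2 * n).descFactorial (k + 1) = (2 * n - k) * (2 * n).descFactorial k :=
          Nat.descFactorial_succ _ _
      _ ≤ (2 * n - k) * (2 ^ k * I.card) := Nat.mul_le_mul_left _ ih'
      _ = 2 ^ k * (I.card * (2 * n - k)) := by ring
      _ ≤ 2 ^ k * (2 * J.card) := Nat.mul_le_mul_left _ h3
      _ = 2 ^ (k + 1) * J.card := by ring

/-- enough good rows -/
theorem ca_rows (n : ℕ) (M : Finset (Fin (2 * n) × Fin (2 * n)))
    (hM : ((2 * n) * (2 * n) - M.card) * 8 ≤ (2 * n) * (2 * n)) :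
    n ≤ (univ.filter (fun r : Fin (2 * n) =>
      3 * n ≤ 2 * (univ.filter (fun c => (r, c) ∈ M)).card)).card := by
  have hMc : M.card = ∑ r : Fin (2 * n), (univ.filter (fun c => (r, c) ∈ M)).card := by
    have h1 : M = univ.filter (fun z : Fin (2 * n) × Fin (2 * n) => z ∈ M) := by
      ext z; simp
    have h2 : M.card = ∑ z : Fin (2 * n) × Fin (2 * n), if z ∈ M then 1 else 0 := by
      conv_lhs => rw [h1]
      rw [Finset.card_filter]
    rw [h2, Fintype.sum_prod_type]
    refine Finset.sum_congr rfl (fun r _ => ?_)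
    rw [Finset.card_filter]
  set G := univ.filter (fun r : Fin (2 * n) =>
      3 * n ≤ 2 * (univ.filter (fun c => (r, c) ∈ M)).card) with hG
  have hcle : ∀ r : Fin (2 * n), (univ.filter (fun c => (r, c) ∈ M)).card ≤ 2 * n := by
    intro r
    have := Finset.card_filter_le univ (fun c => (r, c) ∈ M)
    rwa [Finset.card_univ, Fintype.card_fin] at this
  have hMle : M.card ≤ (2 * n) * (2 * n) := by
    have := Finset.card_le_univ M
    rwa [Fintype.card_prod, Fintype.card_fin] at this
  have h1 : ∑ r : Fin (2 * n), (2 * (univ.filter (fun c => (r, c) ∈ M)).card +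
      (if r ∈ Gᶜ then n + 1 else 0)) ≤ ∑ r : Fin (2 * n), 4 * n := by
    apply Finset.sum_le_sum
    intro r _
    by_cases hr : r ∈ Gᶜ
    · rw [if_pos hr]
      rw [Finset.mem_compl, hG, Finset.mem_filter] at hr
      have : ¬ (3 * n ≤ 2 * (univ.filter (fun c => (r, c) ∈ M)).card) := by
        intro h; exact hr ⟨Finset.mem_univ _, h⟩
      omega
    · rw [if_neg hr]
      have := hcle r
      omega
  rw [Finset.sum_add_distrib, ← Finset.mul_sum, ← hMc, Finset.sum_ite_mem, Finset.univ_inter,
    Finset.sum_const, Finset.sum_const, Finset.card_univ, Fintype.card_fin, smul_eq_mul,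
    smul_eq_mul, Finset.card_compl, Fintype.card_fin] at h1
  have hGle : G.card ≤ 2 * n := by
    have := Finset.card_le_univ G
    rwa [Fintype.card_fin] at this
  by_contra hcon
  push Not at hcon
  have h2 : n + 1 ≤ 2 * n - G.card := by omega
  have h3 : (n + 1) * (n + 1) ≤ (2 * n - G.card) * (n + 1) := Nat.mul_le_mul_right _ h2
  have h4 : 4 * (2 * n * (2 * n)) = 2 * (2 * n * (4 * n)) := by ring
  have h5 : 2 * n * (4 * n) = 2 * ((2 * n) * (2 * n)) := by ring
  have h6 : (2 * n) * (2 * n) = 4 * (n * n) := by ring
  have h7 : (n + 1) * (n + 1) = n * n + 2 * n + 1 := by ring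
  omega

theorem ca_minor (m n : ℕ) (hm : 1 ≤ m) (M : Finset (Fin (2 * n) × Fin (2 * n)))
    (f : Fin n → Fin (2 * n)) (hf : StrictMono f) (h : Fin n → Fin (2 * n))
    (hh : ∀ i, (f i, h i) ∈ M) (π : Equiv.Perm (Fin n)) (g : Fin n → Fin (2 * n))
    (hg : StrictMono g) (hhg : ∀ i, h i = g (π i)) (hc : Cont (gridPerm m) π) : Minor m M := by
  obtain ⟨e, he⟩ := hc
  have hord : ∀ i j, gridPerm m i < gridPerm m j ↔ h (e i) < h (e j) := by
    intro i j
    rw [he, hhg, hhg, hg.lt_iff_lt]
  have hval : ∀ s t : Fin m, (finProdFinEquiv (s, t)).val = t.val + m * s.val := fun s t => rfl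
  have hgrid : ∀ s t : Fin m, gridPerm m (finProdFinEquiv (s, t)) = finProdFinEquiv (t, s) := by
    intro s t
    simp [gridPerm]
  let rr : Fin (m + 1) → ℕ := fun s => if hs : s.val < m then
    (f (e (finProdFinEquiv (⟨s.val, hs⟩, ⟨0, hm⟩)))).val else 2 * n
  let cc : Fin (m + 1) → ℕ := fun t => if ht : t.val < m then
    (h (e (finProdFinEquiv (⟨0, hm⟩, ⟨t.val, ht⟩)))).val else 2 * n
  have hA : ∀ s t : Fin m, rr s.castSucc ≤ (f (e (finProdFinEquiv (s, t)))).val ∧
      (f (e (finProdFinEquiv (s, t)))).val < rr s.succ := by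
    intro s t
    constructor
    · have e1 : rr s.castSucc = (f (e (finProdFinEquiv (s, ⟨0, hm⟩)))).val := by
        show (if hs : (s.castSucc).val < m then _ else _) = _
        rw [dif_pos (by exact s.2)]
        rfl
      rw [e1]
      apply Fin.val_le_of_le
      apply hf.monotone
      apply e.monotone
      rw [Fin.le_def, hval, hval]
      simp
    · by_cases hs : s.val + 1 < m
      · have e1 : rr s.succ = (f (e (finProdFinEquiv (⟨s.val + 1, hs⟩, ⟨0, hm⟩)))).val := by
          show (if hs : (s.succ).val < m then _ else _) = _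
          rw [dif_pos (by rw [Fin.val_succ]; exact hs)]
          rfl
        rw [e1]
        refine Fin.lt_def.1 ?_
        apply hf
        apply e.strictMono
        rw [Fin.lt_def, hval, hval]
        have h1 := t.2
        simp only
        rw [mul_add, mul_one]
        omega
      · have e1 : rr s.succ = 2 * n := by
          show (if hs : (s.succ).val < m then _ else _) = _
          rw [dif_neg (by rw [Fin.val_succ]; exact hs)]
        rw [e1]
        exact (f _).2
  have hB : ∀ s t : Fin m, cc t.castSucc ≤ (h (e (finProdFinEquiv (s, t)))).val ∧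
      (h (e (finProdFinEquiv (s, t)))).val < cc t.succ := by
    intro s t
    constructor
    · have e1 : cc t.castSucc = (h (e (finProdFinEquiv (⟨0, hm⟩, t)))).val := by
        show (if hs : (t.castSucc).val < m then _ else _) = _
        rw [dif_pos (by exact t.2)]
        rfl
      rw [e1]
      apply Fin.val_le_of_le
      by_contra hcon
      rw [not_le, ← hord, hgrid, hgrid, Fin.lt_def, hval, hval] at hcon
      simp at hcon
    · by_cases ht : t.val + 1 < m
      · have e1 : cc t.succ = (h (e (finProdFinEquiv (⟨0, hm⟩, ⟨t.val + 1, ht⟩)))).val := by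
          show (if hs : (t.succ).val < m then _ else _) = _
          rw [dif_pos (by rw [Fin.val_succ]; exact ht)]
          rfl
        rw [e1]
        refine Fin.lt_def.1 ?_
        rw [← hord, hgrid, hgrid, Fin.lt_def, hval, hval]
        have h1 := s.2
        simp only
        rw [mul_add, mul_one]
        omega
      · have e1 : cc t.succ = 2 * n := by
          show (if hs : (t.succ).val < m then _ else _) = _
          rw [dif_neg (by rw [Fin.val_succ]; exact ht)]
        rw [e1]
        exact (h _).2
  refine ⟨rr, cc, ?_, ?_, ?_⟩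
  · rw [Fin.strictMono_iff_lt_succ]
    intro i
    exact lt_of_le_of_lt (hA i ⟨0, hm⟩).1 (hA i ⟨0, hm⟩).2
  · rw [Fin.strictMono_iff_lt_succ]
    intro i
    exact lt_of_le_of_lt (hB ⟨0, hm⟩ i).1 (hB ⟨0, hm⟩ i).2
  · intro i j
    exact ⟨_, hh (e (finProdFinEquiv (i, j))), (hA i j).1, (hA i j).2, (hB i j).1, (hB i j).2⟩

/-- many permutations can be drawn in a dense matrix without complete minor, and they avoid the
grid permutation -/
theorem count_av (m n : ℕ) (hm : 1 ≤ m) (M : Finset (Fin (2 * n) × Fin (2 * n)))
    (hM : ((2 * n) * (2 * n) - M.card) * 8 ≤ (2 * n) * (2 * n)) (hJ : ¬ Minor m M) :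
    n.factorial ≤ 2 ^ n * Av n (gridPerm m) := by
  have hrows := ca_rows n M hM
  obtain ⟨f, hf, hfG⟩ : ∃ f : Fin n → Fin (2 * n), StrictMono f ∧ ∀ i,
      3 * n ≤ 2 * (univ.filter (fun c => (f i, c) ∈ M)).card := by
    refine ⟨Finset.orderEmbOfCardLe _ hrows, OrderEmbedding.strictMono _, ?_⟩
    intro i
    have h1 := Finset.orderEmbOfCardLe_mem _ hrows i
    rw [Finset.mem_filter] at h1
    exact h1.2
  have hgreedy := ca_greedy n le_rfl (fun i => univ.filter (fun c => (f i, c) ∈ M)) hfG
  set I := univ.filter (fun h : Fin n → Fin (2 * n) => Function.Injective h ∧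
    ∀ i, h i ∈ univ.filter (fun c => (f i, c) ∈ M)) with hI
  have hstd : ∀ h : Fin n → Fin (2 * n), ∃ (π : Equiv.Perm (Fin n)) (g : Fin n → Fin (2 * n)),
      Function.Injective h → (StrictMono g ∧ (∀ i, h i = g (π i)) ∧ Set.range g = Set.range h) := by
    intro h
    by_cases hh : Function.Injective h
    · obtain ⟨π, g, hg⟩ := ca_std h hh
      exact ⟨π, g, fun _ => hg⟩
    · exact ⟨1, h, fun h' => absurd h' hh⟩
  choose π g hπg using hstd
  have hcount : I.card ≤ (2 * n).choose n * Av n (gridPerm m) := by
    have h1 : I.card ≤ ((powersetCard n (univ : Finset (Fin (2 * n)))) ×ˢ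
        (univ.filter (fun σ : Equiv.Perm (Fin n) => ¬ Cont (gridPerm m) σ))).card := by
      apply Finset.card_le_card_of_injOn (fun h => (univ.image h, π h))
      · intro h hh
        rw [Finset.mem_coe, hI, Finset.mem_filter] at hh
        obtain ⟨_, hinj, hmem⟩ := hh
        obtain ⟨g1, g2, g3⟩ := hπg h hinj
        rw [Finset.mem_coe, Finset.mem_product, Finset.mem_powersetCard, Finset.mem_filter]
        refine ⟨⟨Finset.subset_univ _, ?_⟩, Finset.mem_univ _, ?_⟩
        · show (univ.image h).card = n
          rw [Finset.card_image_of_injective _ hinj, Finset.card_univ, Fintype.card_fin]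
        · intro hc
          refine hJ (ca_minor m n hm M f hf h ?_ (π h) (g h) g1 g2 hc)
          intro i
          have := hmem i
          rw [Finset.mem_filter] at this
          exact this.2
      · intro h hh h' hh' heq
        rw [Finset.mem_coe, hI, Finset.mem_filter] at hh hh'
        obtain ⟨g1, g2, g3⟩ := hπg h hh.2.1
        obtain ⟨g1', g2', g3'⟩ := hπg h' hh'.2.1
        simp only [Prod.mk.injEq] at heq
        have hr : Set.range h = Set.range h' := by
          have h5 := congrArg (fun s : Finset (Fin (2 * n)) => (s : Set (Fin (2 * n)))) heq.1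
          simpa using h5
        have hgg : g h = g h' := by
          rw [← g1.range_inj g1', g3, g3', hr]
        funext i
        rw [g2 i, g2' i, hgg, heq.2]
    rw [Finset.card_product, Finset.card_powersetCard, Finset.card_univ, Fintype.card_fin] at h1
    unfold Av
    rw [Fintype.card_subtype]
    exact h1
  have hfin : (2 * n).choose n * n.factorial ≤ (2 * n).choose n * (2 ^ n * Av n (gridPerm m)) := by
    calc (2 * n).choose n * n.factorial = (2 * n).descFactorial n := by
          rw [Nat.descFactorial_eq_factorial_mul_choose]; ring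
      _ ≤ 2 ^ n * I.card := hgreedy
      _ ≤ 2 ^ n * ((2 * n).choose n * Av n (gridPerm m)) := Nat.mul_le_mul_left _ hcount
      _ = _ := by ring
  exact Nat.le_of_mul_le_mul_left hfin (Nat.choose_pos (by omega))

end

end Pool.Agent.Helper124.SW.J19
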