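import Pool.Agent.Helper124.SWDefs

namespace Pool.Agent.Helper124.SW.J2

open Finset Classical

noncomputable section

theorem wt_eq_prod {S : Type*} [Fintype S] (r : ℝ) (ω : Finset S) :
    wt r ω = ∏ x : S, if x ∈ ω then r else 1 - r := by
  unfold wt
  rw [Finset.prod_ite, Finset.prod_const, Finset.prod_const]
  have h1 : (univ.filter fun x => x ∈ ω) = ω := by ext x; simp
  have h2 : (univ.filter fun x => x ∉ ω) = univ \ ω := by ext x; simp
  rw [h1, h2, Finset.card_univ_sdiff]

/-- forgetting the labels of a point set -/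
def prj {N : ℕ} (ω : Finset (Pt N)) : Finset (Fin N × Fin N) :=
  univ.filter fun c => ∃ l, (c.1, c.2, l) ∈ ω

theorem has_iff {N a : ℕ} (ω : Finset (Pt N)) :
    Has (1 : Equiv.Perm (Fin a)) ω ↔ HasChain a (prj ω) := by
  unfold Has HasChain prj
  simp

theorem sum_bool (r : ℝ) (P : Prop) [Decidable P] :
    (∑ S ∈ (univ : Finset (Finset Bool)).filter (fun S => S.Nonempty ↔ P),
      ∏ l : Bool, (if l ∈ S then r else 1 - r)) = if P then 1 - (1 - r) ^ 2 else 1 - (1 - (1 - r) ^ 2) := by
  have hu : (univ : Finset (Finset Bool)) = {∅, {true}, {false}, {true, false}} := by decide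
  by_cases hP : P
  · have : (univ : Finset (Finset Bool)).filter (fun S => S.Nonempty ↔ P) = {{true}, {false}, {true, false}} := by
      simp only [hP, iff_true]
      decide
    rw [this, if_pos hP]
    rw [Finset.sum_insert (by decide), Finset.sum_insert (by decide), Finset.sum_singleton]
    simp only [Fintype.prod_bool]
    simp
    ring
  · have : (univ : Finset (Finset Bool)).filter (fun S => S.Nonempty ↔ P) = {∅} := by
      simp only [hP, iff_false]
      decide
    rw [this, if_neg hP, Finset.sum_singleton]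
    simp only [Fintype.prod_bool]
    simp
    ring

theorem fiber {N : ℕ} (r : ℝ) (ω' : Finset (Fin N × Fin N)) :
    ∑ ω ∈ (univ : Finset (Finset (Pt N))).filter (fun ω => prj ω = ω'), wt r ω =
      wt (1 - (1 - r) ^ 2) ω' := by
  have h1 : ∀ c : Fin N × Fin N, (if c ∈ ω' then 1 - (1 - r) ^ 2 else 1 - (1 - (1 - r) ^ 2)) =
      ∑ S ∈ (univ : Finset (Finset Bool)).filter (fun S => S.Nonempty ↔ c ∈ ω'),
      ∏ l : Bool, (if l ∈ S then r else 1 - r) := fun c => (sum_bool r (c ∈ ω')).symm
  have h2 : wt (1 - (1 - r) ^ 2) ω' = ∏ c : Fin N × Fin N,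
      ∑ S ∈ (univ : Finset (Finset Bool)).filter (fun S => S.Nonempty ↔ c ∈ ω'),
      ∏ l : Bool, (if l ∈ S then r else 1 - r) := by
    rw [wt_eq_prod]
    refine Finset.prod_congr rfl (fun c _ => ?_)
    rw [← h1 c]
    congr
  rw [h2, Finset.prod_univ_sum]
  refine Finset.sum_nbij' (fun ω c => univ.filter fun l => (c.1, c.2, l) ∈ ω)
    (fun g => univ.filter fun p : Pt N => p.2.2 ∈ g (p.1, p.2.1)) ?_ ?_ ?_ ?_ ?_
  · intro ω hω
    simp only [Finset.mem_filter, Finset.mem_univ, true_and] at hω
    simp only [Fintype.mem_piFinset, Finset.mem_filter, Finset.mem_univ, true_and]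
    intro c
    rw [← hω]
    simp [prj, Finset.filter_nonempty_iff]
  · intro g hg
    simp only [Fintype.mem_piFinset, Finset.mem_filter, Finset.mem_univ, true_and] at hg
    simp only [Finset.mem_filter, Finset.mem_univ, true_and]
    ext c
    rw [← hg c]
    simp [prj, Finset.Nonempty]
  · intro ω hω
    ext p
    simp
  · intro g hg
    funext c
    ext l
    simp
  · intro ω hω
    rw [wt_eq_prod]
    have : (Fintype.card (Pt N)) = Fintype.card (Pt N) := rfl
    rw [← Fintype.prod_prod_type', ]
    refine Fintype.prod_equiv (Equiv.prodAssoc (Fin N) (Fin N) Bool).symm _ _ ?_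
    rintro ⟨x, y, l⟩
    simp

/-- forgetting the labels -/
theorem proj_label (N a : ℕ) (r : ℝ) :
    (∑ ω : Finset (Pt N), if Has (1 : Equiv.Perm (Fin a)) ω then wt r ω else 0) =
      ∑ ω : Finset (Fin N × Fin N), if HasChain a ω then wt (1 - (1 - r) ^ 2) ω else 0 := by
  rw [← Finset.sum_fiberwise (s := (univ : Finset (Finset (Pt N)))) (g := prj)]
  refine Finset.sum_congr rfl (fun ω' _ => ?_)
  by_cases h : HasChain a ω'
  · rw [if_pos h, ← fiber]
    refine Finset.sum_congr rfl (fun ω hω => ?_)
    simp only [Finset.mem_filter, Finset.mem_univ, true_and] at hω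
    rw [if_pos]
    rw [has_iff, hω]; exact h
  · rw [if_neg h]
    refine Finset.sum_eq_zero (fun ω hω => ?_)
    simp only [Finset.mem_filter, Finset.mem_univ, true_and] at hω
    rw [if_neg]
    rw [has_iff, hω]; exact h

end

end Pool.Agent.Helper124.SW.J2
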