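import Pool.Agent.Helper124.SWDefs

namespace Pool.Agent.Helper124.SW.J20

open Finset Classical

noncomputable section

/-- there is an increasing chain of length `k + 1` ending at `i` -/
def IdCh {n : ℕ} (π : Equiv.Perm (Fin n)) (i : Fin n) (k : ℕ) : Prop :=
  ∃ f : Fin (k + 1) → Fin n, StrictMono f ∧ StrictMono (fun x => π (f x)) ∧ f (Fin.last k) = i

theorem idCh_zero {n : ℕ} (π : Equiv.Perm (Fin n)) (i : Fin n) : IdCh π i 0 := by
  refine ⟨fun _ => i, ?_, ?_, rfl⟩
  · intro x y h; exfalso; have h1 := x.isLt; have h2 := y.isLt; have h3 : x.val < y.val := h; omega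
  · intro x y h; exfalso; have h1 := x.isLt; have h2 := y.isLt; have h3 : x.val < y.val := h; omega

theorem idCh_succ {n : ℕ} {π : Equiv.Perm (Fin n)} {i j : Fin n} {k : ℕ} (h : IdCh π i k) (hij : i < j)
    (hπ : π i < π j) : IdCh π j (k + 1) := by
  obtain ⟨f, h1, h2, h3⟩ := h
  refine ⟨Fin.snoc f j, ?_, ?_, Fin.snoc_last _ _⟩
  · rw [Fin.strictMono_iff_lt_succ]
    intro x
    rw [Fin.snoc_castSucc]
    induction x using Fin.lastCases with
    | last => rw [Fin.succ_last, Fin.snoc_last, h3]; exact hij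
    | cast x => rw [← Fin.castSucc_succ, Fin.snoc_castSucc]; exact h1 (Fin.castSucc_lt_succ)
  · rw [Fin.strictMono_iff_lt_succ]
    intro x
    rw [Fin.snoc_castSucc]
    induction x using Fin.lastCases with
    | last => rw [Fin.succ_last, Fin.snoc_last, h3]; exact hπ
    | cast x => rw [← Fin.castSucc_succ, Fin.snoc_castSucc]; exact h2 (Fin.castSucc_lt_succ)

theorem idCh_lt {n a : ℕ} {π : Equiv.Perm (Fin n)} (hπ : ¬ Cont (1 : Equiv.Perm (Fin (a + 1))) π) {i : Fin n} :
    ¬ IdCh π i a := by
  rintro ⟨f, h1, h2, _⟩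
  refine hπ ⟨OrderEmbedding.ofStrictMono f h1, fun x y => ?_⟩
  simp only [Equiv.Perm.one_apply, OrderEmbedding.coe_ofStrictMono]
  exact (h2.lt_iff_lt).symm

/-- the colour of a position -/
def idCol {n : ℕ} (a : ℕ) (π : Equiv.Perm (Fin n)) (i : Fin n) : ℕ := Nat.findGreatest (IdCh π i) a

theorem idCol_lt {n a : ℕ} {π : Equiv.Perm (Fin n)} (hπ : ¬ Cont (1 : Equiv.Perm (Fin (a + 1))) π) (i : Fin n) :
    idCol a π i < a := by
  have h1 : idCol a π i ≤ a := Nat.findGreatest_le a
  have h2 : IdCh π i (idCol a π i) := Nat.findGreatest_spec (Nat.zero_le a) (idCh_zero π i)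
  refine lt_of_le_of_ne h1 fun h => ?_
  rw [h] at h2
  exact idCh_lt hπ h2

theorem idCol_gt {n a : ℕ} {π : Equiv.Perm (Fin n)} (hπ : ¬ Cont (1 : Equiv.Perm (Fin (a + 1))) π) {i j : Fin n}
    (hij : i < j) (h : idCol a π i = idCol a π j) : π j < π i := by
  rcases lt_trichotomy (π i) (π j) with h1 | h1 | h1
  · exfalso
    have h2 : IdCh π i (idCol a π i) := Nat.findGreatest_spec (Nat.zero_le a) (idCh_zero π i)
    have h3 := idCh_succ h2 hij h1
    have h4 : idCol a π i + 1 ≤ idCol a π j := Nat.le_findGreatest (idCol_lt hπ i) h3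
    omega
  · exact absurd (π.injective h1) hij.ne
  · exact h1

theorem id_av_inj {n a : ℕ} {π π' : Equiv.Perm (Fin n)} (hπ : ¬ Cont (1 : Equiv.Perm (Fin (a + 1))) π)
    (hπ' : ¬ Cont (1 : Equiv.Perm (Fin (a + 1))) π') (hc : ∀ i, idCol a π i = idCol a π' i)
    (hd : ∀ v, idCol a π (π.symm v) = idCol a π' (π'.symm v)) : π = π' := by
  have hcol : ∀ i, idCol a π (π'.symm (π i)) = idCol a π i := by
    intro i
    have h1 := hd (π i)
    rw [Equiv.symm_apply_apply] at h1
    rw [hc, ← h1]
  have hmono : ∀ i j, i < j → idCol a π i = idCol a π j → π'.symm (π i) < π'.symm (π j) := by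
    intro i j hij h
    have h1 := idCol_gt hπ hij h
    rcases lt_trichotomy (π'.symm (π i)) (π'.symm (π j)) with h2 | h2 | h2
    · exact h2
    · exact absurd (π.injective (π'.symm.injective h2)) hij.ne
    · exfalso
      have h3 : idCol a π' (π'.symm (π j)) = idCol a π' (π'.symm (π i)) := by
        rw [← hc, ← hc, hcol, hcol, h]
      have h4 := idCol_gt hπ' h2 h3
      rw [Equiv.apply_symm_apply, Equiv.apply_symm_apply] at h4
      exact absurd h4 (not_lt.2 h1.le)
  have hid : ∀ m : ℕ, ∀ i : Fin n, i.val = m → π'.symm (π i) = i := by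
    intro m
    induction m using Nat.strong_induction_on with
    | _ m ih =>
      intro i hi
      by_contra hne
      have h1 : i < π'.symm (π i) := by
        rcases lt_trichotomy (π'.symm (π i)) i with h2 | h2 | h2
        · exfalso
          have h3 := ih _ (by rw [← hi]; exact h2) (π'.symm (π i)) rfl
          have h4 := π.injective (π'.symm.injective h3)
          exact hne h4
        · exact absurd h2 hne
        · exact h2
      set l := π.symm (π' i) with hl
      have hσl : π'.symm (π l) = i := by rw [hl, Equiv.apply_symm_apply, Equiv.symm_apply_apply]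
      have hcl : idCol a π i = idCol a π l := by
        have := hcol l
        rwa [hσl] at this
      rcases lt_trichotomy l i with h2 | h2 | h2
      · have h3 := ih _ (by rw [← hi]; exact h2) l rfl
        rw [hσl] at h3
        exact absurd h3 h2.ne'
      · rw [h2] at hσl; exact hne hσl
      · have h3 := hmono i l h2 hcl
        rw [hσl] at h3
        exact absurd h3 (not_lt.2 h1.le)
  ext i
  have := hid i.val i rfl
  rw [Equiv.symm_apply_eq] at this
  rw [this]

/-- number of permutations without an increasing subsequence of length `a + 1` -/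
theorem id_av_le (a n : ℕ) : Av n (1 : Equiv.Perm (Fin (a + 1))) ≤ a ^ (2 * n) := by
  have h1 : Fintype.card ((Fin n → Fin a) × (Fin n → Fin a)) = a ^ (2 * n) := by
    rw [Fintype.card_prod, Fintype.card_fun, Fintype.card_fin, Fintype.card_fin, two_mul, pow_add]
  rw [← h1]
  refine Fintype.card_le_of_injective
    (fun π : {π : Equiv.Perm (Fin n) // ¬ Cont (1 : Equiv.Perm (Fin (a + 1))) π} =>
      ((fun i => ⟨idCol a π.1 i, idCol_lt π.2 i⟩, fun v => ⟨idCol a π.1 (π.1.symm v), idCol_lt π.2 _⟩) :
        (Fin n → Fin a) × (Fin n → Fin a))) ?_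
  rintro ⟨π, hπ⟩ ⟨π', hπ'⟩ h
  simp only [Prod.mk.injEq] at h
  refine Subtype.ext (id_av_inj hπ hπ' (fun i => ?_) fun v => ?_)
  · exact congrArg Fin.val (congrFun h.1 i)
  · exact congrArg Fin.val (congrFun h.2 v)

end

end Pool.Agent.Helper124.SW.J20
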