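import Pool.Agent.Helper124.SWDefs

namespace Pool.Agent.Helper124.SW.J3

open Finset Classical

noncomputable section

/-- strictly increasing maps are counted by binomial coefficients -/
theorem card_SM (n N : ℕ) : (SM n N).card = N.choose n := by
  have h1 : (SM n N).card = ((univ : Finset (Fin N)).powersetCard n).card := by
    apply Finset.card_bij (fun f _ => (univ : Finset (Fin n)).image f)
    · intro f hf
      have hf' : StrictMono f := (mem_filter.1 hf).2
      rw [mem_powersetCard]
      refine ⟨subset_univ _, ?_⟩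
      rw [card_image_of_injective _ hf'.injective, card_univ, Fintype.card_fin]
    · intro f hf g hg h
      have hf' : StrictMono f := (mem_filter.1 hf).2
      have hg' : StrictMono g := (mem_filter.1 hg).2
      have hc : ((univ : Finset (Fin n)).image f).card = n := by
        rw [card_image_of_injective _ hf'.injective, card_univ, Fintype.card_fin]
      have e1 := Finset.orderEmbOfFin_unique hc (f := f)
        (fun x => mem_image_of_mem _ (mem_univ x)) hf'
      have e2 := Finset.orderEmbOfFin_unique hc (f := g)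
        (fun x => by rw [h]; exact mem_image_of_mem _ (mem_univ x)) hg'
      rw [e1, e2]
    · intro A hA
      rw [mem_powersetCard] at hA
      refine ⟨A.orderEmbOfFin hA.2, ?_, ?_⟩
      · exact mem_filter.2 ⟨mem_univ _, (A.orderEmbOfFin hA.2).strictMono⟩
      · ext x
        rw [mem_image]
        constructor
        · rintro ⟨i, -, rfl⟩
          exact Finset.orderEmbOfFin_mem _ _ _
        · intro hx
          have : x ∈ Set.range (A.orderEmbOfFin hA.2) := by
            rw [Finset.range_orderEmbOfFin]; exact hx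
          obtain ⟨i, hi⟩ := this
          exact ⟨i, mem_univ _, hi⟩
  rw [h1, card_powersetCard, card_univ, Fintype.card_fin]

/-- the point set given by columns, rows, labels and a permutation -/
def psi {n N : ℕ} (a b : Fin n → Fin N) (l : Fin n → Bool) (π : Equiv.Perm (Fin n)) :
    Finset (Pt N) := univ.image fun i => (a i, b (π i), l i)

theorem mem_psi {n N : ℕ} {a b : Fin n → Fin N} {l : Fin n → Bool} {π : Equiv.Perm (Fin n)}
    {x : Pt N} : x ∈ psi a b l π ↔ ∃ i, (a i, b (π i), l i) = x := by
  unfold psi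
  rw [mem_image]
  constructor
  · rintro ⟨i, -, h⟩; exact ⟨i, h⟩
  · rintro ⟨i, h⟩; exact ⟨i, mem_univ _, h⟩

theorem psi_cf {n N : ℕ} {a b : Fin n → Fin N} (ha : StrictMono a) (hb : StrictMono b)
    (l : Fin n → Bool) (π : Equiv.Perm (Fin n)) : CF (psi a b l π) := by
  intro x hx y hy h
  obtain ⟨i, rfl⟩ := mem_psi.1 hx
  obtain ⟨j, rfl⟩ := mem_psi.1 hy
  have : i = j := by
    rcases h with h | h
    · exact ha.injective h
    · exact π.injective (hb.injective h)
  rw [this]

theorem psi_card {n N : ℕ} {a b : Fin n → Fin N} (ha : StrictMono a)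
    (l : Fin n → Bool) (π : Equiv.Perm (Fin n)) : (psi a b l π).card = n := by
  unfold psi
  rw [card_image_of_injective, card_univ, Fintype.card_fin]
  intro i j h
  exact ha.injective (congrArg Prod.fst h)

theorem psi_has {n N k : ℕ} {a b : Fin n → Fin N} (ha : StrictMono a) (hb : StrictMono b)
    (l : Fin n → Bool) (π : Equiv.Perm (Fin n)) (σ : Equiv.Perm (Fin k)) :
    Has σ (psi a b l π) ↔ Cont σ π := by
  constructor
  · rintro ⟨f, g, hf, hg, h⟩
    have h2 : ∀ i, ∃ e, a e = f i ∧ b (π e) = g (σ i) := by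
      intro i
      obtain ⟨l', hl'⟩ := h i
      obtain ⟨e, he⟩ := mem_psi.1 hl'
      exact ⟨e, congrArg Prod.fst he, congrArg (fun x : Pt N => x.2.1) he⟩
    choose e he1 he2 using h2
    have hmono : StrictMono e := by
      intro i j hij
      rw [← ha.lt_iff_lt, he1, he1]
      exact hf hij
    refine ⟨OrderEmbedding.ofStrictMono e hmono, fun i j => ?_⟩
    show σ i < σ j ↔ π (e i) < π (e j)
    rw [← hb.lt_iff_lt, he2, he2, hg.lt_iff_lt]
  · rintro ⟨f, hf⟩
    refine ⟨fun i => a (f i), fun v => b (π (f (σ.symm v))), ?_, ?_, fun i => ?_⟩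
    · intro i j hij
      exact ha (f.strictMono hij)
    · intro v v' hv
      apply hb
      rw [← hf, Equiv.apply_symm_apply, Equiv.apply_symm_apply]
      exact hv
    · refine ⟨l (f i), mem_psi.2 ⟨f i, ?_⟩⟩
      show (a (f i), b (π (f i)), l (f i)) = (a (f i), b (π (f (σ.symm (σ i)))), l (f i))
      rw [Equiv.symm_apply_apply]

theorem range_unique {n N : ℕ} {a a' : Fin n → Fin N} (ha : StrictMono a) (ha' : StrictMono a')
    (h : ∀ i, ∃ j, a' j = a i) : a = a' := by
  have hc : ((univ : Finset (Fin n)).image a').card = n := by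
    rw [card_image_of_injective _ ha'.injective, card_univ, Fintype.card_fin]
  have e1 := Finset.orderEmbOfFin_unique hc (f := a') (fun x => mem_image_of_mem _ (mem_univ x)) ha'
  have e2 := Finset.orderEmbOfFin_unique hc (f := a) (fun x => by
    obtain ⟨j, hj⟩ := h x
    rw [← hj]; exact mem_image_of_mem _ (mem_univ j)) ha
  rw [e2, ← e1]

theorem psi_inj {n N : ℕ} {a b a' b' : Fin n → Fin N} (ha : StrictMono a) (hb : StrictMono b)
    (ha' : StrictMono a') (hb' : StrictMono b') {l l' : Fin n → Bool} {π π' : Equiv.Perm (Fin n)}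
    (h : psi a b l π = psi a' b' l' π') : a = a' ∧ b = b' ∧ l = l' ∧ π = π' := by
  have h1 : ∀ i, ∃ j, (a' j, b' (π' j), l' j) = (a i, b (π i), l i) := by
    intro i
    have : (a i, b (π i), l i) ∈ psi a b l π := mem_psi.2 ⟨i, rfl⟩
    rw [h] at this
    exact mem_psi.1 this
  have haa : a = a' := range_unique ha ha' fun i => by
    obtain ⟨j, hj⟩ := h1 i
    exact ⟨j, congrArg Prod.fst hj⟩
  have hbb : b = b' := range_unique hb hb' fun i => by
    obtain ⟨j, hj⟩ := h1 (π.symm i)
    refine ⟨π' j, ?_⟩
    have := congrArg (fun x : Pt N => x.2.1) hj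
    simpa using this
  subst haa hbb
  have h2 : ∀ i, b (π' i) = b (π i) ∧ l' i = l i := by
    intro i
    obtain ⟨j, hj⟩ := h1 i
    have hji : j = i := ha.injective (congrArg Prod.fst hj)
    subst hji
    exact ⟨congrArg (fun x : Pt N => x.2.1) hj, congrArg (fun x : Pt N => x.2.2) hj⟩
  refine ⟨rfl, rfl, ?_, ?_⟩
  · funext i; exact (h2 i).2.symm
  · ext1 i; exact hb.injective (h2 i).1.symm

theorem psi_surj {n N : ℕ} (ω : Finset (Pt N)) (hcf : CF ω) (hc : ω.card = n) :
    ∃ (a b : Fin n → Fin N) (l : Fin n → Bool) (π : Equiv.Perm (Fin n)),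
      StrictMono a ∧ StrictMono b ∧ psi a b l π = ω := by
  set A := ω.image (fun x => x.1) with hA
  set B := ω.image (fun x => x.2.1) with hB
  have hAc : A.card = n := by
    rw [hA, card_image_of_injOn, hc]
    intro x hx y hy h
    exact hcf x hx y hy (Or.inl h)
  have hBc : B.card = n := by
    rw [hB, card_image_of_injOn, hc]
    intro x hx y hy h
    exact hcf x hx y hy (Or.inr h)
  set a := A.orderEmbOfFin hAc with ha
  set b := B.orderEmbOfFin hBc with hb
  have h1 : ∀ i, ∃ p ∈ ω, p.1 = a i := by
    intro i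
    have : a i ∈ A := Finset.orderEmbOfFin_mem _ _ _
    rw [hA, mem_image] at this
    exact this
  choose p hp1 hp2 using h1
  have h2 : ∀ i, ∃ j, b j = (p i).2.1 := by
    intro i
    have : (p i).2.1 ∈ B := mem_image_of_mem _ (hp1 i)
    have h3 : (p i).2.1 ∈ Set.range b := by
      rw [hb, Finset.range_orderEmbOfFin]; exact this
    exact h3
  choose q hq using h2
  have hpinj : Function.Injective p := by
    intro i j h
    apply a.injective
    rw [← hp2, ← hp2, h]
  have hqinj : Function.Injective q := by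
    intro i j h
    apply hpinj
    apply hcf _ (hp1 i) _ (hp1 j)
    right
    rw [← hq, ← hq, h]
  have hqb : Function.Bijective q := Finite.injective_iff_bijective.1 hqinj
  refine ⟨a, b, fun i => (p i).2.2, Equiv.ofBijective q hqb, a.strictMono, b.strictMono, ?_⟩
  apply Finset.eq_of_subset_of_card_le
  · intro x hx
    obtain ⟨i, rfl⟩ := mem_psi.1 hx
    have e : (a i, b (Equiv.ofBijective q hqb i), (p i).2.2) = p i := by
      rw [Equiv.ofBijective_apply, hq, ← hp2]
    rw [e]
    exact hp1 i
  · rw [psi_card a.strictMono, hc]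

/-- collision-free point sets are permutations together with the sets of columns and rows
and the labels -/
theorem card_cf_has (N n k : ℕ) (σ : Equiv.Perm (Fin k)) :
    (univ.filter fun ω : Finset (Pt N) => CF ω ∧ ω.card = n ∧ Has σ ω).card =
      (N.choose n) ^ 2 * 2 ^ n * X n σ := by
  have h1 : (univ.filter fun ω : Finset (Pt N) => CF ω ∧ ω.card = n ∧ Has σ ω).card =
      ((SM n N) ×ˢ (SM n N) ×ˢ (univ : Finset (Fin n → Bool)) ×ˢ
        (univ.filter fun π : Equiv.Perm (Fin n) => Cont σ π)).card := by
    symm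
    apply Finset.card_bij (fun x _ => psi x.1 x.2.1 x.2.2.1 x.2.2.2)
    · rintro ⟨a, b, l, π⟩ hx
      simp only [mem_product] at hx
      obtain ⟨h1, h2, -, h4⟩ := hx
      have ha : StrictMono a := (mem_filter.1 h1).2
      have hb : StrictMono b := (mem_filter.1 h2).2
      rw [mem_filter]
      exact ⟨mem_univ _, psi_cf ha hb l π, psi_card ha l π,
        (psi_has ha hb l π σ).2 (mem_filter.1 h4).2⟩
    · rintro ⟨a, b, l, π⟩ hx ⟨a', b', l', π'⟩ hx' h
      simp only [mem_product] at hx hx'
      obtain ⟨h1, h2, -, h4⟩ := hx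
      obtain ⟨h1', h2', -, h4'⟩ := hx'
      obtain ⟨rfl, rfl, rfl, rfl⟩ := psi_inj (mem_filter.1 h1).2 (mem_filter.1 h2).2
        (mem_filter.1 h1').2 (mem_filter.1 h2').2 h
      rfl
    · intro ω hω
      obtain ⟨-, hcf, hc, hhas⟩ := mem_filter.1 hω
      obtain ⟨a, b, l, π, ha, hb, rfl⟩ := psi_surj ω hcf hc
      refine ⟨(a, b, l, π), ?_, rfl⟩
      simp only [mem_product]
      exact ⟨mem_filter.2 ⟨mem_univ _, ha⟩, mem_filter.2 ⟨mem_univ _, hb⟩, mem_univ _,
        mem_filter.2 ⟨mem_univ _, (psi_has ha hb l π σ).1 hhas⟩⟩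
  rw [h1, card_product, card_product, card_product, card_SM]
  have h2 : (univ : Finset (Fin n → Bool)).card = 2 ^ n := by
    rw [card_univ, Fintype.card_fun, Fintype.card_bool, Fintype.card_fin]
  have h3 : (univ.filter fun π : Equiv.Perm (Fin n) => Cont σ π).card = X n σ := by
    unfold X
    rw [Fintype.card_subtype]
  rw [h2, h3]
  ring

end

end Pool.Agent.Helper124.SW.J3
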