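import Pool.Agent.Helper124.SWDefs

namespace Pool.Agent.Helper124.SW.J4

open Finset Classical

noncomputable section

theorem tr_lt_iff {m n : ℕ} (a a' : Fin m) (b b' : Fin n) :
    finProdFinEquiv (a, b) < finProdFinEquiv (a', b') ↔ a < a' ∨ (a = a' ∧ b < b') := by
  have hb := b.2
  have hb' := b'.2
  rw [Fin.lt_def, finProdFinEquiv_apply_val, finProdFinEquiv_apply_val]
  simp only
  rcases lt_trichotomy a a' with h | h | h
  · have h1 : n * ((a : ℕ) + 1) ≤ n * (a' : ℕ) := Nat.mul_le_mul_left n (Fin.lt_def.1 h)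
    rw [Nat.mul_add, Nat.mul_one] at h1
    constructor
    · intro _; exact Or.inl h
    · intro _; omega
  · subst h
    simp
  · have h1 : n * ((a' : ℕ) + 1) ≤ n * (a : ℕ) := Nat.mul_le_mul_left n (Fin.lt_def.1 h)
    rw [Nat.mul_add, Nat.mul_one] at h1
    constructor
    · intro h2; omega
    · rintro (h2 | ⟨h2, _⟩)
      · exact absurd h2 (not_lt.2 h.le)
      · exact absurd h2 (ne_of_gt h)

/-- the equivalence -/
def tr_e (m W : ℕ) : Site m W ≃ Pt (m * W) where
  toFun x := (finProdFinEquiv (x.1.1, x.2.1), finProdFinEquiv (x.1.2, x.2.2.1), x.2.2.2)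
  invFun y := (((finProdFinEquiv.symm y.1).1, (finProdFinEquiv.symm y.2.1).1),
    ((finProdFinEquiv.symm y.1).2, (finProdFinEquiv.symm y.2.1).2, y.2.2))
  left_inv x := by simp
  right_inv y := by
    obtain ⟨a, b, l⟩ := y
    exact Prod.ext (finProdFinEquiv.apply_symm_apply a)
      (Prod.ext (finProdFinEquiv.apply_symm_apply b) rfl)

theorem tr_wt {S T : Type} [Fintype S] [Fintype T] (e : S ≃ T) (r : ℝ) (ω : Finset S) :
    wt r (ω.map e.toEmbedding) = wt r ω := by
  unfold wt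
  rw [Finset.card_map, Fintype.card_congr e]

theorem tr_wt_nonneg {S : Type} [Fintype S] {r : ℝ} (h0 : 0 ≤ r) (h1 : r ≤ 1) (ω : Finset S) :
    0 ≤ wt r ω := by
  unfold wt
  have : 0 ≤ 1 - r := by linarith
  positivity

theorem tr_CF {m W : ℕ} {ω : Finset (Site m W)} (h : CFS ω) :
    CF (ω.map (tr_e m W).toEmbedding) := by
  intro a ha b hb hab
  rw [Finset.mem_map] at ha hb
  obtain ⟨x, hx, rfl⟩ := ha
  obtain ⟨y, hy, rfl⟩ := hb
  have h1 := h x hx y hy ?_
  · rw [h1]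
  · rcases hab with hab | hab
    · left
      have h2 : finProdFinEquiv (x.1.1, x.2.1) = finProdFinEquiv (y.1.1, y.2.1) := hab
      have h3 := finProdFinEquiv.injective h2
      exact ⟨(Prod.mk.inj h3).1, (Prod.mk.inj h3).2⟩
    · right
      have h2 : finProdFinEquiv (x.1.2, x.2.2.1) = finProdFinEquiv (y.1.2, y.2.2.1) := hab
      have h3 := finProdFinEquiv.injective h2
      exact ⟨(Prod.mk.inj h3).1, (Prod.mk.inj h3).2⟩

theorem tr_Has {m W : ℕ} {ω : Finset (Site m W)} {q : Plc m W} (hq : Valid q)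
    (hs : sites q ⊆ ω) : Has (gridPerm m) (ω.map (tr_e m W).toEmbedding) := by
  refine ⟨fun i => finProdFinEquiv ((finProdFinEquiv.symm i).1,
      (q (finProdFinEquiv.symm i).1 (finProdFinEquiv.symm i).2).1),
    fun j => finProdFinEquiv ((finProdFinEquiv.symm j).1,
      (q (finProdFinEquiv.symm j).2 (finProdFinEquiv.symm j).1).2.1), ?_, ?_, ?_⟩
  · intro i i' hii
    obtain ⟨⟨s, t⟩, rfl⟩ := finProdFinEquiv.surjective i
    obtain ⟨⟨s', t'⟩, rfl⟩ := finProdFinEquiv.surjective i'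
    rw [tr_lt_iff] at hii
    simp only [Equiv.symm_apply_apply]
    rw [tr_lt_iff]
    rcases hii with h | ⟨h, h2⟩
    · exact Or.inl h
    · subst h
      exact Or.inr ⟨rfl, hq.1 s h2⟩
  · intro i i' hii
    obtain ⟨⟨s, t⟩, rfl⟩ := finProdFinEquiv.surjective i
    obtain ⟨⟨s', t'⟩, rfl⟩ := finProdFinEquiv.surjective i'
    rw [tr_lt_iff] at hii
    simp only [Equiv.symm_apply_apply]
    rw [tr_lt_iff]
    rcases hii with h | ⟨h, h2⟩
    · exact Or.inl h
    · subst h
      exact Or.inr ⟨rfl, hq.2 s h2⟩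
  · intro i
    obtain ⟨⟨s, t⟩, rfl⟩ := finProdFinEquiv.surjective i
    refine ⟨(q s t).2.2, ?_⟩
    rw [Finset.mem_map]
    refine ⟨((s, t), q s t), hs ?_, ?_⟩
    · unfold sites
      exact Finset.mem_image.2 ⟨(s, t), Finset.mem_univ _, rfl⟩
    · have h1 : gridPerm m (finProdFinEquiv (s, t)) = finProdFinEquiv (t, s) := by
        unfold gridPerm
        simp
      rw [h1]
      simp only [Equiv.symm_apply_apply]
      rfl

/-- from sites sorted by cells to the `(m W) × (m W)` grid -/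
theorem transport (m W : ℕ) (r : ℝ) (h0 : 0 ≤ r) (h1 : r ≤ 1) :
    (∑ ω : Finset (Site m W), if CFS ω ∧ ∃ q, Valid q ∧ sites q ⊆ ω then wt r ω else 0) ≤
      ∑ ω : Finset (Pt (m * W)), if CF ω ∧ Has (gridPerm m) ω then wt r ω else 0 := by
  rw [← Equiv.sum_comp (tr_e m W).finsetCongr]
  refine Finset.sum_le_sum fun ω _ => ?_
  rw [Equiv.finsetCongr_apply]
  by_cases h : CFS ω ∧ ∃ q, Valid q ∧ sites q ⊆ ω
  · obtain ⟨hc, q, hq, hs⟩ := h
    rw [if_pos ⟨hc, q, hq, hs⟩, if_pos ⟨tr_CF hc, tr_Has hq hs⟩, tr_wt]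
  · rw [if_neg h]
    split_ifs
    · exact tr_wt_nonneg h0 h1 _
    · exact le_rfl

end

end Pool.Agent.Helper124.SW.J4
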