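import Pool.Agent.Helper124.SWDefs

namespace Pool.Agent.Helper124.SW.J5

open Finset Classical

noncomputable section

theorem wt_nonneg_aux {S : Type*} [Fintype S] (r : ℝ) (h0 : 0 ≤ r) (h1 : r ≤ 1) (ω : Finset S) :
    0 ≤ wt r ω := mul_nonneg (pow_nonneg h0 _) (pow_nonneg (by linarith) _)

theorem wt_mul_aux {S : Type*} [Fintype S] (r : ℝ) (a b : Finset S) :
    wt r a * wt r b = wt r (a ⊓ b) * wt r (a ⊔ b) := by
  have h1 : (a ⊓ b).card + (a ⊔ b).card = a.card + b.card := by
    rw [Finset.inf_eq_inter, Finset.sup_eq_union]
    exact Finset.card_inter_add_card_union a b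
  have ha := Finset.card_le_univ a
  have hb := Finset.card_le_univ b
  have hc := Finset.card_le_univ (a ⊓ b)
  have hd := Finset.card_le_univ (a ⊔ b)
  unfold wt
  rw [mul_mul_mul_comm, mul_mul_mul_comm (r ^ (a ⊓ b).card), ← pow_add, ← pow_add, ← pow_add, ← pow_add, h1]
  congr 2
  omega

theorem sum_superset_aux {S : Type*} [Fintype S] (r : ℝ) (q : Finset S) :
    (∑ ω : Finset S, if q ⊆ ω then wt r ω else 0) = r ^ q.card := by
  have h1 := Finset.prod_add (fun _ : S => r) (fun i : S => if i ∈ q then 0 else 1 - r) Finset.univ
  have h2 : ∏ i : S, (r + if i ∈ q then 0 else 1 - r) = r ^ q.card := by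
    have h3 : ∀ i : S, (r + if i ∈ q then 0 else 1 - r) = if i ∈ q then r else 1 := by
      intro i
      split_ifs
      · ring
      · ring
    simp only [h3]
    rw [Finset.prod_ite_mem, Finset.univ_inter, Finset.prod_const]
  rw [← h2, h1, Finset.powerset_univ]
  refine Finset.sum_congr rfl fun ω _ => ?_
  rw [Finset.prod_const]
  split_ifs with h
  · unfold wt
    congr 1
    have h4 : ∀ i ∈ Finset.univ \ ω, (if i ∈ q then 0 else 1 - r) = 1 - r := by
      intro i hi
      rw [if_neg]
      intro hq
      exact (Finset.mem_sdiff.1 hi).2 (h hq)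
    rw [Finset.prod_congr rfl h4, Finset.prod_const, Finset.card_sdiff_of_subset (Finset.subset_univ _),
      Finset.card_univ]
  · obtain ⟨i, hi, hi'⟩ := Finset.not_subset.1 h
    symm
    refine mul_eq_zero_of_right _ (Finset.prod_eq_zero (i := i) ?_ ?_)
    · exact Finset.mem_sdiff.2 ⟨Finset.mem_univ _, hi'⟩
    · rw [if_pos hi]

/-- Harris inequality: lower bound for the probability that no set of a family is contained in `ω` -/
theorem fkg_family {S ι : Type*} [Fintype S] (r : ℝ) (h0 : 0 ≤ r) (h1 : r ≤ 1) (I : Finset ι)
    (Q : ι → Finset S) (q : Finset S) (hd : ∀ i ∈ I, Disjoint (Q i) q) :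
    r ^ q.card * ∏ i ∈ I, (1 - r ^ (Q i).card) ≤
      ∑ ω : Finset S, if q ⊆ ω ∧ ∀ i ∈ I, ¬ Q i ⊆ ω then wt r ω else 0 := by
  rcases (pow_nonneg h0 q.card).eq_or_lt with hq | hq
  · rw [← hq, zero_mul]
    refine Finset.sum_nonneg fun ω _ => ?_
    split_ifs
    · exact wt_nonneg_aux r h0 h1 ω
    · exact le_rfl
  · induction I using Finset.induction_on with
    | empty =>
      rw [Finset.prod_empty, mul_one, ← sum_superset_aux r q]
      refine Finset.sum_le_sum fun ω _ => ?_
      simp
    | insert j I hj ih =>
      have ih' := ih (fun i hi => hd i (Finset.mem_insert_of_mem hi))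
      rw [Finset.prod_insert hj]
      have hT := sum_superset_aux r q
      have hTQ := sum_superset_aux r (q ∪ Q j)
      have hcard : (q ∪ Q j).card = q.card + (Q j).card :=
        Finset.card_union_of_disjoint (hd j (Finset.mem_insert_self j I)).symm
      have hB : (∑ ω : Finset S, if q ⊆ ω ∧ ¬ Q j ⊆ ω then wt r ω else 0)
          = r ^ q.card * (1 - r ^ (Q j).card) := by
        have : (∑ ω : Finset S, if q ⊆ ω ∧ ¬ Q j ⊆ ω then wt r ω else 0)
            = (∑ ω : Finset S, if q ⊆ ω then wt r ω else 0) - (∑ ω : Finset S, if q ∪ Q j ⊆ ω then wt r ω else 0) := by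
          rw [← Finset.sum_sub_distrib]
          refine Finset.sum_congr rfl fun ω _ => ?_
          by_cases ha : q ⊆ ω
          · by_cases hb : Q j ⊆ ω
            · simp [ha, hb, Finset.union_subset_iff]
            · simp [ha, hb, Finset.union_subset_iff]
          · simp [ha, Finset.union_subset_iff]
        rw [this, hT, hTQ, hcard, pow_add]
        ring
      have h4 := four_functions_theorem_univ
        (fun ω : Finset S => if q ⊆ ω ∧ ∀ i ∈ I, ¬ Q i ⊆ ω then wt r ω else 0)
        (fun ω : Finset S => if q ⊆ ω ∧ ¬ Q j ⊆ ω then wt r ω else 0)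
        (fun ω : Finset S => if q ⊆ ω ∧ ∀ i ∈ insert j I, ¬ Q i ⊆ ω then wt r ω else 0)
        (fun ω : Finset S => if q ⊆ ω then wt r ω else 0)
        (fun ω => by
          beta_reduce
          rw [Pi.zero_apply]
          split_ifs
          · exact wt_nonneg_aux r h0 h1 ω
          · exact le_rfl)
        (fun ω => by
          beta_reduce
          rw [Pi.zero_apply]
          split_ifs
          · exact wt_nonneg_aux r h0 h1 ω
          · exact le_rfl)
        (fun ω => by
          beta_reduce
          rw [Pi.zero_apply]
          split_ifs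
          · exact wt_nonneg_aux r h0 h1 ω
          · exact le_rfl)
        (fun ω => by
          beta_reduce
          rw [Pi.zero_apply]
          split_ifs
          · exact wt_nonneg_aux r h0 h1 ω
          · exact le_rfl)
        (fun a b => by
          by_cases ha : q ⊆ a ∧ ∀ i ∈ I, ¬ Q i ⊆ a
          · by_cases hb : q ⊆ b ∧ ¬ Q j ⊆ b
            · have hc : q ⊆ a ⊓ b ∧ ∀ i ∈ insert j I, ¬ Q i ⊆ a ⊓ b := by
                refine ⟨Finset.subset_inter ha.1 hb.1, ?_⟩
                intro i hi hsub
                rcases Finset.mem_insert.1 hi with rfl | hi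
                · exact hb.2 (hsub.trans Finset.inter_subset_right)
                · exact ha.2 i hi (hsub.trans Finset.inter_subset_left)
              have hd' : q ⊆ a ⊔ b := ha.1.trans Finset.subset_union_left
              simp only [if_pos ha, if_pos hb, if_pos hc, if_pos hd']
              exact (wt_mul_aux r a b).le
            · simp only [if_neg hb, mul_zero]
              refine mul_nonneg ?_ ?_
              · split_ifs
                · exact wt_nonneg_aux r h0 h1 _
                · exact le_rfl
              · split_ifs
                · exact wt_nonneg_aux r h0 h1 _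
                · exact le_rfl
          · simp only [if_neg ha, zero_mul]
            refine mul_nonneg ?_ ?_
            · split_ifs
              · exact wt_nonneg_aux r h0 h1 _
              · exact le_rfl
            · split_ifs
              · exact wt_nonneg_aux r h0 h1 _
              · exact le_rfl)
      rw [hB, hT] at h4
      have h5 : 0 ≤ 1 - r ^ (Q j).card := by
        have := pow_le_one₀ (n := (Q j).card) h0 h1
        linarith
      refine le_of_mul_le_mul_right ?_ hq
      refine le_trans ?_ h4
      have h6 := mul_le_mul_of_nonneg_right ih' (mul_nonneg hq.le h5)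
      refine le_trans (le_of_eq ?_) h6
      ring

end

end Pool.Agent.Helper124.SW.J5
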