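import Pool.Agent.Helper124.SWDefs

namespace Pool.Agent.Helper124.SW.J6

open Finset Classical

noncomputable section

theorem j2972_sup {S : Type*} [Fintype S] [DecidableEq S] (r : ℝ) (B : Finset S) :
    (∑ ω : Finset S, if B ⊆ ω then wt r ω else 0) = r ^ B.card := by
  rw [← Finset.sum_filter]
  have h1 : ∑ ω ∈ univ.filter (fun ω : Finset S => B ⊆ ω), wt r ω =
      ∑ t ∈ Bᶜ.powerset, r ^ B.card * (r ^ t.card * (1 - r) ^ (Bᶜ.card - t.card)) := by
    refine Finset.sum_nbij' (fun ω => ω \ B) (fun t => B ∪ t) ?_ ?_ ?_ ?_ ?_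
    · intro ω _
      rw [Finset.mem_powerset]
      intro x hx
      rw [Finset.mem_compl]
      exact (Finset.mem_sdiff.1 hx).2
    · intro t _
      rw [Finset.mem_filter]
      exact ⟨Finset.mem_univ _, Finset.subset_union_left⟩
    · intro ω hω
      exact Finset.union_sdiff_of_subset (Finset.mem_filter.1 hω).2
    · intro t ht
      rw [Finset.mem_powerset] at ht
      ext x
      simp only [Finset.mem_sdiff, Finset.mem_union]
      constructor
      · rintro ⟨h | h, h'⟩
        · exact absurd h h'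
        · exact h
      · intro h
        exact ⟨Or.inr h, Finset.mem_compl.1 (ht h)⟩
    · intro ω hω
      have hB := (Finset.mem_filter.1 hω).2
      have h2 : ω.card = B.card + (ω \ B).card := by
        rw [Finset.card_sdiff_of_subset hB]
        have := Finset.card_le_card hB
        omega
      have h3 : Fintype.card S - ω.card = Bᶜ.card - (ω \ B).card := by
        rw [Finset.card_compl]
        omega
      unfold wt
      rw [h3, h2, pow_add, mul_assoc]
  rw [h1, ← Finset.mul_sum, Finset.sum_pow_mul_eq_add_pow]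
  simp

/-- collision relation -/
def j2972_col {m W : ℕ} (a b : Site m W) : Prop :=
  (a.1.1 = b.1.1 ∧ a.2.1 = b.2.1) ∨ (a.1.2 = b.1.2 ∧ a.2.2.1 = b.2.2.1)

theorem j2972_cnt {m W : ℕ} (a : Site m W) :
    (univ.filter (fun b : Site m W => j2972_col a b)).card ≤ 4 * (m * W) := by
  have h1 : (univ.filter (fun b : Site m W => j2972_col a b)) ⊆
      (univ.filter (fun b : Site m W => a.1.1 = b.1.1 ∧ a.2.1 = b.2.1)) ∪
      (univ.filter (fun b : Site m W => a.1.2 = b.1.2 ∧ a.2.2.1 = b.2.2.1)) := by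
    intro b hb
    rw [Finset.mem_union, Finset.mem_filter, Finset.mem_filter]
    rcases (Finset.mem_filter.1 hb).2 with h | h
    · exact Or.inl ⟨Finset.mem_univ _, h⟩
    · exact Or.inr ⟨Finset.mem_univ _, h⟩
  have h2 : (univ.filter (fun b : Site m W => a.1.1 = b.1.1 ∧ a.2.1 = b.2.1)).card ≤ 2 * (m * W) := by
    have h3 := Finset.card_le_card_of_injOn
      (s := univ.filter (fun b : Site m W => a.1.1 = b.1.1 ∧ a.2.1 = b.2.1))
      (t := (univ : Finset (Fin m × Fin W × Bool)))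
      (fun b => (b.1.2, b.2.2.1, b.2.2.2)) (fun _ _ => Finset.mem_univ _) (by
        rintro ⟨⟨s, t⟩, ⟨u, v, l⟩⟩ hb ⟨⟨s', t'⟩, ⟨u', v', l'⟩⟩ hb' he
        have hb1 := (Finset.mem_filter.1 (Finset.mem_coe.1 hb)).2
        have hb2 := (Finset.mem_filter.1 (Finset.mem_coe.1 hb')).2
        simp only [Prod.mk.injEq] at he hb1 hb2 ⊢
        obtain ⟨e1, e2, e3⟩ := he
        exact ⟨⟨hb1.1.symm.trans hb2.1, e1⟩, hb1.2.symm.trans hb2.2, e2, e3⟩)
    refine h3.trans (le_of_eq ?_)
    rw [Finset.card_univ, Fintype.card_prod, Fintype.card_prod, Fintype.card_fin, Fintype.card_fin,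
      Fintype.card_bool]
    ring
  have h2' : (univ.filter (fun b : Site m W => a.1.2 = b.1.2 ∧ a.2.2.1 = b.2.2.1)).card ≤ 2 * (m * W) := by
    have h3 := Finset.card_le_card_of_injOn
      (s := univ.filter (fun b : Site m W => a.1.2 = b.1.2 ∧ a.2.2.1 = b.2.2.1))
      (t := (univ : Finset (Fin m × Fin W × Bool)))
      (fun b => (b.1.1, b.2.1, b.2.2.2)) (fun _ _ => Finset.mem_univ _) (by
        rintro ⟨⟨s, t⟩, ⟨u, v, l⟩⟩ hb ⟨⟨s', t'⟩, ⟨u', v', l'⟩⟩ hb' he
        have hb1 := (Finset.mem_filter.1 (Finset.mem_coe.1 hb)).2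
        have hb2 := (Finset.mem_filter.1 (Finset.mem_coe.1 hb')).2
        simp only [Prod.mk.injEq] at he hb1 hb2 ⊢
        obtain ⟨e1, e2, e3⟩ := he
        exact ⟨⟨e1, hb1.1.symm.trans hb2.1⟩, e2, hb1.2.symm.trans hb2.2, e3⟩)
    refine h3.trans (le_of_eq ?_)
    rw [Finset.card_univ, Fintype.card_prod, Fintype.card_prod, Fintype.card_fin, Fintype.card_fin,
      Fintype.card_bool]
    ring
  have h4 := Finset.card_le_card h1
  have h5 := Finset.card_union_le (univ.filter (fun b : Site m W => a.1.1 = b.1.1 ∧ a.2.1 = b.2.1))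
    (univ.filter (fun b : Site m W => a.1.2 = b.1.2 ∧ a.2.2.1 = b.2.2.1))
  omega

theorem j2972_sites_card {m W : ℕ} (q : Plc m W) : (sites q).card = m * m := by
  unfold sites
  rw [Finset.card_image_of_injective]
  · simp
  · intro c c' h
    exact congrArg Prod.fst h

theorem j2972_both {m W : ℕ} {q : Plc m W} (hq : Valid q) {a b : Site m W} (ha : a ∈ sites q)
    (hb : b ∈ sites q) (h : j2972_col a b) : a = b := by
  unfold sites at ha hb
  obtain ⟨⟨s, t⟩, _, rfl⟩ := Finset.mem_image.1 ha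
  obtain ⟨⟨s', t'⟩, _, rfl⟩ := Finset.mem_image.1 hb
  rcases h with ⟨h1, h2⟩ | ⟨h1, h2⟩
  · have h1' : s = s' := h1
    subst h1'
    have h3 : t = t' := (hq.1 s).injective h2
    subst h3
    rfl
  · have h1' : t = t' := h1
    subst h1'
    have h3 : s = s' := (hq.2 t).injective h2
    subst h3
    rfl

theorem j2972_card1 {m W : ℕ} (Q : Finset (Site m W)) :
    (univ.filter (fun p : Site m W × Site m W => p.1 ∈ Q ∧ p.2 ∉ Q ∧ j2972_col p.1 p.2)).card ≤
      Q.card * (4 * (m * W)) := by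
  have h1 : (univ.filter (fun p : Site m W × Site m W => p.1 ∈ Q ∧ p.2 ∉ Q ∧ j2972_col p.1 p.2)) ⊆
      (Q.sigma (fun a => univ.filter (fun b : Site m W => j2972_col a b))).image
        (fun x => (x.1, x.2)) := by
    rintro ⟨a, b⟩ hp
    have hp' := (Finset.mem_filter.1 hp).2
    rw [Finset.mem_image]
    refine ⟨⟨a, b⟩, ?_, rfl⟩
    rw [Finset.mem_sigma, Finset.mem_filter]
    exact ⟨hp'.1, Finset.mem_univ _, hp'.2.2⟩
  refine (Finset.card_le_card h1).trans (Finset.card_image_le.trans ?_)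
  rw [Finset.card_sigma, ← smul_eq_mul]
  exact Finset.sum_le_card_nsmul _ _ _ (fun a _ => j2972_cnt a)

theorem j2972_card2 {m W : ℕ} (Q : Finset (Site m W)) :
    (univ.filter (fun p : Site m W × Site m W =>
      p.1 ≠ p.2 ∧ p.1 ∉ Q ∧ p.2 ∉ Q ∧ j2972_col p.1 p.2)).card ≤ 8 * (m * W) ^ 3 := by
  have h1 : (univ.filter (fun p : Site m W × Site m W =>
      p.1 ≠ p.2 ∧ p.1 ∉ Q ∧ p.2 ∉ Q ∧ j2972_col p.1 p.2)) ⊆
      ((univ : Finset (Site m W)).sigma
        (fun a => univ.filter (fun b : Site m W => j2972_col a b))).image (fun x => (x.1, x.2)) := by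
    rintro ⟨a, b⟩ hp
    have hp' := (Finset.mem_filter.1 hp).2
    rw [Finset.mem_image]
    refine ⟨⟨a, b⟩, ?_, rfl⟩
    rw [Finset.mem_sigma, Finset.mem_filter]
    exact ⟨Finset.mem_univ _, Finset.mem_univ _, hp'.2.2.2⟩
  refine (Finset.card_le_card h1).trans (Finset.card_image_le.trans ?_)
  rw [Finset.card_sigma]
  refine (Finset.sum_le_card_nsmul _ _ _ (fun a _ => j2972_cnt a)).trans (le_of_eq ?_)
  rw [Finset.card_univ, smul_eq_mul]
  simp only [Fintype.card_prod, Fintype.card_fin, Fintype.card_bool]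
  ring

theorem j2972_wt_nonneg {S : Type*} [Fintype S] {r : ℝ} (h0 : 0 ≤ r) (h1 : r ≤ 1) (ω : Finset S) :
    0 ≤ wt r ω := by
  unfold wt
  have : 0 ≤ 1 - r := by linarith
  positivity

/-- collisions are rare -/
theorem coll_bound {m W : ℕ} (r : ℝ) (h0 : 0 ≤ r) (h1 : r ≤ 1) (q : Plc m W) (hq : Valid q) :
    (∑ ω : Finset (Site m W), if sites q ⊆ ω ∧ ¬ CFS ω then wt r ω else 0) ≤
      r ^ (m * m) * (4 * (m * m) * (m * W) * r + 4 * (m * W) ^ 3 * r ^ 2) := by
  obtain ⟨Q, hQ⟩ : ∃ Q, Q = sites q := ⟨_, rfl⟩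
  have hQc : Q.card = m * m := by rw [hQ]; exact j2972_sites_card q
  rw [← hQ]
  obtain ⟨P1, hP1⟩ : ∃ P1, P1 = univ.filter (fun p : Site m W × Site m W =>
    p.1 ∈ Q ∧ p.2 ∉ Q ∧ j2972_col p.1 p.2) := ⟨_, rfl⟩
  obtain ⟨P2, hP2⟩ : ∃ P2, P2 = univ.filter (fun p : Site m W × Site m W =>
    p.1 ≠ p.2 ∧ p.1 ∉ Q ∧ p.2 ∉ Q ∧ j2972_col p.1 p.2) := ⟨_, rfl⟩
  have hw := fun ω : Finset (Site m W) => j2972_wt_nonneg h0 h1 ω
  have hsym : ∀ a b : Site m W, j2972_col a b → j2972_col b a := by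
    intro a b h
    rcases h with ⟨h1, h2⟩ | ⟨h1, h2⟩
    · exact Or.inl ⟨h1.symm, h2.symm⟩
    · exact Or.inr ⟨h1.symm, h2.symm⟩
  have key : ∀ ω : Finset (Site m W), (if Q ⊆ ω ∧ ¬ CFS ω then wt r ω else 0) ≤
      ∑ p ∈ P1, (if insert p.2 Q ⊆ ω then wt r ω else 0) +
      (1 / 2) * ∑ p ∈ P2, (if insert p.1 (insert p.2 Q) ⊆ ω then wt r ω else 0) := by
    intro ω
    have n1 : ∀ p ∈ P1, (0 : ℝ) ≤ (if insert p.2 Q ⊆ ω then wt r ω else 0) := by
      intro p _
      split_ifs
      · exact hw ω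
      · exact le_rfl
    have n2 : ∀ p ∈ P2, (0 : ℝ) ≤ (if insert p.1 (insert p.2 Q) ⊆ ω then wt r ω else 0) := by
      intro p _
      split_ifs
      · exact hw ω
      · exact le_rfl
    have s1 := Finset.sum_nonneg n1
    have s2 := Finset.sum_nonneg n2
    by_cases hc : Q ⊆ ω ∧ ¬ CFS ω
    · rw [if_pos hc]
      obtain ⟨hc1, hc2⟩ := hc
      have hex : ∃ a ∈ ω, ∃ b ∈ ω, j2972_col a b ∧ a ≠ b := by
        by_contra hcon
        apply hc2
        intro a ha b hb hab
        by_contra hne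
        exact hcon ⟨a, ha, b, hb, hab, hne⟩
      obtain ⟨a, ha, b, hb, hab, hne⟩ := hex
      by_cases haQ : a ∈ Q
      · by_cases hbQ : b ∈ Q
        · exact absurd (j2972_both hq (by rw [← hQ]; exact haQ) (by rw [← hQ]; exact hbQ) hab) hne
        · have hmem : (a, b) ∈ P1 := by
            rw [hP1, Finset.mem_filter]
            exact ⟨Finset.mem_univ _, haQ, hbQ, hab⟩
          have h3 := Finset.single_le_sum n1 hmem
          rw [if_pos (Finset.insert_subset hb hc1)] at h3
          linarith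
      · by_cases hbQ : b ∈ Q
        · have hmem : (b, a) ∈ P1 := by
            rw [hP1, Finset.mem_filter]
            exact ⟨Finset.mem_univ _, hbQ, haQ, hsym a b hab⟩
          have h3 := Finset.single_le_sum n1 hmem
          rw [if_pos (Finset.insert_subset ha hc1)] at h3
          linarith
        · have hmem : ({(a, b), (b, a)} : Finset (Site m W × Site m W)) ⊆ P2 := by
            intro p hp
            rw [Finset.mem_insert, Finset.mem_singleton] at hp
            rw [hP2, Finset.mem_filter]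
            rcases hp with rfl | rfl
            · exact ⟨Finset.mem_univ _, hne, haQ, hbQ, hab⟩
            · exact ⟨Finset.mem_univ _, Ne.symm hne, hbQ, haQ, hsym a b hab⟩
          have h3 := Finset.sum_le_sum_of_subset_of_nonneg hmem
            (f := fun p => if insert p.1 (insert p.2 Q) ⊆ ω then wt r ω else 0)
            (fun p hp _ => n2 p hp)
          rw [Finset.sum_pair (by
            intro h
            exact hne (congrArg Prod.fst h))] at h3
          simp only at h3
          rw [if_pos (Finset.insert_subset ha (Finset.insert_subset hb hc1)),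
            if_pos (Finset.insert_subset hb (Finset.insert_subset ha hc1))] at h3
          linarith
    · rw [if_neg hc]
      linarith
  have hsum := Finset.sum_le_sum (fun ω (_ : ω ∈ (univ : Finset (Finset (Site m W)))) => key ω)
  refine hsum.trans ?_
  rw [Finset.sum_add_distrib, ← Finset.mul_sum, Finset.sum_comm, Finset.sum_comm (s := univ) (t := P2)]
  have e1 : ∀ p ∈ P1, (∑ ω : Finset (Site m W), if insert p.2 Q ⊆ ω then wt r ω else 0) =
      r ^ (m * m + 1) := by
    intro p hp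
    rw [hP1, Finset.mem_filter] at hp
    rw [j2972_sup, Finset.card_insert_of_notMem hp.2.2.1, hQc]
  have e2 : ∀ p ∈ P2, (∑ ω : Finset (Site m W), if insert p.1 (insert p.2 Q) ⊆ ω then wt r ω else 0) =
      r ^ (m * m + 2) := by
    intro p hp
    rw [hP2, Finset.mem_filter] at hp
    rw [j2972_sup, Finset.card_insert_of_notMem, Finset.card_insert_of_notMem hp.2.2.2.1, hQc]
    rw [Finset.mem_insert, not_or]
    exact ⟨hp.2.1, hp.2.2.1⟩
  rw [Finset.sum_congr rfl e1, Finset.sum_congr rfl e2, Finset.sum_const, Finset.sum_const,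
    nsmul_eq_mul, nsmul_eq_mul]
  have c1 : (P1.card : ℝ) ≤ ((m : ℝ) * m) * (4 * (m * W)) := by
    have := j2972_card1 Q
    rw [← hP1, hQc] at this
    exact_mod_cast this
  have c2 : (P2.card : ℝ) ≤ 8 * ((m : ℝ) * W) ^ 3 := by
    have := j2972_card2 Q
    rw [← hP2] at this
    exact_mod_cast this
  have r1 : 0 ≤ r ^ (m * m + 1) := by positivity
  have r2 : 0 ≤ r ^ (m * m + 2) := by positivity
  have t1 := mul_le_mul_of_nonneg_right c1 r1
  have t2 := mul_le_mul_of_nonneg_right c2 r2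
  calc (P1.card : ℝ) * r ^ (m * m + 1) + 1 / 2 * ((P2.card : ℝ) * r ^ (m * m + 2))
      ≤ ((m : ℝ) * m) * (4 * (m * W)) * r ^ (m * m + 1) +
        1 / 2 * (8 * ((m : ℝ) * W) ^ 3 * r ^ (m * m + 2)) := by linarith
    _ = _ := by ring

end

end Pool.Agent.Helper124.SW.J6
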