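import Pool.Agent.Helper124.SWDefs

namespace Pool.Agent.Helper124.SW.J7

open Finset Classical

noncomputable section

theorem sm_of_succ {m : ℕ} {α : Type*} [Preorder α] (f : Fin m → α)
    (h : ∀ i j : Fin m, i.val + 1 = j.val → f i < f j) : StrictMono f := by
  cases m with
  | zero => intro i; exact i.elim0
  | succ n => exact Fin.strictMono_iff_lt_succ.2 fun i => h _ _ (by simp)

theorem adj_symm {m : ℕ} {a b : Fin m × Fin m} (h : adj a b) : adj b a := by
  rcases h with ⟨h1, h2⟩ | ⟨h1, h2⟩
  · exact Or.inl ⟨h1.symm, h2.symm⟩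
  · exact Or.inr ⟨h1.symm, h2.symm⟩

/-- modification of `q` on the set `S` of cells by the values of `q'` -/
def md {m W : ℕ} (q q' : Plc m W) (S : Finset (Fin m × Fin m)) : Plc m W :=
  fun s t => if (s, t) ∈ S then q' s t else q s t

theorem md_mem {m W : ℕ} (q q' : Plc m W) {S : Finset (Fin m × Fin m)} {s t : Fin m}
    (h : (s, t) ∈ S) : md q q' S s t = q' s t := by simp [md, h]

theorem md_not {m W : ℕ} (q q' : Plc m W) {S : Finset (Fin m × Fin m)} {s t : Fin m}
    (h : (s, t) ∉ S) : md q q' S s t = q s t := by simp [md, h]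

theorem valid_md {m W : ℕ} {q q' : Plc m W} (hq : Valid q) (hq' : Valid q')
    (S : Finset (Fin m × Fin m))
    (h1 : ∀ s t t' : Fin m, t.val + 1 = t'.val → (s, t) ∈ S → (s, t') ∉ S → q' s t' ≠ q s t' →
      (q' s t).1 < (q s t').1)
    (h2 : ∀ s t t' : Fin m, t.val + 1 = t'.val → (s, t) ∉ S → (s, t') ∈ S → q' s t ≠ q s t →
      (q s t).1 < (q' s t').1)
    (h3 : ∀ s s' t : Fin m, s.val + 1 = s'.val → (s, t) ∈ S → (s', t) ∉ S → q' s' t ≠ q s' t →
      (q' s t).2.1 < (q s' t).2.1)
    (h4 : ∀ s s' t : Fin m, s.val + 1 = s'.val → (s, t) ∉ S → (s', t) ∈ S → q' s t ≠ q s t →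
      (q s t).2.1 < (q' s' t).2.1) : Valid (md q q' S) := by
  constructor
  · intro s
    apply sm_of_succ
    intro t t' htt
    have hlt : t < t' := by rw [Fin.lt_def]; omega
    by_cases ha : (s, t) ∈ S <;> by_cases hb : (s, t') ∈ S
    · simp only [md_mem q q' ha, md_mem q q' hb]; exact hq'.1 s hlt
    · simp only [md_mem q q' ha, md_not q q' hb]
      by_cases hn : q' s t' = q s t'
      · rw [← hn]; exact hq'.1 s hlt
      · exact h1 s t t' htt ha hb hn
    · simp only [md_not q q' ha, md_mem q q' hb]
      by_cases hn : q' s t = q s t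
      · rw [← hn]; exact hq'.1 s hlt
      · exact h2 s t t' htt ha hb hn
    · simp only [md_not q q' ha, md_not q q' hb]; exact hq.1 s hlt
  · intro t
    apply sm_of_succ
    intro s s' hss
    have hlt : s < s' := by rw [Fin.lt_def]; omega
    by_cases ha : (s, t) ∈ S <;> by_cases hb : (s', t) ∈ S
    · simp only [md_mem q q' ha, md_mem q q' hb]; exact hq'.2 t hlt
    · simp only [md_mem q q' ha, md_not q q' hb]
      by_cases hn : q' s' t = q s' t
      · rw [← hn]; exact hq'.2 t hlt
      · exact h3 s s' t hss ha hb hn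
    · simp only [md_not q q' ha, md_mem q q' hb]
      by_cases hn : q' s t = q s t
      · rw [← hn]; exact hq'.2 t hlt
      · exact h4 s s' t hss ha hb hn
    · simp only [md_not q q' ha, md_not q q' hb]; exact hq.2 t hlt

theorem mem_mv {m W : ℕ} {q q' : Plc m W} {c : Fin m × Fin m} :
    c ∈ mv q q' ↔ q' c.1 c.2 ≠ q c.1 c.2 := by simp [mv]

theorem sites_md {m W : ℕ} {q q' : Plc m W} {ω : Finset (Site m W)} (h : sites q ⊆ ω)
    (h' : sites q' ⊆ ω) (S : Finset (Fin m × Fin m)) : sites (md q q' S) ⊆ ω := by
  intro x hx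
  simp only [sites, mem_image, mem_univ, true_and] at hx
  obtain ⟨c, rfl⟩ := hx
  by_cases hc : (c.1, c.2) ∈ S
  · rw [md_mem q q' hc]
    exact h' (by simp only [sites, mem_image, mem_univ, true_and]; exact ⟨c, rfl⟩)
  · rw [md_not q q' hc]
    exact h (by simp only [sites, mem_image, mem_univ, true_and]; exact ⟨c, rfl⟩)

theorem mv_md {m W : ℕ} {q q' : Plc m W} (S : Finset (Fin m × Fin m)) (hS : S ⊆ mv q q') :
    mv q (md q q' S) = S := by
  ext c
  rw [mem_mv]
  by_cases hc : c ∈ S
  · have := mem_mv.1 (hS hc)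
    rw [md_mem q q' (by exact hc)]
    simp [hc, this]
  · rw [md_not q q' (by exact hc)]
    simp [hc]

/-- good placements -/
def Gd {m W : ℕ} (ω : Finset (Site m W)) (q q' : Plc m W) : Prop :=
  Valid q' ∧ sites q' ⊆ ω ∧ ∃ c : Fin m × Fin m, kl (q' c.1 c.2) (q c.1 c.2) ∧
    ∀ d : Fin m × Fin m, (d.1 < c.1 ∨ (d.1 = c.1 ∧ d.2 < c.2)) → q' d.1 d.2 = q d.1 d.2

theorem kl_ne {W : ℕ} {p p' : Fin W × Fin W × Bool} (h : kl p p') : p ≠ p' := by
  rintro rfl
  rcases h with ⟨h1, h2⟩ | ⟨h1, h2⟩
  · rw [h1] at h2; simp at h2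
  · exact lt_irrefl _ h2

theorem kl_total {W : ℕ} {p p' : Fin W × Fin W × Bool} (h : p.1 ≠ p'.1) (hn : ¬ kl p' p) :
    kl p p' := by
  unfold kl at *
  rcases h1 : p.2.2 <;> rcases h2 : p'.2.2 <;> simp_all
  · exact lt_of_le_of_ne hn h
  · exact lt_of_le_of_ne hn h

theorem comb_key {m W : ℕ} (ω : Finset (Site m W)) (hω : CFS ω) (q : Plc m W) (hq : Valid q)
    (hqω : sites q ⊆ ω) (hno : ∀ q' ∈ VV q, ¬ newSites q q' ⊆ ω) (q' : Plc m W) (hq' : Valid q')
    (hq'ω : sites q' ⊆ ω) (c : Fin m × Fin m) (hc : kl (q' c.1 c.2) (q c.1 c.2))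
    (hfirst : ∀ d : Fin m × Fin m, (d.1 < c.1 ∨ (d.1 = c.1 ∧ d.2 < c.2)) →
      q' d.1 d.2 = q d.1 d.2) : False := by
  -- choose a minimal good placement
  obtain ⟨p, hp, hmin⟩ := exists_min_image (univ.filter fun p : Plc m W => Gd ω q p)
    (fun p => (mv q p).card) ⟨q', by simp only [mem_filter, mem_univ, true_and]
                                     exact ⟨hq', hq'ω, c, hc, hfirst⟩⟩
  simp only [mem_filter, mem_univ, true_and] at hp hmin
  clear hc hfirst
  obtain ⟨hpv, hpω, c0, hkl, hfst⟩ := hp
  have hc0 : c0 ∈ mv q p := mem_mv.2 (kl_ne hkl)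
  have hfst' : ∀ d ∈ mv q p, ¬ (d.1 < c0.1 ∨ (d.1 = c0.1 ∧ d.2 < c0.2)) := fun d hd h =>
    mem_mv.1 hd (hfst d h)
  have hsite : ∀ r : Plc m W, sites r ⊆ ω → ∀ s t, ((s, t), r s t) ∈ ω := fun r hr s t =>
    hr (by simp only [sites, mem_image, mem_univ, true_and]; exact ⟨(s, t), rfl⟩)
  have hGP : GP q p := by
    intro d hd
    have hdne := mem_mv.1 hd
    refine ⟨fun t ht => ?_, fun s hs => ?_⟩
    · have := hω _ (hsite p hpω d.1 d.2) _ (hsite q hqω d.1 t) (Or.inl ⟨rfl, ht⟩)
      simp only [Prod.mk.injEq, true_and] at this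
      obtain ⟨rfl, h2⟩ := this
      exact hdne h2
    · have := hω _ (hsite p hpω d.1 d.2) _ (hsite q hqω s d.2) (Or.inr ⟨rfl, hs⟩)
      simp only [Prod.mk.injEq, and_true] at this
      obtain ⟨rfl, h2⟩ := this
      exact hdne h2
  have hnew : newSites q p ⊆ ω := by
    intro x hx
    simp only [newSites, mem_image] at hx
    obtain ⟨d, -, rfl⟩ := hx
    exact hsite p hpω d.1 d.2
  -- modification on a subset containing `c0`
  have hbig : ∀ S ⊆ mv q p, c0 ∈ S → Valid (md q p S) → S = mv q p := by
    intro S hS hcS hv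
    have hg : Gd ω q (md q p S) := by
      refine ⟨hv, sites_md hqω hpω S, c0, ?_, ?_⟩
      · rw [md_mem q p (by exact hcS)]; exact hkl
      · intro d hd
        have : d ∉ S := fun h => hfst' d (hS h) hd
        exact md_not q p (by exact this)
    have := hmin _ hg
    rw [mv_md S hS] at this
    exact eq_of_subset_of_card_le hS this
  have hclosed : ∀ S ⊆ mv q p, (∀ a ∈ S, ∀ b ∈ mv q p, adj a b → b ∈ S) → Valid (md q p S) := by
    intro S hS hcl
    apply valid_md hq hpv S
    · intro s t t' htt ha hb hn
      exact absurd (hcl _ ha (s, t') (mem_mv.2 hn) (Or.inl ⟨rfl, Or.inl htt⟩)) hb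
    · intro s t t' htt ha hb hn
      exact absurd (hcl _ hb (s, t) (mem_mv.2 hn) (Or.inl ⟨rfl, Or.inr htt⟩)) ha
    · intro s s' t hss ha hb hn
      exact absurd (hcl _ ha (s', t) (mem_mv.2 hn) (Or.inr ⟨rfl, Or.inl hss⟩)) hb
    · intro s s' t hss ha hb hn
      exact absurd (hcl _ hb (s, t) (mem_mv.2 hn) (Or.inr ⟨rfl, Or.inr hss⟩)) ha
  have hconn : Conn (mv q p) := by
    intro R1 hR1 hne hcl
    by_cases h0 : c0 ∈ R1
    · exact hbig R1 hR1 h0 (hclosed R1 hR1 hcl)
    · exfalso
      have hR2 : mv q p \ R1 = mv q p := by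
        apply hbig _ sdiff_subset (by simp [hc0, h0])
        apply hclosed _ sdiff_subset
        intro a ha b hb hab
        rw [mem_sdiff] at ha ⊢
        exact ⟨hb, fun hb1 => ha.2 (hcl b hb1 a ha.1 (adj_symm hab))⟩
      obtain ⟨x, hx⟩ := hne
      have hx2 := hR1 hx
      rw [← hR2, mem_sdiff] at hx2
      exact hx2.2 hx
  -- the cases
  have hcard : 0 < (mv q p).card := card_pos.2 ⟨c0, hc0⟩
  rcases Nat.lt_or_ge 2 (mv q p).card with h3 | h3
  · refine hno p ?_ hnew
    simp only [VV, mem_union]
    right
    simp only [V3, mem_filter, mem_univ, true_and]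
    exact ⟨hpv, hGP, hconn, h3⟩
  have hcases : (mv q p).card = 1 ∨ (mv q p).card = 2 := by omega
  rcases hcases with h1 | h2
  · refine hno p ?_ hnew
    obtain ⟨a, ha⟩ := card_eq_one.1 h1
    have : a = c0 := by rw [ha, mem_singleton] at hc0; exact hc0.symm
    subst this
    simp only [VV, mem_union]
    left; left; left
    simp only [V1, mem_filter, mem_univ, true_and]
    exact ⟨hpv, hGP, a, ha, hkl⟩
  -- two moved cells
  obtain ⟨c1, hR, hc1⟩ : ∃ c1, mv q p = {c0, c1} ∧ c1 ≠ c0 := by
    obtain ⟨a, b, hab, hR⟩ := card_eq_two.1 h2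
    rw [hR, mem_insert, mem_singleton] at hc0
    rcases hc0 with rfl | rfl
    · exact ⟨b, hR, hab.symm⟩
    · exact ⟨a, by rw [hR, pair_comm], hab⟩
  have hc1R : c1 ∈ mv q p := by rw [hR]; simp
  have hadj : adj c0 c1 := by
    by_contra hna
    have := hconn {c0} (by rw [hR]; simp) (singleton_nonempty _) (by
      intro a ha b hb hab
      rw [mem_singleton] at ha
      subst ha
      rw [hR, mem_insert, mem_singleton] at hb
      rcases hb with rfl | rfl
      · simp
      · exact absurd hab hna)
    have h5 : ({c0} : Finset (Fin m × Fin m)).card = 1 := card_singleton _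
    rw [this, h2] at h5
    omega
  have hlast := hfst' c1 hc1R
  have hsub0 : ({c0} : Finset (Fin m × Fin m)) ⊆ mv q p := by rw [hR]; simp
  have hsub1 : ({c1} : Finset (Fin m × Fin m)) ⊆ mv q p := by rw [hR]; simp
  have hv0 : ¬ Valid (md q p {c0}) := fun hv => by
    have := hbig {c0} hsub0 (by simp) hv
    have h5 : ({c0} : Finset (Fin m × Fin m)).card = 1 := card_singleton _
    rw [this, h2] at h5
    omega
  have hk1 : Valid (md q p {c1}) → kl (q c1.1 c1.2) (p c1.1 c1.2) := by
    intro hv
    apply kl_total ((hGP c1 hc1R).1 c1.2).symm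
    intro hk
    have hg : Gd ω q (md q p {c1}) := by
      refine ⟨hv, sites_md hqω hpω _, c1, ?_, ?_⟩
      · rw [md_mem q p (by simp)]; exact hk
      · intro d hd
        apply md_not q p
        rw [mem_singleton]
        rintro rfl
        rcases hd with hd | hd
        · exact lt_irrefl _ hd
        · exact lt_irrefl _ hd.2
    have := hmin _ hg
    rw [mv_md _ hsub1, card_singleton, h2] at this
    omega
  have hmem : ∀ s t, p s t ≠ q s t → (s, t) = c0 ∨ (s, t) = c1 := by
    intro s t h
    have : (s, t) ∈ mv q p := mem_mv.2 h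
    rw [hR, mem_insert, mem_singleton] at this
    exact this
  obtain ⟨s, t⟩ := c0
  obtain ⟨s1, t1⟩ := c1
  simp only at *
  rcases hadj with ⟨h4, h5⟩ | ⟨h4, h5⟩
  · -- same vertical strip
    simp only at h4 h5
    subst h4
    have h6 : t.val + 1 = t1.val := by
      rcases h5 with h5 | h5
      · exact h5
      · exfalso
        apply hlast
        right
        exact ⟨rfl, by rw [Fin.lt_def]; omega⟩
    have htt : t < t1 := by rw [Fin.lt_def]; omega
    have h7 : (q s t1).1 < (p s t).1 := by
      by_contra hcon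
      rw [not_lt] at hcon
      have hlt : (p s t).1 < (q s t1).1 := lt_of_le_of_ne hcon ((hGP _ hc0).1 t1)
      apply hv0
      apply valid_md hq hpv
      · intro a b b' hbb ha hb hn
        rw [mem_singleton, Prod.mk.injEq] at ha
        obtain ⟨rfl, rfl⟩ := ha
        have : b' = t1 := by apply Fin.ext; omega
        subst this
        exact hlt
      · intro a b b' hbb ha hb hn
        rw [mem_singleton, Prod.mk.injEq] at hb
        obtain ⟨rfl, rfl⟩ := hb
        rcases hmem _ _ hn with h | h
        · rw [Prod.mk.injEq] at h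
          have := h.2; rw [this] at hbb; omega
        · rw [Prod.mk.injEq] at h
          have := h.2; rw [this] at hbb; omega
      · intro a a' b haa ha hb hn
        rw [mem_singleton, Prod.mk.injEq] at ha
        obtain ⟨rfl, rfl⟩ := ha
        rcases hmem _ _ hn with h | h
        · rw [Prod.mk.injEq] at h
          have := h.1; rw [this] at haa; omega
        · rw [Prod.mk.injEq] at h
          have := h.1; rw [this] at haa; omega
      · intro a a' b haa ha hb hn
        rw [mem_singleton, Prod.mk.injEq] at hb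
        obtain ⟨rfl, rfl⟩ := hb
        rcases hmem _ _ hn with h | h
        · rw [Prod.mk.injEq] at h
          have := h.1; rw [this] at haa; omega
        · rw [Prod.mk.injEq] at h
          have := h.1; rw [this] at haa; omega
    have hv1 : Valid (md q p {(s, t1)}) := by
      apply valid_md hq hpv
      · intro a b b' hbb ha hb hn
        rw [mem_singleton, Prod.mk.injEq] at ha
        obtain ⟨rfl, rfl⟩ := ha
        rcases hmem _ _ hn with h | h
        · rw [Prod.mk.injEq] at h
          have := h.2; rw [this] at hbb; omega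
        · rw [Prod.mk.injEq] at h
          have := h.2; rw [this] at hbb; omega
      · intro a b b' hbb ha hb hn
        rw [mem_singleton, Prod.mk.injEq] at hb
        obtain ⟨rfl, rfl⟩ := hb
        have : b = t := by apply Fin.ext; omega
        subst this
        exact ((hq.1 a htt).trans h7).trans (hpv.1 a htt)
      · intro a a' b haa ha hb hn
        rw [mem_singleton, Prod.mk.injEq] at ha
        obtain ⟨rfl, rfl⟩ := ha
        rcases hmem _ _ hn with h | h
        · rw [Prod.mk.injEq] at h
          have := h.1; rw [this] at haa; omega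
        · rw [Prod.mk.injEq] at h
          have := h.1; rw [this] at haa; omega
      · intro a a' b haa ha hb hn
        rw [mem_singleton, Prod.mk.injEq] at hb
        obtain ⟨rfl, rfl⟩ := hb
        rcases hmem _ _ hn with h | h
        · rw [Prod.mk.injEq] at h
          have := h.1; rw [this] at haa; omega
        · rw [Prod.mk.injEq] at h
          have := h.1; rw [this] at haa; omega
    refine hno p ?_ hnew
    simp only [VV, mem_union]
    left; right
    simp only [V2c, mem_filter, mem_univ, true_and]
    exact ⟨hpv, hGP, s, t, t1, h6, hR, h7, hkl, hk1 hv1⟩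
  · -- same horizontal strip
    simp only at h4 h5
    subst h4
    have h6 : s.val + 1 = s1.val := by
      rcases h5 with h5 | h5
      · exact h5
      · exfalso
        apply hlast
        left
        rw [Fin.lt_def]; omega
    have hss : s < s1 := by rw [Fin.lt_def]; omega
    have h7 : (q s1 t).2.1 < (p s t).2.1 := by
      by_contra hcon
      rw [not_lt] at hcon
      have hlt : (p s t).2.1 < (q s1 t).2.1 := lt_of_le_of_ne hcon ((hGP _ hc0).2 s1)
      apply hv0
      apply valid_md hq hpv
      · intro a b b' hbb ha hb hn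
        rw [mem_singleton, Prod.mk.injEq] at ha
        obtain ⟨rfl, rfl⟩ := ha
        rcases hmem _ _ hn with h | h
        · rw [Prod.mk.injEq] at h
          have := h.2; rw [this] at hbb; omega
        · rw [Prod.mk.injEq] at h
          have := h.2; rw [this] at hbb; omega
      · intro a b b' hbb ha hb hn
        rw [mem_singleton, Prod.mk.injEq] at hb
        obtain ⟨rfl, rfl⟩ := hb
        rcases hmem _ _ hn with h | h
        · rw [Prod.mk.injEq] at h
          have := h.2; rw [this] at hbb; omega
        · rw [Prod.mk.injEq] at h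
          have := h.2; rw [this] at hbb; omega
      · intro a a' b haa ha hb hn
        rw [mem_singleton, Prod.mk.injEq] at ha
        obtain ⟨rfl, rfl⟩ := ha
        have : a' = s1 := by apply Fin.ext; omega
        subst this
        exact hlt
      · intro a a' b haa ha hb hn
        rw [mem_singleton, Prod.mk.injEq] at hb
        obtain ⟨rfl, rfl⟩ := hb
        rcases hmem _ _ hn with h | h
        · rw [Prod.mk.injEq] at h
          have := h.1; rw [this] at haa; omega
        · rw [Prod.mk.injEq] at h
          have := h.1; rw [this] at haa; omega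
    have hv1 : Valid (md q p {(s1, t)}) := by
      apply valid_md hq hpv
      · intro a b b' hbb ha hb hn
        rw [mem_singleton, Prod.mk.injEq] at ha
        obtain ⟨rfl, rfl⟩ := ha
        rcases hmem _ _ hn with h | h
        · rw [Prod.mk.injEq] at h
          have := h.2; rw [this] at hbb; omega
        · rw [Prod.mk.injEq] at h
          have := h.2; rw [this] at hbb; omega
      · intro a b b' hbb ha hb hn
        rw [mem_singleton, Prod.mk.injEq] at hb
        obtain ⟨rfl, rfl⟩ := hb
        rcases hmem _ _ hn with h | h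
        · rw [Prod.mk.injEq] at h
          have := h.2; rw [this] at hbb; omega
        · rw [Prod.mk.injEq] at h
          have := h.2; rw [this] at hbb; omega
      · intro a a' b haa ha hb hn
        rw [mem_singleton, Prod.mk.injEq] at ha
        obtain ⟨rfl, rfl⟩ := ha
        rcases hmem _ _ hn with h | h
        · rw [Prod.mk.injEq] at h
          have := h.1; rw [this] at haa; omega
        · rw [Prod.mk.injEq] at h
          have := h.1; rw [this] at haa; omega
      · intro a a' b haa ha hb hn
        rw [mem_singleton, Prod.mk.injEq] at hb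
        obtain ⟨rfl, rfl⟩ := hb
        have : a = s := by apply Fin.ext; omega
        subst this
        exact ((hq.2 b hss).trans h7).trans (hpv.2 b hss)
    refine hno p ?_ hnew
    simp only [VV, mem_union]
    left; left; right
    simp only [V2r, mem_filter, mem_univ, true_and]
    exact ⟨hpv, hGP, s, s1, t, h6, hR, h7, hkl, hk1 hv1⟩

end

end Pool.Agent.Helper124.SW.J7
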