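import Pool.Agent.Helper124.SWDefs

namespace Pool.Agent.Helper124.SW.J9

open Finset Classical

noncomputable section

/-- neighbours -/
def nbr {m : ℕ} (a : Fin m × Fin m) : Finset (Fin m × Fin m) := univ.filter fun b => adj a b

lemma card_nbr {m : ℕ} (a : Fin m × Fin m) : (nbr a).card ≤ 4 := by
  have hsub : nbr a ⊆ ((univ.filter fun b : Fin m × Fin m => a.1 = b.1 ∧ a.2.val + 1 = b.2.val) ∪
      (univ.filter fun b : Fin m × Fin m => a.1 = b.1 ∧ b.2.val + 1 = a.2.val)) ∪
      ((univ.filter fun b : Fin m × Fin m => a.2 = b.2 ∧ a.1.val + 1 = b.1.val) ∪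
      (univ.filter fun b : Fin m × Fin m => a.2 = b.2 ∧ b.1.val + 1 = a.1.val)) := by
    intro b hb
    have hb' : adj a b := (Finset.mem_filter.1 hb).2
    simp only [Finset.mem_union, Finset.mem_filter, Finset.mem_univ, true_and]
    rcases hb' with ⟨h1, h2 | h2⟩ | ⟨h1, h2 | h2⟩
    · exact Or.inl (Or.inl ⟨h1, h2⟩)
    · exact Or.inl (Or.inr ⟨h1, h2⟩)
    · exact Or.inr (Or.inl ⟨h1, h2⟩)
    · exact Or.inr (Or.inr ⟨h1, h2⟩)
  have h1 : (univ.filter fun b : Fin m × Fin m => a.1 = b.1 ∧ a.2.val + 1 = b.2.val).card ≤ 1 := by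
    rw [Finset.card_le_one]
    intro x hx y hy
    have hx' := (Finset.mem_filter.1 hx).2
    have hy' := (Finset.mem_filter.1 hy).2
    exact Prod.ext (hx'.1.symm.trans hy'.1) (Fin.ext (by omega))
  have h2 : (univ.filter fun b : Fin m × Fin m => a.1 = b.1 ∧ b.2.val + 1 = a.2.val).card ≤ 1 := by
    rw [Finset.card_le_one]
    intro x hx y hy
    have hx' := (Finset.mem_filter.1 hx).2
    have hy' := (Finset.mem_filter.1 hy).2
    exact Prod.ext (hx'.1.symm.trans hy'.1) (Fin.ext (by omega))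
  have h3 : (univ.filter fun b : Fin m × Fin m => a.2 = b.2 ∧ a.1.val + 1 = b.1.val).card ≤ 1 := by
    rw [Finset.card_le_one]
    intro x hx y hy
    have hx' := (Finset.mem_filter.1 hx).2
    have hy' := (Finset.mem_filter.1 hy).2
    exact Prod.ext (Fin.ext (by omega)) (hx'.1.symm.trans hy'.1)
  have h4 : (univ.filter fun b : Fin m × Fin m => a.2 = b.2 ∧ b.1.val + 1 = a.1.val).card ≤ 1 := by
    rw [Finset.card_le_one]
    intro x hx y hy
    have hx' := (Finset.mem_filter.1 hx).2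
    have hy' := (Finset.mem_filter.1 hy).2
    exact Prod.ext (Fin.ext (by omega)) (hx'.1.symm.trans hy'.1)
  have h5 := Finset.card_le_card hsub
  have h6 := Finset.card_union_le
    ((univ.filter fun b : Fin m × Fin m => a.1 = b.1 ∧ a.2.val + 1 = b.2.val) ∪
      (univ.filter fun b : Fin m × Fin m => a.1 = b.1 ∧ b.2.val + 1 = a.2.val))
      ((univ.filter fun b : Fin m × Fin m => a.2 = b.2 ∧ a.1.val + 1 = b.1.val) ∪
      (univ.filter fun b : Fin m × Fin m => a.2 = b.2 ∧ b.1.val + 1 = a.1.val))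
  have h7 := Finset.card_union_le
    (univ.filter fun b : Fin m × Fin m => a.1 = b.1 ∧ a.2.val + 1 = b.2.val)
    (univ.filter fun b : Fin m × Fin m => a.1 = b.1 ∧ b.2.val + 1 = a.2.val)
  have h8 := Finset.card_union_le
    (univ.filter fun b : Fin m × Fin m => a.2 = b.2 ∧ a.1.val + 1 = b.1.val)
    (univ.filter fun b : Fin m × Fin m => a.2 = b.2 ∧ b.1.val + 1 = a.1.val)
  omega

/-- outer boundary -/
def bdy {m : ℕ} (R : Finset (Fin m × Fin m)) : Finset (Fin m × Fin m) := (R.biUnion nbr) \ R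

lemma mem_bdy {m : ℕ} {R : Finset (Fin m × Fin m)} {a b : Fin m × Fin m} (ha : a ∈ R)
    (hab : adj a b) (hb : b ∉ R) : b ∈ bdy R := by
  unfold bdy
  rw [Finset.mem_sdiff, Finset.mem_biUnion]
  exact ⟨⟨a, ha, Finset.mem_filter.2 ⟨Finset.mem_univ _, hab⟩⟩, hb⟩

lemma card_bdy {m : ℕ} (R : Finset (Fin m × Fin m)) : (R ∪ bdy R).card ≤ 5 * R.card := by
  have h1 : (R.biUnion nbr).card ≤ ∑ a ∈ R, (nbr a).card := Finset.card_biUnion_le
  have h2 : ∑ a ∈ R, (nbr a).card ≤ ∑ _a ∈ R, 4 := Finset.sum_le_sum fun a _ => card_nbr a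
  rw [Finset.sum_const, smul_eq_mul] at h2
  have h3 : (bdy R).card ≤ (R.biUnion nbr).card := Finset.card_le_card Finset.sdiff_subset
  have h4 := Finset.card_union_le R (bdy R)
  omega

/-- supersets avoiding the boundary -/
def FR {m : ℕ} (R : Finset (Fin m × Fin m)) : Finset (Finset (Fin m × Fin m)) :=
  univ.filter fun Y => R ⊆ Y ∧ Disjoint (bdy R) Y

lemma card_FR {m : ℕ} (R : Finset (Fin m × Fin m)) :
    (FR R).card * 2 ^ (R ∪ bdy R).card = 2 ^ (Fintype.card (Fin m × Fin m)) := by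
  have h1 : (FR R).card = ((R ∪ bdy R)ᶜ).powerset.card := by
    symm
    apply Finset.card_bij (fun Z _ => Z ∪ R)
    · intro Z hZ
      rw [Finset.mem_powerset] at hZ
      refine Finset.mem_filter.2 ⟨Finset.mem_univ _, Finset.subset_union_right, ?_⟩
      rw [Finset.disjoint_left]
      intro b hb hb2
      rw [Finset.mem_union] at hb2
      rcases hb2 with h | h
      · have := hZ h
        rw [Finset.mem_compl, Finset.mem_union, not_or] at this
        exact this.2 hb
      · exact (Finset.mem_sdiff.1 hb).2 h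
    · intro Z hZ Z' hZ' h
      rw [Finset.mem_powerset] at hZ hZ'
      ext b
      have hb : b ∈ Z ∪ R ↔ b ∈ Z' ∪ R := by rw [h]
      rw [Finset.mem_union, Finset.mem_union] at hb
      constructor
      · intro h1
        rcases hb.1 (Or.inl h1) with h2 | h2
        · exact h2
        · have := hZ h1
          rw [Finset.mem_compl, Finset.mem_union, not_or] at this
          exact absurd h2 this.1
      · intro h1
        rcases hb.2 (Or.inl h1) with h2 | h2
        · exact h2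
        · have := hZ' h1
          rw [Finset.mem_compl, Finset.mem_union, not_or] at this
          exact absurd h2 this.1
    · intro Y hY
      have hY' := (Finset.mem_filter.1 hY).2
      refine ⟨Y \ R, ?_, ?_⟩
      · rw [Finset.mem_powerset]
        intro b hb
        rw [Finset.mem_sdiff] at hb
        rw [Finset.mem_compl, Finset.mem_union, not_or]
        exact ⟨hb.2, fun h => Finset.disjoint_left.1 hY'.2 h hb.1⟩
      · exact Finset.sdiff_union_of_subset hY'.1
  rw [h1, Finset.card_powerset, ← pow_add]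
  congr 1
  rw [Finset.card_compl]
  have := Finset.card_le_univ (R ∪ bdy R)
  omega

lemma FR_sub {m : ℕ} {R R' Y : Finset (Fin m × Fin m)} {c₀ : Fin m × Fin m}
    (hR : Conn R) (hc : c₀ ∈ R) (hc' : c₀ ∈ R') (h : Y ∈ FR R) (h' : Y ∈ FR R') : R ⊆ R' := by
  have h1 := (Finset.mem_filter.1 h).2
  have h2 := (Finset.mem_filter.1 h').2
  have h3 := hR (R ∩ R') Finset.inter_subset_left ⟨c₀, Finset.mem_inter.2 ⟨hc, hc'⟩⟩ (by
    intro a ha b hb hab
    rw [Finset.mem_inter] at ha ⊢
    refine ⟨hb, ?_⟩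
    by_contra hb'
    exact Finset.disjoint_left.1 h2.2 (mem_bdy ha.2 hab hb') (h1.1 hb))
  rw [← h3]
  exact Finset.inter_subset_right

/-- number of connected sets of cells containing a given cell -/
theorem conn_count (m j : ℕ) (c₀ : Fin m × Fin m) :
    (univ.filter fun R : Finset (Fin m × Fin m) => Conn R ∧ c₀ ∈ R ∧ R.card = j).card ≤ 32 ^ j := by
  set 𝓡 := univ.filter fun R : Finset (Fin m × Fin m) => Conn R ∧ c₀ ∈ R ∧ R.card = j with h𝓡
  have hdisj : (𝓡 : Set (Finset (Fin m × Fin m))).PairwiseDisjoint FR := by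
    intro R hR R' hR' hne
    have h1 := (Finset.mem_filter.1 (Finset.mem_coe.1 hR)).2
    have h2 := (Finset.mem_filter.1 (Finset.mem_coe.1 hR')).2
    change Disjoint (FR R) (FR R')
    rw [Finset.disjoint_left]
    intro Y hY hY'
    exact hne (Finset.Subset.antisymm (FR_sub h1.1 h1.2.1 h2.2.1 hY hY')
      (FR_sub h2.1 h2.2.1 h1.2.1 hY' hY))
  have h1 : (𝓡.biUnion FR).card = ∑ R ∈ 𝓡, (FR R).card := Finset.card_biUnion hdisj
  have h2 : (𝓡.biUnion FR).card ≤ 2 ^ (Fintype.card (Fin m × Fin m)) := by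
    refine (Finset.card_le_univ _).trans ?_
    rw [Fintype.card_finset]
  have h3 : ∀ R ∈ 𝓡, 2 ^ (Fintype.card (Fin m × Fin m)) ≤ (FR R).card * 32 ^ j := by
    intro R hR
    have h4 := (Finset.mem_filter.1 hR).2
    rw [← card_FR R]
    apply Nat.mul_le_mul_left
    calc 2 ^ (R ∪ bdy R).card ≤ 2 ^ (5 * R.card) :=
          Nat.pow_le_pow_right (by norm_num) (card_bdy R)
      _ = 32 ^ j := by rw [h4.2.2, pow_mul]; norm_num
  have h4 : 𝓡.card * 2 ^ (Fintype.card (Fin m × Fin m)) ≤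
      32 ^ j * 2 ^ (Fintype.card (Fin m × Fin m)) := by
    calc 𝓡.card * 2 ^ (Fintype.card (Fin m × Fin m))
        = ∑ _R ∈ 𝓡, 2 ^ (Fintype.card (Fin m × Fin m)) := by
          rw [Finset.sum_const, smul_eq_mul]
      _ ≤ ∑ R ∈ 𝓡, (FR R).card * 32 ^ j := Finset.sum_le_sum h3
      _ = (∑ R ∈ 𝓡, (FR R).card) * 32 ^ j := by rw [Finset.sum_mul]
      _ ≤ 2 ^ (Fintype.card (Fin m × Fin m)) * 32 ^ j := by
          rw [← h1]; exact Nat.mul_le_mul_right _ h2
      _ = _ := mul_comm _ _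
  exact Nat.le_of_mul_le_mul_right h4 (by positivity)

end

end Pool.Agent.Helper124.SW.J9
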